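import Pool.Agent.Lib.MP_a322a8_mp.Defs

/-!
Algebraic part: differential field of jet functions, Laplace chain, and the integrability of the
distribution spanned by the iterated commutators of the total derivative.
-/

set_option autoImplicit false

namespace Pool.Agent.Lib.MP_a322a8_mp

/-- Abstract differential field of jet functions, seen from the direction `ε`. -/
structure JetDiff (K : Type*) [Field K] (N : ℕ) (ε : Bool) where
  pd : Coord N → Derivation ℤ K K
  z : Coord N → K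
  D : Derivation ℤ K K
  D' : Derivation ℤ K K
  pd_z : ∀ c c', pd c (z c') = if c = c' then 1 else 0
  pd_comm : ∀ c c' f, pd c (pd c' f) = pd c' (pd c f)
  fin : ∀ f, ∃ s : Finset (Coord N), ∀ c ∉ s, pd c f = 0
  D_eq : ∀ f (s : Finset (Coord N)), (∀ c ∉ s, pd c f = 0) → D f = ∑ c ∈ s, D (z c) * pd c f
  D'_eq : ∀ f (s : Finset (Coord N)), (∀ c ∉ s, pd c f = 0) → D' f = ∑ c ∈ s, D' (z c) * pd c f
  DD' : ∀ f, D (D' f) = D' (D f)
  D_var : ∀ e, D (z (.var e)) = if e = ε then 1 else 0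
  D'_var : ∀ e, D' (z (.var e)) = if e = ε then 0 else 1
  D_u : ∀ i, D (z (.u i)) = z (.d ε 0 i)
  D'_u : ∀ i, D' (z (.u i)) = z (.d (!ε) 0 i)
  D_d : ∀ n i, D (z (.d ε n i)) = z (.d ε (n + 1) i)
  D'_d : ∀ n i, D' (z (.d (!ε) n i)) = z (.d (!ε) (n + 1) i)
  G_p : ∀ n i m j, pd (.d ε (m + 1) j) (D (z (.d (!ε) n i))) = 0
  G_q : ∀ n i m j, n < m → pd (.d (!ε) m j) (D (z (.d (!ε) n i))) = 0

namespace JetDiff

variable {K : Type*} [Field K] {N : ℕ} {ε : Bool} (J : JetDiff K N ε)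

/-- Geometric derivations: determined by the values on the coordinates. -/
def Geo (Y : Derivation ℤ K K) : Prop :=
  ∀ f (s : Finset (Coord N)), (∀ c ∉ s, J.pd c f = 0) → Y f = ∑ c ∈ s, Y (J.z c) * J.pd c f

lemma geo_D : J.Geo J.D := J.D_eq
lemma geo_D' : J.Geo J.D' := J.D'_eq

lemma geo_pd (c : Coord N) : J.Geo (J.pd c) := by
  intro f s hs
  simp only [J.pd_z, ite_mul, one_mul, zero_mul]
  rw [Finset.sum_ite_eq]
  split_ifs with h
  · rfl
  · exact hs c h

lemma Geo.add {Y Z : Derivation ℤ K K} (hY : J.Geo Y) (hZ : J.Geo Z) : J.Geo (Y + Z) := by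
  intro f s hs
  rw [Derivation.add_apply, hY f s hs, hZ f s hs, ← Finset.sum_add_distrib]
  refine Finset.sum_congr rfl fun c _ => ?_
  rw [Derivation.add_apply, add_mul]

lemma Geo.zero : J.Geo 0 := by
  intro f s _
  simp

lemma Geo.smul {Y : Derivation ℤ K K} (a : K) (hY : J.Geo Y) : J.Geo (a • Y) := by
  intro f s hs
  rw [Derivation.smul_apply, hY f s hs, Finset.smul_sum]
  refine Finset.sum_congr rfl fun c _ => ?_
  rw [Derivation.smul_apply, smul_eq_mul, smul_eq_mul, mul_assoc]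

lemma Geo.bracket {Y Z : Derivation ℤ K K} (hY : J.Geo Y) (hZ : J.Geo Z) : J.Geo ⁅Y, Z⁆ := by
  intro f s hs
  have key : ∀ {Y Z : Derivation ℤ K K}, J.Geo Y → J.Geo Z →
      Y (Z f) = ∑ c ∈ s, Y (Z (J.z c)) * J.pd c f +
        ∑ c ∈ s, ∑ c' ∈ s, Z (J.z c) * (Y (J.z c') * J.pd c' (J.pd c f)) := by
    intro Y Z hY hZ
    rw [hZ f s hs, map_sum, ← Finset.sum_add_distrib]
    refine Finset.sum_congr rfl fun c _ => ?_
    rw [Derivation.leibniz, smul_eq_mul, smul_eq_mul, hY (J.pd c f) s ?_, Finset.mul_sum]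
    · ring
    · intro c' hc'
      rw [J.pd_comm, hs c' hc', map_zero]
  rw [Derivation.commutator_apply, key hY hZ, key hZ hY]
  have h2 : ∑ c ∈ s, ∑ c' ∈ s, Y (J.z c) * (Z (J.z c') * J.pd c' (J.pd c f)) =
      ∑ c ∈ s, ∑ c' ∈ s, Z (J.z c) * (Y (J.z c') * J.pd c' (J.pd c f)) := by
    rw [Finset.sum_comm]
    refine Finset.sum_congr rfl fun c _ => Finset.sum_congr rfl fun c' _ => ?_
    rw [J.pd_comm]
    ring
  rw [h2]
  simp only [Derivation.commutator_apply, sub_mul, Finset.sum_sub_distrib]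
  ring

lemma Geo.ext {Y : Derivation ℤ K K} (hY : J.Geo Y) (h : ∀ c, Y (J.z c) = 0) : Y = 0 := by
  ext f
  obtain ⟨s, hs⟩ := J.fin f
  rw [hY f s hs]
  simp [h]

/-- Vertical geometric derivations. -/
def V : Submodule K (Derivation ℤ K K) where
  carrier := {Y | J.Geo Y ∧ ∀ e, Y (J.z (.var e)) = 0}
  add_mem' := by
    rintro Y Z ⟨h1, h2⟩ ⟨h3, h4⟩
    refine ⟨Geo.add J h1 h3, fun e => ?_⟩
    rw [Derivation.add_apply, h2, h4, add_zero]
  zero_mem' := ⟨Geo.zero J, fun _ => rfl⟩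
  smul_mem' := by
    rintro a Y ⟨h1, h2⟩
    refine ⟨Geo.smul J a h1, fun e => ?_⟩
    rw [Derivation.smul_apply, h2, smul_zero]

lemma mem_V {Y : Derivation ℤ K K} : Y ∈ J.V ↔ J.Geo Y ∧ ∀ e, Y (J.z (.var e)) = 0 := Iff.rfl

/-- Derivations which differentiate the coordinates `x`, `y` to constants. -/
lemma bracket_mem_V {Y Z : Derivation ℤ K K} (hY : J.Geo Y) (hZ : J.Geo Z)
    (h1 : ∀ e, Y (Z (J.z (.var e))) = 0) (h2 : ∀ e, Z (Y (J.z (.var e))) = 0) :
    ⁅Y, Z⁆ ∈ J.V := by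
  refine ⟨Geo.bracket J hY hZ, fun e => ?_⟩
  rw [Derivation.commutator_apply, h1, h2, sub_zero]

lemma map_ite_one (Y : Derivation ℤ K K) (p : Prop) [Decidable p] :
    Y (if p then 1 else 0) = 0 := by
  split_ifs <;> simp

lemma map_ite_zero (Y : Derivation ℤ K K) (p : Prop) [Decidable p] :
    Y (if p then 0 else 1) = 0 := by
  split_ifs <;> simp

lemma adD_V {Y : Derivation ℤ K K} (hY : Y ∈ J.V) : ⁅J.D, Y⁆ ∈ J.V := by
  refine J.bracket_mem_V J.geo_D hY.1 (fun e => ?_) (fun e => ?_)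
  · rw [hY.2, map_zero]
  · rw [J.D_var, map_ite_one]

lemma adD'_V {Y : Derivation ℤ K K} (hY : Y ∈ J.V) : ⁅J.D', Y⁆ ∈ J.V := by
  refine J.bracket_mem_V J.geo_D' hY.1 (fun e => ?_) (fun e => ?_)
  · rw [hY.2, map_zero]
  · rw [J.D'_var, map_ite_zero]

lemma bracket_V {Y Z : Derivation ℤ K K} (hY : Y ∈ J.V) (hZ : Z ∈ J.V) : ⁅Y, Z⁆ ∈ J.V := by
  refine J.bracket_mem_V hY.1 hZ.1 (fun e => ?_) (fun e => ?_)
  · rw [hZ.2, map_zero]
  · rw [hY.2, map_zero]

lemma pd_mem_V {c : Coord N} (hc : ∀ e, c ≠ .var e) : J.pd c ∈ J.V := by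
  refine ⟨J.geo_pd c, fun e => ?_⟩
  rw [J.pd_z, if_neg (hc e)]

lemma pd_bracket (c c' : Coord N) : ⁅J.pd c, J.pd c'⁆ = 0 := by
  ext f
  rw [Derivation.commutator_apply, J.pd_comm, sub_self, Derivation.coe_zero, Pi.zero_apply]

lemma DD'_bracket : ⁅J.D', J.D⁆ = 0 := by
  ext f
  rw [Derivation.commutator_apply, J.DD', sub_self, Derivation.coe_zero, Pi.zero_apply]

/-- The field `X_β = [∂/∂p_{0β}, D]`. -/
def X (β : Fin N) : Derivation ℤ K K := ⁅J.pd (.d ε 0 β), J.D⁆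

lemma X_mem_V (β : Fin N) : J.X β ∈ J.V := by
  refine J.bracket_mem_V (J.geo_pd _) J.geo_D (fun e => ?_) (fun e => ?_)
  · rw [J.D_var, map_ite_one]
  · rw [J.pd_z, if_neg (by simp), map_zero]

lemma X_apply_z (β : Fin N) (c : Coord N) :
    J.X β (J.z c) = J.pd (.d ε 0 β) (J.D (J.z c)) := by
  rw [X, Derivation.commutator_apply, J.pd_z, map_ite_one, sub_zero]

/-- Iterated commutators. -/
def adX (j : ℕ) (β : Fin N) : Derivation ℤ K K := (fun Y => ⁅J.D, Y⁆)^[j] (J.X β)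

lemma adX_zero (β : Fin N) : J.adX 0 β = J.X β := rfl

lemma adX_succ (j : ℕ) (β : Fin N) : J.adX (j + 1) β = ⁅J.D, J.adX j β⁆ := by
  rw [adX, Function.iterate_succ_apply', ← adX]

lemma adX_mem_V (j : ℕ) (β : Fin N) : J.adX j β ∈ J.V := by
  induction j with
  | zero => exact J.X_mem_V β
  | succ j ih => rw [adX_succ]; exact J.adD_V ih

/-- The distribution. -/
def DD : Submodule K (Derivation ℤ K K) :=
  Submodule.span K (Set.range fun p : ℕ × Fin N => J.adX p.1 p.2)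

lemma adX_mem (j : ℕ) (β : Fin N) : J.adX j β ∈ J.DD :=
  Submodule.subset_span ⟨(j, β), rfl⟩

lemma X_mem (β : Fin N) : J.X β ∈ J.DD := J.adX_mem 0 β

lemma DD_le_V : J.DD ≤ J.V := by
  rw [DD, Submodule.span_le]
  rintro _ ⟨p, rfl⟩
  exact J.adX_mem_V p.1 p.2

lemma lie_smul' (Z Y : Derivation ℤ K K) (a : K) : ⁅Z, a • Y⁆ = Z a • Y + a • ⁅Z, Y⁆ := by
  ext f
  simp only [Derivation.commutator_apply, Derivation.smul_apply, Derivation.add_apply,
    Derivation.leibniz, smul_eq_mul]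
  ring

lemma smul_lie' (Y Z : Derivation ℤ K K) (a : K) : ⁅a • Y, Z⁆ = a • ⁅Y, Z⁆ - Z a • Y := by
  ext f
  simp only [Derivation.commutator_apply, Derivation.smul_apply, Derivation.sub_apply,
    Derivation.leibniz, smul_eq_mul]
  ring

lemma adD_DD {Y : Derivation ℤ K K} (hY : Y ∈ J.DD) : ⁅J.D, Y⁆ ∈ J.DD := by
  induction hY using Submodule.span_induction with
  | mem x hx =>
    obtain ⟨p, rfl⟩ := hx
    have := J.adX_mem (p.1 + 1) p.2
    rwa [adX_succ] at this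
  | zero => simp
  | add x y _ _ h1 h2 => rw [lie_add]; exact J.DD.add_mem h1 h2
  | smul a x hx h =>
    rw [lie_smul']
    exact J.DD.add_mem (J.DD.smul_mem _ hx) (J.DD.smul_mem _ h)

lemma sum_apply' {ι : Type*} (s : Finset ι) (Y : ι → Derivation ℤ K K) (f : K) :
    (∑ i ∈ s, Y i) f = ∑ i ∈ s, Y i f := by
  classical
  induction s using Finset.induction_on with
  | empty => simp
  | insert a s ha ih => rw [Finset.sum_insert ha, Finset.sum_insert ha, Derivation.add_apply, ih]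

/-- Vertical fields which only differentiate along the coordinates `d ε n i`. -/
def Q : Submodule K (Derivation ℤ K K) where
  carrier := {Y | Y ∈ J.V ∧ (∀ i, Y (J.z (.u i)) = 0) ∧ ∀ n i, Y (J.z (.d (!ε) n i)) = 0}
  add_mem' := by
    rintro Y Z ⟨h1, h2, h3⟩ ⟨h4, h5, h6⟩
    refine ⟨J.V.add_mem h1 h4, fun i => ?_, fun n i => ?_⟩
    · rw [Derivation.add_apply, h2, h5, add_zero]
    · rw [Derivation.add_apply, h3, h6, add_zero]
  zero_mem' := ⟨J.V.zero_mem, fun _ => rfl, fun _ _ => rfl⟩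
  smul_mem' := by
    rintro a Y ⟨h1, h2, h3⟩
    refine ⟨J.V.smul_mem a h1, fun i => ?_, fun n i => ?_⟩
    · rw [Derivation.smul_apply, h2, smul_zero]
    · rw [Derivation.smul_apply, h3, smul_zero]

lemma pd_mem_Q (m : ℕ) (β : Fin N) : J.pd (.d ε m β) ∈ J.Q := by
  refine ⟨J.pd_mem_V (by simp), fun i => ?_, fun n i => ?_⟩
  · rw [J.pd_z, if_neg (by simp)]
  · rw [J.pd_z, if_neg (by simp)]

lemma adD'_Q {Y : Derivation ℤ K K} (hY : Y ∈ J.Q) : ⁅J.D', Y⁆ ∈ J.Q := by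
  refine ⟨J.adD'_V hY.1, fun i => ?_, fun n i => ?_⟩
  · rw [Derivation.commutator_apply, hY.2.1, map_zero, J.D'_u, hY.2.2, sub_zero]
  · rw [Derivation.commutator_apply, hY.2.2, map_zero, J.D'_d, hY.2.2, sub_zero]

/-- Action of an element of `Q` on the functions `D (q n i)`. -/
lemma Q_apply_G {Y : Derivation ℤ K K} (hY : Y ∈ J.Q) (n : ℕ) (i : Fin N) :
    Y (J.D (J.z (.d (!ε) n i))) =
      ∑ β, Y (J.z (.d ε 0 β)) * J.pd (.d ε 0 β) (J.D (J.z (.d (!ε) n i))) := by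
  classical
  obtain ⟨s, hs⟩ := J.fin (J.D (J.z (.d (!ε) n i)))
  let t : Finset (Coord N) := Finset.univ.image fun β : Fin N => Coord.d ε 0 β
  rw [hY.1.1 _ (s ∪ t) (fun c hc => hs c (fun h => hc (Finset.mem_union_left _ h)))]
  have h1 : ∑ c ∈ s ∪ t, Y (J.z c) * J.pd c (J.D (J.z (.d (!ε) n i))) =
      ∑ c ∈ t, Y (J.z c) * J.pd c (J.D (J.z (.d (!ε) n i))) := by
    symm
    refine Finset.sum_subset Finset.subset_union_right fun c _ hc => ?_
    cases c with
    | var e => rw [hY.1.2, zero_mul]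
    | u i => rw [hY.2.1, zero_mul]
    | d e m j =>
      by_cases he : e = ε
      · subst he
        cases m with
        | zero => exact absurd (Finset.mem_image_of_mem _ (Finset.mem_univ j)) hc
        | succ m => rw [J.G_p, mul_zero]
      · have : e = !ε := by cases e <;> cases ε <;> simp_all
        subst this
        rw [hY.2.2, zero_mul]
  rw [h1, Finset.sum_image]
  intro a _ b _ hab
  simpa using hab

lemma adD_Q {Y : Derivation ℤ K K} (hY : Y ∈ J.Q) :
    ⁅J.D, Y⁆ + ∑ β, Y (J.z (.d ε 0 β)) • J.X β ∈ J.Q := by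
  have happ : ∀ f, (∑ β, Y (J.z (.d ε 0 β)) • J.X β) f =
      ∑ β, Y (J.z (.d ε 0 β)) * J.X β f := by
    intro f
    rw [sum_apply']
    refine Finset.sum_congr rfl fun β _ => ?_
    rw [Derivation.smul_apply, smul_eq_mul]
  refine ⟨J.V.add_mem (J.adD_V hY.1) (J.V.sum_mem fun β _ => J.V.smul_mem _ (J.X_mem_V β)),
    fun i => ?_, fun n i => ?_⟩
  · rw [Derivation.add_apply, happ, Derivation.commutator_apply, hY.2.1, map_zero, J.D_u]
    simp only [J.X_apply_z, J.D_u, J.pd_z]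
    simp
  · rw [Derivation.add_apply, happ, Derivation.commutator_apply, hY.2.2, map_zero,
      J.Q_apply_G hY]
    simp only [J.X_apply_z]
    simp

/-- Functionals on derivations. -/
abbrev Om (K : Type*) [Field K] := Derivation ℤ K K →ₗ[K] K

lemma om_sub_smul (a b : K) (v : Om K) : (a - b) • v = a • v - b • v := by
  ext Y
  simp [sub_mul]

/-- Lie derivative of a functional. -/
def LL (Z : Derivation ℤ K K) (v : Om K) : Om K where
  toFun Y := Z (v Y) - v ⁅Z, Y⁆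
  map_add' Y Y' := by
    rw [map_add, map_add, lie_add, map_add]; ring
  map_smul' a Y := by
    rw [v.map_smul, lie_smul', map_add, v.map_smul, v.map_smul, smul_eq_mul, smul_eq_mul,
      smul_eq_mul, Derivation.leibniz, smul_eq_mul, smul_eq_mul, RingHom.id_apply, smul_eq_mul]
    ring

lemma LL_apply (Z : Derivation ℤ K K) (v : Om K) (Y : Derivation ℤ K K) :
    LL Z v Y = Z (v Y) - v ⁅Z, Y⁆ := rfl

lemma LL_add (Z : Derivation ℤ K K) (v w : Om K) : LL Z (v + w) = LL Z v + LL Z w := by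
  ext Y
  simp only [LL_apply, LinearMap.add_apply, map_add]
  ring

lemma LL_zero (Z : Derivation ℤ K K) : LL Z (0 : Om K) = 0 := by
  ext Y
  simp [LL_apply]

lemma LL_smul (Z : Derivation ℤ K K) (a : K) (v : Om K) : LL Z (a • v) = Z a • v + a • LL Z v := by
  ext Y
  simp only [LL_apply, LinearMap.add_apply, LinearMap.smul_apply, smul_eq_mul,
    Derivation.leibniz]
  ring

lemma LL_sum (Z : Derivation ℤ K K) {ι : Type*} (s : Finset ι) (v : ι → Om K) :
    LL Z (∑ i ∈ s, v i) = ∑ i ∈ s, LL Z (v i) := by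
  classical
  induction s using Finset.induction_on with
  | empty => simp [LL_zero]
  | insert a s ha ih => rw [Finset.sum_insert ha, Finset.sum_insert ha, LL_add, ih]

lemma LL_comm (v : Om K) : LL J.D (LL J.D' v) = LL J.D' (LL J.D v) := by
  ext Y
  simp only [LL_apply, map_sub]
  have h1 : ⁅J.D', ⁅J.D, Y⁆⁆ = ⁅J.D, ⁅J.D', Y⁆⁆ := by
    rw [leibniz_lie, J.DD'_bracket, zero_lie, zero_add]
  rw [h1, J.DD']
  ring

/-- The annihilator. -/
def T : Submodule K (Om K) where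
  carrier := {v | (∀ Y ∈ J.Q, v Y = 0) ∧ ∀ Y ∈ J.DD, v Y = 0}
  add_mem' := by
    rintro v w ⟨h1, h2⟩ ⟨h3, h4⟩
    exact ⟨fun Y hY => by rw [LinearMap.add_apply, h1 Y hY, h3 Y hY, add_zero],
      fun Y hY => by rw [LinearMap.add_apply, h2 Y hY, h4 Y hY, add_zero]⟩
  zero_mem' := ⟨fun _ _ => rfl, fun _ _ => rfl⟩
  smul_mem' := by
    rintro a v ⟨h1, h2⟩
    exact ⟨fun Y hY => by rw [LinearMap.smul_apply, h1 Y hY, smul_zero],
      fun Y hY => by rw [LinearMap.smul_apply, h2 Y hY, smul_zero]⟩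

lemma T_stable_D {v : Om K} (hv : v ∈ J.T) : LL J.D v ∈ J.T := by
  refine ⟨fun Y hY => ?_, fun Y hY => ?_⟩
  · have h1 := hv.1 _ (J.adD_Q hY)
    rw [map_add, map_sum] at h1
    have h2 : ∑ β, v (Y (J.z (.d ε 0 β)) • J.X β) = 0 := by
      refine Finset.sum_eq_zero fun β _ => ?_
      rw [map_smul, hv.2 _ (J.X_mem β), smul_zero]
    rw [h2, add_zero] at h1
    rw [LL_apply, hv.1 Y hY, map_zero, h1, sub_zero]
  · rw [LL_apply, hv.2 Y hY, map_zero, hv.2 _ (J.adD_DD hY), sub_zero]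

/-- The commutator `[D', ∂/∂p_{0β}]` lies in `Q`. -/
lemma D'_pd_mem_Q (β : Fin N) : ⁅J.D', J.pd (.d ε 0 β)⁆ ∈ J.Q :=
  J.adD'_Q (J.pd_mem_Q 0 β)

lemma T_D'_adX (j : ℕ) (β : Fin N) : ∀ v ∈ J.T, v ⁅J.D', J.adX j β⁆ = 0 := by
  induction j with
  | zero =>
    intro v hv
    rw [adX_zero, X]
    have h1 : ⁅J.D', ⁅J.pd (.d ε 0 β), J.D⁆⁆ = ⁅⁅J.D', J.pd (.d ε 0 β)⁆, J.D⁆ := by
      rw [leibniz_lie, J.DD'_bracket, lie_zero, add_zero]
    have hQ := J.D'_pd_mem_Q β
    have h2 := (J.T_stable_D hv).1 _ hQ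
    rw [LL_apply, hv.1 _ hQ, map_zero, zero_sub, neg_eq_zero] at h2
    rw [h1, ← lie_skew, map_neg, h2, neg_zero]
  | succ j ih =>
    intro v hv
    have h1 : ⁅J.D', J.adX (j + 1) β⁆ = ⁅J.D, ⁅J.D', J.adX j β⁆⁆ := by
      rw [adX_succ, leibniz_lie, J.DD'_bracket, zero_lie, zero_add]
    have h2 := ih _ (J.T_stable_D hv)
    rw [LL_apply, ih v hv, map_zero, zero_sub, neg_eq_zero] at h2
    rw [h1, h2]

lemma T_stable_D' {v : Om K} (hv : v ∈ J.T) : LL J.D' v ∈ J.T := by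
  refine ⟨fun Y hY => ?_, fun Y hY => ?_⟩
  · rw [LL_apply, hv.1 Y hY, map_zero, hv.1 _ (J.adD'_Q hY), sub_zero]
  · rw [LL_apply, hv.2 Y hY, map_zero, zero_sub, neg_eq_zero]
    induction hY using Submodule.span_induction with
    | mem x hx =>
      obtain ⟨p, rfl⟩ := hx
      exact J.T_D'_adX p.1 p.2 v hv
    | zero => simp
    | add x y _ _ h1 h2 => rw [lie_add, map_add, h1, h2, add_zero]
    | smul a x hx h => rw [lie_smul', map_add, map_smul, map_smul, h, hv.2 x hx]; simp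

/-- Key lemma: a space of functionals killing `Q` and stable under `D` modulo `T` lies in `T`. -/
lemma le_T (M : Submodule K (Om K)) (h1 : ∀ v ∈ M, ∀ Y ∈ J.Q, v Y = 0)
    (h2 : ∀ v ∈ M, ∃ w ∈ M, LL J.D v - w ∈ J.T) : M ≤ J.T := by
  have key : ∀ (j : ℕ) (β : Fin N), ∀ v ∈ M, v (J.adX j β) = 0 := by
    intro j β
    induction j with
    | zero =>
      intro v hv
      obtain ⟨w, hw, hvw⟩ := h2 v hv
      have h3 := hvw.1 _ (J.pd_mem_Q 0 β)
      rw [LinearMap.sub_apply, h1 w hw _ (J.pd_mem_Q 0 β), sub_zero, LL_apply,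
        h1 v hv _ (J.pd_mem_Q 0 β), map_zero, zero_sub, neg_eq_zero] at h3
      rw [adX_zero, X, ← lie_skew, map_neg, h3, neg_zero]
    | succ j ih =>
      intro v hv
      obtain ⟨w, hw, hvw⟩ := h2 v hv
      have h3 := hvw.2 _ (J.adX_mem j β)
      rw [LinearMap.sub_apply, ih w hw, sub_zero, LL_apply, ih v hv, map_zero, zero_sub,
        neg_eq_zero] at h3
      rw [adX_succ, h3]
  intro v hv
  refine ⟨h1 v hv, fun Y hY => ?_⟩
  induction hY using Submodule.span_induction with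
  | mem x hx =>
    obtain ⟨p, rfl⟩ := hx
    exact key p.1 p.2 v hv
  | zero => simp
  | add x y _ _ h1 h2 => rw [map_add, h1, h2, add_zero]
  | smul a x hx h => rw [map_smul, h, smul_zero]

/-! ### Vectors of functionals -/

/-- Matrix acting on a vector of functionals. -/
def ms (M : Matrix (Fin N) (Fin N) K) (ψ : Fin N → Om K) : Fin N → Om K :=
  fun i => ∑ j, M i j • ψ j

/-- Lie derivative of a vector of functionals. -/
def LLv (Z : Derivation ℤ K K) (ψ : Fin N → Om K) : Fin N → Om K := fun i => LL Z (ψ i)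

lemma ms_add_left (M M' : Matrix (Fin N) (Fin N) K) (ψ : Fin N → Om K) :
    ms (M + M') ψ = ms M ψ + ms M' ψ := by
  funext i
  simp only [ms, Matrix.add_apply, add_smul, Finset.sum_add_distrib, Pi.add_apply]

lemma ms_sub_left (M M' : Matrix (Fin N) (Fin N) K) (ψ : Fin N → Om K) :
    ms (M - M') ψ = ms M ψ - ms M' ψ := by
  have h := ms_add_left (M - M') M' ψ
  rw [sub_add_cancel] at h
  rw [h, add_sub_cancel_right]

lemma ms_add_right (M : Matrix (Fin N) (Fin N) K) (ψ φ : Fin N → Om K) :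
    ms M (ψ + φ) = ms M ψ + ms M φ := by
  funext i
  simp only [ms, smul_add, Finset.sum_add_distrib, Pi.add_apply]

lemma ms_sub_right (M : Matrix (Fin N) (Fin N) K) (ψ φ : Fin N → Om K) :
    ms M (ψ - φ) = ms M ψ - ms M φ := by
  have h := ms_add_right M (ψ - φ) φ
  rw [sub_add_cancel] at h
  rw [h, add_sub_cancel_right]

lemma ms_mul (M M' : Matrix (Fin N) (Fin N) K) (ψ : Fin N → Om K) :
    ms (M * M') ψ = ms M (ms M' ψ) := by
  funext i
  simp only [ms, Matrix.mul_apply, Finset.sum_smul, Finset.smul_sum, mul_smul]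
  rw [Finset.sum_comm]

lemma LLv_add (Z : Derivation ℤ K K) (ψ φ : Fin N → Om K) :
    LLv Z (ψ + φ) = LLv Z ψ + LLv Z φ := by
  funext i
  simp only [LLv, Pi.add_apply, LL_add]

lemma LLv_neg (Z : Derivation ℤ K K) (ψ : Fin N → Om K) :
    LLv Z (-ψ) = -LLv Z ψ := by
  funext i
  have := LL_add Z (ψ i) (-ψ i)
  rw [add_neg_cancel, LL_zero] at this
  simp only [LLv, Pi.neg_apply]
  exact eq_neg_of_add_eq_zero_right this.symm

lemma LLv_sub (Z : Derivation ℤ K K) (ψ φ : Fin N → Om K) :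
    LLv Z (ψ - φ) = LLv Z ψ - LLv Z φ := by
  rw [sub_eq_add_neg, LLv_add, LLv_neg, sub_eq_add_neg]

lemma LLv_ms (Z : Derivation ℤ K K) (M : Matrix (Fin N) (Fin N) K) (ψ : Fin N → Om K) :
    LLv Z (ms M ψ) = ms (M.map Z) ψ + ms M (LLv Z ψ) := by
  funext i
  simp only [LLv, ms, Pi.add_apply, LL_sum, LL_smul, Finset.sum_add_distrib, Matrix.map_apply]

lemma LLv_comm (ψ : Fin N → Om K) : LLv J.D (LLv J.D' ψ) = LLv J.D' (LLv J.D ψ) := by
  funext i
  exact J.LL_comm (ψ i)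

/-- Vectors of functionals with all entries in `T`. -/
def Tv : AddSubgroup (Fin N → Om K) where
  carrier := {ψ | ∀ i, ψ i ∈ J.T}
  add_mem' h1 h2 i := J.T.add_mem (h1 i) (h2 i)
  zero_mem' _ := J.T.zero_mem
  neg_mem' h i := J.T.neg_mem (h i)

lemma Tv_ms {ψ : Fin N → Om K} (h : ψ ∈ J.Tv) (M : Matrix (Fin N) (Fin N) K) :
    ms M ψ ∈ J.Tv :=
  fun _ => J.T.sum_mem fun j _ => J.T.smul_mem _ (h j)

lemma Tv_LLv {ψ : Fin N → Om K} (h : ψ ∈ J.Tv) : LLv J.D' ψ ∈ J.Tv :=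
  fun i => J.T_stable_D' (h i)

/-- Evaluation functional. -/
def ev (f : K) : Om K where
  toFun Y := Y f
  map_add' _ _ := rfl
  map_smul' _ _ := rfl

lemma LL_ev (Z : Derivation ℤ K K) (f : K) : LL Z (ev f) = ev (Z f) := by
  ext Y
  simp only [LL_apply, ev, LinearMap.coe_mk, AddHom.coe_mk, Derivation.commutator_apply]
  ring

/-- The right hand sides. -/
def F (i : Fin N) : K := J.D (J.z (.d (!ε) 0 i))

/-- `a = -∂F/∂u_x`. -/
def a : Matrix (Fin N) (Fin N) K := Matrix.of fun i j => -J.pd (.d ε 0 j) (J.F i)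

/-- `b = -∂F/∂u_y`. -/
def b : Matrix (Fin N) (Fin N) K := Matrix.of fun i j => -J.pd (.d (!ε) 0 j) (J.F i)

/-- `c = -∂F/∂u`. -/
def c : Matrix (Fin N) (Fin N) K := Matrix.of fun i j => -J.pd (.u j) (J.F i)

/-- The zeroth vector of functionals. -/
def psi0 : Fin N → Om K := fun i => ev (J.z (.u i))

/-- Linearized equation, on vertical fields. -/
lemma V_apply_F {Y : Derivation ℤ K K} (hY : Y ∈ J.V) (i : Fin N) :
    Y (J.F i) = ∑ j, Y (J.z (.u j)) * J.pd (.u j) (J.F i) +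
      ∑ j, Y (J.z (.d ε 0 j)) * J.pd (.d ε 0 j) (J.F i) +
      ∑ j, Y (J.z (.d (!ε) 0 j)) * J.pd (.d (!ε) 0 j) (J.F i) := by
  classical
  obtain ⟨s, hs⟩ := J.fin (J.F i)
  let t1 : Finset (Coord N) := Finset.univ.image fun β : Fin N => Coord.u β
  let t2 : Finset (Coord N) := Finset.univ.image fun β : Fin N => Coord.d ε 0 β
  let t3 : Finset (Coord N) := Finset.univ.image fun β : Fin N => Coord.d (!ε) 0 β
  have hd12 : Disjoint t1 t2 := by
    rw [Finset.disjoint_left]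
    intro c h1 h2
    obtain ⟨x, -, rfl⟩ := Finset.mem_image.mp h1
    obtain ⟨y, -, h⟩ := Finset.mem_image.mp h2
    simp at h
  have hd123 : Disjoint (t1 ∪ t2) t3 := by
    rw [Finset.disjoint_left]
    intro c h1 h2
    obtain ⟨x, -, rfl⟩ := Finset.mem_image.mp h2
    rcases Finset.mem_union.mp h1 with h | h
    · obtain ⟨y, -, h⟩ := Finset.mem_image.mp h
      simp at h
    · obtain ⟨y, -, h⟩ := Finset.mem_image.mp h
      cases ε <;> simp at h
  rw [hY.1 _ (s ∪ (t1 ∪ t2 ∪ t3)) (fun c hc => hs c (fun h => hc (Finset.mem_union_left _ h)))]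
  have h1 : ∑ c ∈ s ∪ (t1 ∪ t2 ∪ t3), Y (J.z c) * J.pd c (J.F i) =
      ∑ c ∈ t1 ∪ t2 ∪ t3, Y (J.z c) * J.pd c (J.F i) := by
    symm
    refine Finset.sum_subset Finset.subset_union_right fun c _ hc => ?_
    cases c with
    | var e => rw [hY.2, zero_mul]
    | u j =>
      exact absurd (Finset.mem_union_left _ (Finset.mem_union_left _
        (Finset.mem_image_of_mem _ (Finset.mem_univ j)))) hc
    | d e m j =>
      by_cases he : e = ε
      · subst he
        cases m with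
        | zero =>
          exact absurd (Finset.mem_union_left _ (Finset.mem_union_right _
            (Finset.mem_image_of_mem _ (Finset.mem_univ j)))) hc
        | succ m => rw [F, J.G_p, mul_zero]
      · have : e = !ε := by cases e <;> cases ε <;> simp_all
        subst this
        cases m with
        | zero =>
          exact absurd (Finset.mem_union_right _
            (Finset.mem_image_of_mem _ (Finset.mem_univ j))) hc
        | succ m => rw [F, J.G_q 0 i (m + 1) j (Nat.succ_pos m), mul_zero]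
  rw [h1, Finset.sum_union hd123, Finset.sum_union hd12, Finset.sum_image, Finset.sum_image,
    Finset.sum_image]
  · intro a _ b _ hab
    simpa using hab
  · intro a _ b _ hab
    simpa using hab
  · intro a _ b _ hab
    simpa using hab

lemma DD_le_V' {Y : Derivation ℤ K K} (hY : Y ∈ J.DD) : Y ∈ J.V := J.DD_le_V hY

/-- A functional vanishing on `V` lies in `T`. -/
lemma mem_T_of_V {v : Om K} (h : ∀ Y ∈ J.V, v Y = 0) : v ∈ J.T :=
  ⟨fun Y hY => h Y hY.1, fun Y hY => h Y (J.DD_le_V hY)⟩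

lemma base_rel : LLv J.D (LLv J.D' J.psi0) + ms J.a (LLv J.D J.psi0) + ms J.b (LLv J.D' J.psi0) +
    ms J.c J.psi0 ∈ J.Tv := by
  intro i
  refine J.mem_T_of_V fun Y hY => ?_
  have h1 : ∀ (M : Matrix (Fin N) (Fin N) K) (ψ : Fin N → Om K),
      (ms M ψ i) Y = ∑ j, M i j * (ψ j) Y := by
    intro M ψ
    simp [ms]
  simp only [Pi.add_apply, LinearMap.add_apply, h1]
  have e1 : (LLv J.D (LLv J.D' J.psi0) i) Y = Y (J.F i) := by
    simp only [LLv, psi0, LL_ev, J.D'_u]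
    rfl
  have e2 : ∀ j, (LLv J.D J.psi0 j) Y = Y (J.z (.d ε 0 j)) := by
    intro j
    simp only [LLv, psi0, LL_ev, J.D_u]
    rfl
  have e3 : ∀ j, (LLv J.D' J.psi0 j) Y = Y (J.z (.d (!ε) 0 j)) := by
    intro j
    simp only [LLv, psi0, LL_ev, J.D'_u]
    rfl
  have e4 : ∀ j, (J.psi0 j) Y = Y (J.z (.u j)) := fun j => rfl
  simp only [e1, e2, e3, e4, J.V_apply_F hY, a, b, c, Matrix.of_apply]
  have : ∀ (p q : Fin N → K), ∑ j, -p j * q j = -∑ j, q j * p j := by
    intro p q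
    rw [← Finset.sum_neg_distrib]
    refine Finset.sum_congr rfl fun j _ => ?_
    ring
  rw [this, this, this]
  ring

/-- The Laplace chain in the direction `ε`, over the differential field. -/
structure Chain where
  A : ℕ → Matrix (Fin N) (Fin N) K
  H : ℕ → Matrix (Fin N) (Fin N) K
  Z : ℕ → Matrix (Fin N) (Fin N) K
  A0 : A 0 = J.a
  Z0 : Z 0 = 1
  Zs : ∀ k, Z (k + 1) = H (k + 1) * Z k
  H1 : H 1 = J.a.map J.D + J.b * J.a - J.c
  Hs : ∀ k, H (k + 2) = (A (k + 1)).map J.D + J.b * A (k + 1) - J.b.map J.D' - A (k + 1) * J.b +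
    H (k + 1)
  AZ : ∀ k, Z (k + 1) * J.a = (Z (k + 1)).map J.D' + A (k + 1) * Z (k + 1)
  ker : ∀ k, ∀ l : Fin N → K, Matrix.vecMul l (Z (k + 1)) = 0 →
    Matrix.vecMul ((fun i => J.D (l i)) - Matrix.vecMul l J.b) (Z (k + 1)) = 0

variable {J}

namespace Chain

variable (C : J.Chain)

/-- The vectors of functionals `ψ_k`. -/
def psi : ℕ → Fin N → Om K
  | 0 => J.psi0
  | k + 1 => LLv J.D' (psi k) + ms (C.A k) (psi k)

lemma psi_succ (k : ℕ) : C.psi (k + 1) = LLv J.D' (C.psi k) + ms (C.A k) (C.psi k) := rfl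

lemma psi_Q (k : ℕ) : ∀ i, ∀ Y ∈ J.Q, C.psi k i Y = 0 := by
  induction k with
  | zero => intro i Y hY; exact hY.2.1 i
  | succ k ih =>
    intro i Y hY
    rw [psi_succ, Pi.add_apply, LinearMap.add_apply, LLv, LL_apply, ih i Y hY, map_zero,
      ih i _ (J.adD'_Q hY), sub_zero, zero_add, ms]
    simp [ih _ Y hY]

/-- Relation `AZ` also for `k = 0`. -/
lemma AZ' (k : ℕ) : C.Z k * J.a = (C.Z k).map J.D' + C.A k * C.Z k := by
  cases k with
  | zero =>
    rw [C.Z0, C.A0, Matrix.one_mul, Matrix.mul_one]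
    have : (1 : Matrix (Fin N) (Fin N) K).map J.D' = 0 := by
      ext i j
      rw [Matrix.map_apply, Matrix.one_apply]
      split_ifs <;> simp
    rw [this, zero_add]
  | succ k => exact C.AZ k

/-- `I k`: `(D + b) ψ_{k+1} ≡ H_{k+1} ψ_k` modulo `T`. -/
def I (k : ℕ) : Prop :=
  LLv J.D (C.psi (k + 1)) + ms J.b (C.psi (k + 1)) - ms (C.H (k + 1)) (C.psi k) ∈ J.Tv

/-- `CC k`: if `ℓ Z_k = 0` then `ℓ ψ_k ∈ T`. -/
def CC (k : ℕ) : Prop :=
  ∀ l : Fin N → K, Matrix.vecMul l (C.Z k) = 0 → ∑ i, l i • C.psi k i ∈ J.T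

lemma I_zero : C.I 0 := by
  rw [I]
  have h0 : C.psi 0 = J.psi0 := rfl
  rw [psi_succ, C.A0, h0, LLv_add, LLv_ms, ms_add_right, C.H1, ms_sub_left, ms_add_left,
    ms_mul]
  have := J.base_rel
  have e : LLv J.D (LLv J.D' J.psi0) + (ms (J.a.map ⇑J.D) J.psi0 + ms J.a (LLv J.D J.psi0)) +
        (ms J.b (LLv J.D' J.psi0) + ms J.b (ms J.a J.psi0)) -
      (ms (J.a.map ⇑J.D) J.psi0 + ms J.b (ms J.a J.psi0) - ms J.c J.psi0) =
      LLv J.D (LLv J.D' J.psi0) + ms J.a (LLv J.D J.psi0) + ms J.b (LLv J.D' J.psi0) +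
    ms J.c J.psi0 := by abel
  rw [e]
  exact this

lemma CC_zero : C.CC 0 := by
  intro l hl
  rw [C.Z0, Matrix.vecMul_one] at hl
  subst hl
  simp

lemma CC_rows {k : ℕ} (h : C.CC k) {E : Matrix (Fin N) (Fin N) K} (hE : E * C.Z k = 0) :
    ms E (C.psi k) ∈ J.Tv := by
  intro i
  refine h (E i) ?_
  have := congrFun hE i
  rw [Matrix.mul_apply_eq_vecMul] at this
  exact this

lemma map_mul' (Z : Derivation ℤ K K) (M M' : Matrix (Fin N) (Fin N) K) :
    (M * M').map Z = M.map Z * M' + M * M'.map Z := by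
  ext i j
  simp only [Matrix.map_apply, Matrix.mul_apply, Matrix.add_apply, map_sum, Derivation.leibniz,
    smul_eq_mul, Finset.sum_add_distrib]
  rw [add_comm]
  congr 1
  refine Finset.sum_congr rfl fun x _ => ?_
  ring

lemma I_step {k : ℕ} (hI : C.I k) (hC : C.CC k) : C.I (k + 1) := by
  rw [I] at hI ⊢
  set τ := LLv J.D (C.psi (k + 1)) + ms J.b (C.psi (k + 1)) - ms (C.H (k + 1)) (C.psi k) with hτ
  set E : Matrix (Fin N) (Fin N) K := C.H (k + 1) * C.A k - (C.H (k + 1)).map J.D' -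
    C.A (k + 1) * C.H (k + 1) with hEdef
  have hE : E * C.Z k = 0 := by
    have h1 := C.AZ' k
    have h2 := C.AZ' (k + 1)
    rw [C.Zs, map_mul'] at h2
    have h3 : C.A k * C.Z k = C.Z k * J.a - (C.Z k).map J.D' := by rw [h1]; abel
    rw [hEdef, sub_mul, sub_mul, Matrix.mul_assoc, h3, mul_sub, ← Matrix.mul_assoc, h2,
      Matrix.mul_assoc (C.A (k + 1))]
    abel
  have h1 : LLv J.D (C.psi (k + 1)) =
      τ - ms J.b (C.psi (k + 1)) + ms (C.H (k + 1)) (C.psi k) := by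
    rw [hτ]; abel
  have h2 : LLv J.D' (C.psi k) = C.psi (k + 1) - ms (C.A k) (C.psi k) := by
    rw [psi_succ]; abel
  have h3 : LLv J.D (C.psi (k + 2)) + ms J.b (C.psi (k + 2)) - ms (C.H (k + 2)) (C.psi (k + 1)) =
      LLv J.D' τ + ms (C.A (k + 1)) τ - ms E (C.psi k) := by
    rw [C.psi_succ (k + 1), LLv_add, LLv_comm, LLv_ms, h1, LLv_add, LLv_sub, LLv_ms, LLv_ms,
      ms_add_right, ms_add_right, ms_sub_right, h2, ms_sub_right, C.Hs, hEdef]
    simp only [ms_add_left, ms_sub_left, ms_mul]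
    abel
  have h4 : C.psi (k + 1 + 1) = C.psi (k + 2) := rfl
  rw [h4]
  have h5 : C.H (k + 1 + 1) = C.H (k + 2) := rfl
  rw [h5, h3]
  exact J.Tv.sub_mem (J.Tv.add_mem (J.Tv_LLv hI) (J.Tv_ms hI _)) (C.CC_rows hC hE)

lemma CC_step {k : ℕ} (hI : C.I k) (hC : C.CC k) : C.CC (k + 1) := by
  let M : Submodule K (Om K) :=
    { carrier := {v | ∃ l : Fin N → K, Matrix.vecMul l (C.Z (k + 1)) = 0 ∧
        v = ∑ i, l i • C.psi (k + 1) i}
      add_mem' := by
        rintro _ _ ⟨l, hl, rfl⟩ ⟨l', hl', rfl⟩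
        refine ⟨l + l', by rw [Matrix.add_vecMul, hl, hl', add_zero], ?_⟩
        rw [← Finset.sum_add_distrib]
        refine Finset.sum_congr rfl fun i _ => ?_
        rw [Pi.add_apply, add_smul]
      zero_mem' := ⟨0, by simp, by simp⟩
      smul_mem' := by
        rintro a _ ⟨l, hl, rfl⟩
        refine ⟨a • l, by rw [Matrix.smul_vecMul, hl, smul_zero], ?_⟩
        rw [Finset.smul_sum]
        refine Finset.sum_congr rfl fun i _ => ?_
        rw [Pi.smul_apply, smul_eq_mul, mul_smul] }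
  have hM : M ≤ J.T := by
    refine J.le_T M ?_ ?_
    · rintro _ ⟨l, -, rfl⟩ Y hY
      simp [C.psi_Q (k + 1) _ Y hY]
    · rintro _ ⟨l, hl, rfl⟩
      refine ⟨_, ⟨_, C.ker k l hl, rfl⟩, ?_⟩
      have h1 : LL J.D (∑ i, l i • C.psi (k + 1) i) -
          ∑ i, ((fun i => J.D (l i)) - Matrix.vecMul l J.b) i • C.psi (k + 1) i =
          ∑ i, l i • ((LLv J.D (C.psi (k + 1)) + ms J.b (C.psi (k + 1)) -
            ms (C.H (k + 1)) (C.psi k)) i) +
          ∑ i, (Matrix.vecMul l (C.H (k + 1))) i • C.psi k i := by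
        have e1 : ∀ (B : Matrix (Fin N) (Fin N) K) (ψ : Fin N → Om K),
            ∑ i, (Matrix.vecMul l B) i • ψ i = ∑ i, l i • ms B ψ i := by
          intro B ψ
          simp only [Matrix.vecMul, dotProduct, ms, Finset.sum_smul, Finset.smul_sum, mul_smul]
          rw [Finset.sum_comm]
        rw [LL_sum]
        simp only [LL_smul, Pi.sub_apply, om_sub_smul, Pi.add_apply, smul_sub, smul_add,
          Finset.sum_add_distrib, Finset.sum_sub_distrib, e1, LLv]
        abel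
      rw [h1]
      refine J.T.add_mem (J.T.sum_mem fun i _ => J.T.smul_mem _ (hI i)) (hC _ ?_)
      rw [Matrix.vecMul_vecMul, ← C.Zs, hl]
  intro l hl
  exact hM ⟨l, hl, rfl⟩

lemma I_and_CC (k : ℕ) : C.I k ∧ C.CC k := by
  induction k with
  | zero => exact ⟨C.I_zero, C.CC_zero⟩
  | succ k ih => exact ⟨C.I_step ih.1 ih.2, C.CC_step ih.1 ih.2⟩

lemma Z_zero_of_le {r : ℕ} (hr : C.Z r = 0) : ∀ k, r ≤ k → C.Z k = 0 := by
  intro k hk
  induction k, hk using Nat.le_induction with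
  | base => exact hr
  | succ k _ ih => rw [C.Zs, ih, mul_zero]

/-- If `Z_r = 0` then `ψ_k ∈ T` for `k ≥ r`. -/
lemma psi_mem_T {r : ℕ} (hr : C.Z r = 0) {k : ℕ} (hk : r ≤ k) (i : Fin N) :
    C.psi k i ∈ J.T := by
  have h := (C.I_and_CC k).2 (Pi.single i 1) (by rw [C.Z_zero_of_le hr k hk, Matrix.vecMul_zero])
  have h2 : ∑ j, (Pi.single i (1 : K) : Fin N → K) j • C.psi k j = C.psi k i := by
    rw [Finset.sum_eq_single i]
    · rw [Pi.single_eq_same, one_smul]
    · intro j _ hj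
      rw [Pi.single_eq_of_ne hj, zero_smul]
    · simp
  rwa [h2] at h

lemma psi_lead (m : ℕ) : ∀ i, ∀ Y ∈ J.V, (∀ i, Y (J.z (.u i)) = 0) →
    (∀ n i, n < m → Y (J.z (.d (!ε) n i)) = 0) →
    C.psi (m + 1) i Y = Y (J.z (.d (!ε) m i)) := by
  induction m with
  | zero =>
    intro i Y _ hu _
    have h0 : C.psi 0 = J.psi0 := rfl
    have h1 : ∀ j (Z : Derivation ℤ K K), C.psi 0 j Z = Z (J.z (.u j)) := fun _ _ => rfl
    rw [psi_succ, Pi.add_apply, LinearMap.add_apply, LLv, LL_apply, h1, h1, hu, map_zero,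
      Derivation.commutator_apply, hu, map_zero, J.D'_u, ms]
    simp [h1, hu]
  | succ m ih =>
    intro i Y hY hu hq
    have h1 : ∀ j, C.psi (m + 1) j Y = 0 := by
      intro j
      rw [ih j Y hY hu (fun n i hn => hq n i (Nat.lt_succ_of_lt hn)), hq m j (Nat.lt_succ_self m)]
    have h2 : C.psi (m + 1) i ⁅J.D', Y⁆ = -Y (J.z (.d (!ε) (m + 1) i)) := by
      rw [ih i _ (J.adD'_V hY)]
      · rw [Derivation.commutator_apply, hq m i (Nat.lt_succ_self m), map_zero, J.D'_d, zero_sub]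
      · intro j
        rw [Derivation.commutator_apply, hu, map_zero, J.D'_u, hq 0 j (Nat.succ_pos m), sub_zero]
      · intro n j hn
        rw [Derivation.commutator_apply, hq n j (Nat.lt_succ_of_lt hn), map_zero, J.D'_d,
          hq (n + 1) j (Nat.succ_lt_succ hn), sub_zero]
    rw [psi_succ, Pi.add_apply, LinearMap.add_apply, LLv, LL_apply, h1, h2, map_zero, ms]
    simp [h1]

/-- Elements of `DD` are determined by their action on `u` and `q_n`, `n < r - 1`. -/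
lemma DD_inj_aux {r : ℕ} (hr : C.Z (r + 1) = 0) {Y : Derivation ℤ K K} (hY : Y ∈ J.DD)
    (hu : ∀ i, Y (J.z (.u i)) = 0) (hq : ∀ n i, n < r → Y (J.z (.d (!ε) n i)) = 0) :
    ∀ n i, Y (J.z (.d (!ε) n i)) = 0 := by
  intro n
  induction n using Nat.strong_induction_on with
  | _ n ih =>
    intro i
    by_cases hn : n < r
    · exact hq n i hn
    · have h1 := (C.psi_mem_T hr (k := n + 1) (by omega) i).2 Y hY
      rw [C.psi_lead n i Y (J.DD_le_V hY) hu (fun m j hm => ih m hm j)] at h1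
      exact h1

end Chain

variable (J)

lemma adX_p (j : ℕ) (β : Fin N) : ∀ n i, J.adX j β (J.z (.d ε n i)) = 0 := by
  induction j with
  | zero =>
    intro n i
    rw [adX_zero, J.X_apply_z, J.D_d, J.pd_z, if_neg (by simp)]
  | succ j ih =>
    intro n i
    rw [adX_succ, Derivation.commutator_apply, ih, map_zero, J.D_d, ih, sub_zero]

lemma DD_p {Y : Derivation ℤ K K} (hY : Y ∈ J.DD) (n : ℕ) (i : Fin N) :
    Y (J.z (.d ε n i)) = 0 := by
  induction hY using Submodule.span_induction with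
  | mem x hx =>
    obtain ⟨p, rfl⟩ := hx
    exact J.adX_p p.1 p.2 n i
  | zero => rfl
  | add x y _ _ h1 h2 => rw [Derivation.add_apply, h1, h2, add_zero]
  | smul a x _ h => rw [Derivation.smul_apply, h, smul_zero]

variable {J}

lemma Chain.DD_inj (C : J.Chain) {r : ℕ} (hr : C.Z (r + 1) = 0) {Y : Derivation ℤ K K}
    (hY : Y ∈ J.DD) (hu : ∀ i, Y (J.z (.u i)) = 0)
    (hq : ∀ n i, n < r → Y (J.z (.d (!ε) n i)) = 0) : Y = 0 := by
  refine Geo.ext J (J.DD_le_V hY).1 fun c => ?_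
  cases c with
  | var e => exact (J.DD_le_V hY).2 e
  | u i => exact hu i
  | d e n i =>
    by_cases he : e = ε
    · subst he; exact J.DD_p hY n i
    · have : e = !ε := by cases e <;> cases ε <;> simp_all
      subst this
      exact C.DD_inj_aux hr hY hu hq n i

variable (J)

/-- The coordinates `u i` and `q_n`, `n < r`. -/
def Is (_ : JetDiff K N ε) (r : ℕ) : Finset (Coord N) :=
  Finset.univ.image (fun i : Fin N => Coord.u i) ∪
    (Finset.range r ×ˢ (Finset.univ : Finset (Fin N))).image fun p => Coord.d (!ε) p.1 p.2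

lemma mem_Is {r : ℕ} {c : Coord N} :
    c ∈ J.Is r ↔ (∃ i, c = .u i) ∨ ∃ n i, n < r ∧ c = .d (!ε) n i := by
  simp only [Is, Finset.mem_union, Finset.mem_image, Finset.mem_univ, true_and, Finset.mem_product,
    Finset.mem_range, Prod.exists, and_true]
  constructor
  · rintro (⟨i, rfl⟩ | ⟨n, i, hn, rfl⟩)
    · exact Or.inl ⟨i, rfl⟩
    · exact Or.inr ⟨n, i, hn, rfl⟩
  · rintro (⟨i, rfl⟩ | ⟨n, i, hn, rfl⟩)
    · exact Or.inl ⟨i, rfl⟩
    · exact Or.inr ⟨n, i, hn, rfl⟩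

lemma Is_mono {r r' : ℕ} (h : r ≤ r') : J.Is r ⊆ J.Is r' := by
  intro c hc
  rw [mem_Is] at hc ⊢
  rcases hc with hc | ⟨n, i, hn, rfl⟩
  · exact Or.inl hc
  · exact Or.inr ⟨n, i, lt_of_lt_of_le hn h, rfl⟩

variable {J}

lemma Chain.DD_finite (C : J.Chain) {r : ℕ} (hr : C.Z (r + 1) = 0) : J.DD.FG := by
  let f : J.DD →ₗ[K] (J.Is r → K) :=
    { toFun := fun Y c => (Y : Derivation ℤ K K) (J.z c)
      map_add' := fun _ _ => rfl
      map_smul' := fun _ _ => rfl }
  have hf : Function.Injective f := by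
    rw [← LinearMap.ker_eq_bot, LinearMap.ker_eq_bot']
    intro Y hY
    have h : ∀ c ∈ J.Is r, (Y : Derivation ℤ K K) (J.z c) = 0 := fun c hc => congrFun hY ⟨c, hc⟩
    apply Subtype.ext
    refine C.DD_inj hr Y.2 (fun i => h _ ?_) (fun n i hn => h _ ?_)
    · rw [mem_Is]; exact Or.inl ⟨i, rfl⟩
    · rw [mem_Is]; exact Or.inr ⟨n, i, hn, rfl⟩
  have : Module.Finite K J.DD := Module.Finite.of_injective f hf
  exact Module.Finite.iff_fg.mp this

variable (J)

lemma pd_p_D (m : ℕ) (β : Fin N) : ⁅J.pd (.d ε (m + 1) β), J.D⁆ = J.pd (.d ε m β) := by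
  have h : ⁅J.pd (.d ε (m + 1) β), J.D⁆ + (-1 : K) • J.pd (.d ε m β) = 0 := by
    refine Geo.ext J (Geo.add J (Geo.bracket J (J.geo_pd _) J.geo_D)
      (Geo.smul J _ (J.geo_pd _))) fun c => ?_
    rw [Derivation.add_apply, Derivation.smul_apply, Derivation.commutator_apply, J.pd_z, J.pd_z,
      map_ite_one, sub_zero]
    cases c with
    | var e => rw [J.D_var, map_ite_one, if_neg (by simp)]; simp
    | u i => rw [J.D_u, J.pd_z]; simp
    | d e n i =>
      by_cases he : e = ε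
      · subst he
        rw [J.D_d, J.pd_z]
        by_cases h : m = n ∧ β = i
        · obtain ⟨rfl, rfl⟩ := h; simp
        · rw [if_neg, if_neg]
          · simp
          · intro h2; apply h; simpa using h2
          · intro h2; apply h; simpa using h2
      · have : e = !ε := by cases e <;> cases ε <;> simp_all
        subst this
        rw [J.G_p, if_neg (by simp)]; simp
  have h2 := eq_neg_of_add_eq_zero_left h
  rw [h2, neg_smul, one_smul, neg_neg]

lemma pd_p_adX (j : ℕ) (γ : Fin N) : ∀ m β, j < m → ⁅J.pd (.d ε m β), J.adX j γ⁆ = 0 := by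
  induction j with
  | zero =>
    intro m β hm
    obtain ⟨m, rfl⟩ := Nat.exists_eq_succ_of_ne_zero hm.ne'
    rw [adX_zero, X, leibniz_lie, J.pd_bracket, zero_lie, zero_add, Nat.succ_eq_add_one, J.pd_p_D,
      J.pd_bracket]
  | succ j ih =>
    intro m β hm
    obtain ⟨m, rfl⟩ := Nat.exists_eq_succ_of_ne_zero (show m ≠ 0 by omega)
    rw [adX_succ, leibniz_lie, Nat.succ_eq_add_one, J.pd_p_D, ih m β (by omega),
      ih (m + 1) β (by omega), lie_zero, zero_add]

lemma pd_p_eventually {Y : Derivation ℤ K K} (hY : Y ∈ J.DD) :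
    ∃ m₀, ∀ m ≥ m₀, ∀ β, ⁅J.pd (.d ε m β), Y⁆ ∈ J.DD := by
  induction hY using Submodule.span_induction with
  | mem x hx =>
    obtain ⟨p, rfl⟩ := hx
    refine ⟨p.1 + 1, fun m hm β => ?_⟩
    rw [J.pd_p_adX p.1 p.2 m β hm]
    exact J.DD.zero_mem
  | zero => exact ⟨0, fun m _ β => by rw [lie_zero]; exact J.DD.zero_mem⟩
  | add x y _ _ h1 h2 =>
    obtain ⟨m1, h1⟩ := h1
    obtain ⟨m2, h2⟩ := h2
    refine ⟨max m1 m2, fun m hm β => ?_⟩
    rw [lie_add]
    exact J.DD.add_mem (h1 m (le_trans (le_max_left _ _) hm) β)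
      (h2 m (le_trans (le_max_right _ _) hm) β)
  | smul a x hx h =>
    obtain ⟨m1, h1⟩ := h
    refine ⟨m1, fun m hm β => ?_⟩
    rw [lie_smul']
    exact J.DD.add_mem (J.DD.smul_mem _ hx) (J.DD.smul_mem _ (h1 m hm β))

lemma pd_p_uniform (hfg : J.DD.FG) :
    ∃ m₀, ∀ m ≥ m₀, ∀ β, ∀ Y ∈ J.DD, ⁅J.pd (.d ε m β), Y⁆ ∈ J.DD := by
  obtain ⟨t, ht⟩ := hfg
  have hmem : ∀ Y ∈ t, Y ∈ J.DD := fun Y hY => by
    rw [← ht]; exact Submodule.subset_span hY
  choose! m₀ hm₀ using fun (Y : Derivation ℤ K K) (hY : Y ∈ t) => J.pd_p_eventually (hmem Y hY)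
  refine ⟨t.sup m₀, fun m hm β Y hY => ?_⟩
  rw [← ht] at hY
  induction hY using Submodule.span_induction with
  | mem x hx => exact hm₀ x hx m (le_trans (Finset.le_sup hx) hm) β
  | zero => rw [lie_zero]; exact J.DD.zero_mem
  | add x y _ _ h1 h2 => rw [lie_add]; exact J.DD.add_mem h1 h2
  | smul a x hx h =>
    rw [lie_smul']
    rw [ht] at hx
    exact J.DD.add_mem (J.DD.smul_mem _ hx) (J.DD.smul_mem _ h)

lemma pd_p_stable (hfg : J.DD.FG) (m : ℕ) (β : Fin N) {Y : Derivation ℤ K K} (hY : Y ∈ J.DD) :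
    ⁅J.pd (.d ε m β), Y⁆ ∈ J.DD := by
  obtain ⟨m₀, hm₀⟩ := J.pd_p_uniform hfg
  have key : ∀ k m, m + k ≥ m₀ → ∀ β, ∀ Y ∈ J.DD, ⁅J.pd (.d ε m β), Y⁆ ∈ J.DD := by
    intro k
    induction k with
    | zero => intro m hm β Y hY; exact hm₀ m hm β Y hY
    | succ k ih =>
      intro m hm β Y hY
      have h1 := ih (m + 1) (by omega) β
      rw [← J.pd_p_D, lie_lie]
      exact J.DD.sub_mem (h1 _ (J.adD_DD hY)) (J.adD_DD (h1 _ hY))
  exact key m₀ m (by omega) β Y hY

lemma DD_involutive (hfg : J.DD.FG) {Y Z : Derivation ℤ K K} (hY : Y ∈ J.DD) (hZ : Z ∈ J.DD) :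
    ⁅Y, Z⁆ ∈ J.DD := by
  have key : ∀ (j : ℕ) (β : Fin N), ∀ Z ∈ J.DD, ⁅J.adX j β, Z⁆ ∈ J.DD := by
    intro j β
    induction j with
    | zero =>
      intro Z hZ
      rw [adX_zero, X, lie_lie]
      exact J.DD.sub_mem (J.pd_p_stable hfg 0 β (J.adD_DD hZ))
        (J.adD_DD (J.pd_p_stable hfg 0 β hZ))
    | succ j ih =>
      intro Z hZ
      rw [adX_succ, lie_lie]
      exact J.DD.sub_mem (J.adD_DD (ih Z hZ)) (ih _ (J.adD_DD hZ))
  induction hY using Submodule.span_induction with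
  | mem x hx =>
    obtain ⟨p, rfl⟩ := hx
    exact key p.1 p.2 Z hZ
  | zero => rw [zero_lie]; exact J.DD.zero_mem
  | add x y _ _ h1 h2 => rw [add_lie]; exact J.DD.add_mem h1 h2
  | smul a x hx h =>
    rw [smul_lie']
    exact J.DD.sub_mem (J.DD.smul_mem _ h) (J.DD.smul_mem _ hx)

/-- Pivot coordinates and the dual basis. -/
lemma exists_pivots (M : Submodule K (Derivation ℤ K K)) (S : Finset (Coord N))
    (hS : ∀ Y ∈ M, (∀ c ∈ S, Y (J.z c) = 0) → Y = 0) :
    ∃ E ⊆ S, ∃ W : Coord N → Derivation ℤ K K, (∀ e ∈ E, W e ∈ M) ∧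
      (∀ e ∈ E, ∀ e' ∈ E, W e (J.z e') = if e = e' then 1 else 0) ∧
      ∀ Y ∈ M, (∀ e ∈ E, Y (J.z e) = 0) → Y = 0 := by
  classical
  let P : Finset (Coord N) → Prop := fun E => ∃ W : Coord N → Derivation ℤ K K,
    (∀ e ∈ E, W e ∈ M) ∧ ∀ e ∈ E, ∀ e' ∈ E, W e (J.z e') = if e = e' then 1 else 0
  have hne : (S.powerset.filter P).Nonempty :=
    ⟨∅, by
      rw [Finset.mem_filter, Finset.mem_powerset]
      exact ⟨Finset.empty_subset _, fun _ => 0, by simp, by simp⟩⟩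
  obtain ⟨E, hE, hmax⟩ := Finset.exists_max_image _ Finset.card hne
  rw [Finset.mem_filter, Finset.mem_powerset] at hE
  obtain ⟨hES, W, hWM, hW⟩ := hE
  refine ⟨E, hES, W, hWM, hW, fun Y hY hYE => ?_⟩
  by_contra hY0
  have : ∃ i ∈ S, Y (J.z i) ≠ 0 := by
    by_contra hcon
    push Not at hcon
    exact hY0 (hS Y hY hcon)
  obtain ⟨i, hiS, hi⟩ := this
  have hiE : i ∉ E := fun h => hi (hYE i h)
  let Yi : Derivation ℤ K K := (Y (J.z i))⁻¹ • Y
  have hYi : Yi (J.z i) = 1 := by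
    simp only [Yi]
    rw [Derivation.smul_apply, smul_eq_mul, inv_mul_cancel₀ hi]
  have hYiE : ∀ e ∈ E, Yi (J.z e) = 0 := by
    intro e he
    simp only [Yi]
    rw [Derivation.smul_apply, hYE e he, smul_zero]
  have hYiM : Yi ∈ M := M.smul_mem _ hY
  let W' : Coord N → Derivation ℤ K K := fun e => if e = i then Yi else W e - (W e (J.z i)) • Yi
  have hP : P (insert i E) := by
    refine ⟨W', ?_, ?_⟩
    · intro e he
      simp only [W']
      split_ifs with h
      · exact hYiM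
      · have heE : e ∈ E := (Finset.mem_insert.mp he).resolve_left h
        exact M.sub_mem (hWM e heE) (M.smul_mem _ hYiM)
    · intro e he e' he'
      simp only [W']
      by_cases h : e = i
      · rw [if_pos h]
        by_cases h' : e' = i
        · rw [h, h', hYi, if_pos rfl]
        · have he'E : e' ∈ E := (Finset.mem_insert.mp he').resolve_left h'
          rw [hYiE e' he'E, if_neg (by rw [h]; exact fun h2 => h' h2.symm)]
      · rw [if_neg h]
        have heE : e ∈ E := (Finset.mem_insert.mp he).resolve_left h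
        rw [Derivation.sub_apply, Derivation.smul_apply]
        by_cases h' : e' = i
        · rw [h', hYi, smul_eq_mul, mul_one, sub_self, if_neg h]
        · have he'E : e' ∈ E := (Finset.mem_insert.mp he').resolve_left h'
          rw [hYiE e' he'E, smul_zero, sub_zero, hW e heE e' he'E]
  have hmem : insert i E ∈ S.powerset.filter P := by
    rw [Finset.mem_filter, Finset.mem_powerset]
    exact ⟨Finset.insert_subset hiS hES, hP⟩
  have := hmax _ hmem
  rw [Finset.card_insert_of_notMem hiE] at this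
  omega

/-- `D` preserves the functions of level at most `m`. -/
lemma D_level {m : ℕ} {f : K} (hf : ∀ n ≥ m, ∀ l, J.pd (.d (!ε) n l) f = 0) :
    ∀ n ≥ m, ∀ l, J.pd (.d (!ε) n l) (J.D f) = 0 := by
  intro n hn l
  have h1 : J.pd (.d (!ε) n l) (J.D f) = ⁅J.pd (.d (!ε) n l), J.D⁆ f := by
    rw [Derivation.commutator_apply, hf n hn l, map_zero, sub_zero]
  obtain ⟨s, hs⟩ := J.fin f
  rw [h1, Geo.bracket J (J.geo_pd _) J.geo_D f s hs]
  refine Finset.sum_eq_zero fun c _ => ?_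
  rw [Derivation.commutator_apply, J.pd_z, map_ite_one, sub_zero]
  cases c with
  | var e => rw [J.D_var, map_ite_one, zero_mul]
  | u i => rw [J.D_u, J.pd_z, if_neg (by simp), zero_mul]
  | d e k i =>
    by_cases he : e = ε
    · subst he; rw [J.D_d, J.pd_z, if_neg (by simp), zero_mul]
    · have : e = !ε := by cases e <;> cases ε <;> simp_all
      subst this
      by_cases hk : m ≤ k
      · rw [hf k hk i, mul_zero]
      · rw [J.G_q k i n l (by omega), zero_mul]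

lemma adX_level (j : ℕ) (β : Fin N) : ∀ m, ∀ c ∈ J.Is m, ∀ n ≥ m, ∀ l,
    J.pd (.d (!ε) n l) (J.adX j β (J.z c)) = 0 := by
  induction j with
  | zero =>
    intro m c hc n hn l
    rw [adX_zero, J.X_apply_z, J.pd_comm]
    rw [mem_Is] at hc
    rcases hc with ⟨i, rfl⟩ | ⟨k, i, hk, rfl⟩
    · rw [J.D_u, J.pd_z, map_ite_one]
    · rw [J.G_q k i n l (by omega), map_zero]
  | succ j ih =>
    intro m c hc n hn l
    rw [adX_succ, Derivation.commutator_apply, map_sub,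
      J.D_level (fun n hn l => ih m c hc n hn l) n hn l, zero_sub, neg_eq_zero]
    rw [mem_Is] at hc
    rcases hc with ⟨i, rfl⟩ | ⟨k, i, hk, rfl⟩
    · rw [J.D_u, J.adX_p, map_zero]
    · obtain ⟨s, hs⟩ := J.fin (J.D (J.z (.d (!ε) k i)))
      rw [(J.adX_mem_V j β).1 _ s hs, map_sum]
      refine Finset.sum_eq_zero fun c' _ => ?_
      rw [Derivation.leibniz, J.pd_comm, J.G_q k i n l (by omega), map_zero, smul_zero, zero_add]
      have h3 : ∀ c' ∈ J.Is (k + 1), J.pd (.d (!ε) n l) (J.adX j β (J.z c')) = 0 :=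
        fun c' hc' => ih (k + 1) c' hc' n (by omega) l
      cases c' with
      | var e => rw [(J.adX_mem_V j β).2, map_zero, smul_zero]
      | u i' => rw [h3 _ (by rw [mem_Is]; exact Or.inl ⟨i', rfl⟩), smul_zero]
      | d e k' i' =>
        by_cases he : e = ε
        · subst he; rw [J.adX_p, map_zero, smul_zero]
        · have : e = !ε := by cases e <;> cases ε <;> simp_all
          subst this
          by_cases hk' : k' ≤ k
          · rw [h3 _ (by rw [mem_Is]; exact Or.inr ⟨k', i', by omega, rfl⟩), smul_zero]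
          · rw [J.G_q k i k' i' (by omega), zero_smul]

lemma DD_level {m n : ℕ} (hn : m ≤ n) (l : Fin N) {Y : Derivation ℤ K K} (hY : Y ∈ J.DD) :
    ∃ Y' ∈ J.DD, ∀ c ∈ J.Is m, J.pd (.d (!ε) n l) (Y (J.z c)) = Y' (J.z c) := by
  induction hY using Submodule.span_induction with
  | mem x hx =>
    obtain ⟨p, rfl⟩ := hx
    refine ⟨0, J.DD.zero_mem, fun c hc => ?_⟩
    rw [J.adX_level p.1 p.2 m c hc n hn l]; rfl
  | zero => exact ⟨0, J.DD.zero_mem, fun c _ => by simp⟩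
  | add x y _ _ h1 h2 =>
    obtain ⟨x', hx', h1⟩ := h1
    obtain ⟨y', hy', h2⟩ := h2
    refine ⟨x' + y', J.DD.add_mem hx' hy', fun c hc => ?_⟩
    rw [Derivation.add_apply, map_add, h1 c hc, h2 c hc, Derivation.add_apply]
  | smul a x hx h =>
    obtain ⟨x', hx', h1⟩ := h
    refine ⟨J.pd (.d (!ε) n l) a • x + a • x', J.DD.add_mem (J.DD.smul_mem _ hx)
      (J.DD.smul_mem _ hx'), fun c hc => ?_⟩
    rw [Derivation.smul_apply, smul_eq_mul, Derivation.leibniz, h1 c hc, Derivation.add_apply,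
      Derivation.smul_apply, Derivation.smul_apply, smul_eq_mul, smul_eq_mul, smul_eq_mul]
    ring

variable {J}

/-- Output of the algebraic part: commuting fields in solved form. -/
theorem Chain.exists_fields (C : J.Chain) {r : ℕ} (hr : C.Z (r + 1) = 0) :
    ∃ E ⊆ J.Is r, ∃ W : Coord N → Derivation ℤ K K, ∃ W0 : Derivation ℤ K K,
      (∀ e ∈ E, J.Geo (W e)) ∧ J.Geo W0 ∧
      (∀ e ∈ E, ∀ e' ∈ E, W e (J.z e') = if e = e' then 1 else 0) ∧
      (∀ e ∈ E, W0 (J.z e) = 0) ∧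
      (∀ e ∈ E, ∀ t, W e (J.z (.var t)) = 0) ∧
      (∀ t, W0 (J.z (.var t)) = if t = ε then 1 else 0) ∧
      (∀ e ∈ E, ∀ e' ∈ E, ⁅W e, W e'⁆ = 0) ∧
      (∀ e ∈ E, ⁅W0, W e⁆ = 0) ∧
      (J.D = W0 + ∑ e ∈ E, J.D (J.z e) • W e) ∧
      (∀ c ∈ J.Is (r + 1), ∀ n l, (∀ e ∈ E, J.pd (.d ε n l) (W e (J.z c)) = 0) ∧
        J.pd (.d ε n l) (W0 (J.z c)) = 0) ∧
      (∀ c ∈ J.Is (r + 1), ∀ n ≥ r + 1, ∀ l, (∀ e ∈ E, J.pd (.d (!ε) n l) (W e (J.z c)) = 0) ∧
        J.pd (.d (!ε) n l) (W0 (J.z c)) = 0) := by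
  classical
  have hfg := C.DD_finite hr
  obtain ⟨E, hE, W, hWM, hW, hinj⟩ := J.exists_pivots J.DD (J.Is r) (fun Y hY h =>
    C.DD_inj hr hY (fun i => h _ (by rw [mem_Is]; exact Or.inl ⟨i, rfl⟩))
      (fun n i hn => h _ (by rw [mem_Is]; exact Or.inr ⟨n, i, hn, rfl⟩)))
  -- expansion
  have hexp : ∀ Y ∈ J.DD, Y = ∑ e ∈ E, Y (J.z e) • W e := by
    intro Y hY
    have h1 : Y - ∑ e ∈ E, Y (J.z e) • W e = 0 := by
      refine hinj _ (J.DD.sub_mem hY (J.DD.sum_mem fun e he => J.DD.smul_mem _ (hWM e he))) ?_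
      intro e' he'
      rw [Derivation.sub_apply, sum_apply', Finset.sum_eq_single e']
      · rw [Derivation.smul_apply, hW e' he' e' he', if_pos rfl, smul_eq_mul, mul_one, sub_self]
      · intro e he hne
        rw [Derivation.smul_apply, hW e he e' he', if_neg hne, smul_zero]
      · intro h; exact absurd he' h
    exact sub_eq_zero.mp h1
  have hWV : ∀ e ∈ E, W e ∈ J.V := fun e he => J.DD_le_V (hWM e he)
  have hEE' : ∀ e ∈ E, ∀ Y : Derivation ℤ K K, ∀ e' ∈ E, Y (W e (J.z e')) = 0 := by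
    intro e he Y e' he'
    rw [hW e he e' he', map_ite_one]
  have hcomm : ∀ e ∈ E, ∀ e' ∈ E, ⁅W e, W e'⁆ = 0 := by
    intro e he e' he'
    refine hinj _ (J.DD_involutive hfg (hWM e he) (hWM e' he')) fun e'' he'' => ?_
    rw [Derivation.commutator_apply, hEE' e' he' _ e'' he'', hEE' e he _ e'' he'', sub_zero]
  have hDW : ∀ e ∈ E, ⁅J.D, W e⁆ = -∑ e' ∈ E, W e (J.D (J.z e')) • W e' := by
    intro e he
    rw [hexp _ (J.adD_DD (hWM e he)), ← Finset.sum_neg_distrib]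
    refine Finset.sum_congr rfl fun e' he' => ?_
    rw [Derivation.commutator_apply, hEE' e he _ e' he', zero_sub, neg_smul]
  have hpW : ∀ e ∈ E, ∀ n l, ⁅J.pd (.d ε n l), W e⁆ = 0 := by
    intro e he n l
    refine hinj _ (J.pd_p_stable hfg n l (hWM e he)) fun e' he' => ?_
    rw [Derivation.commutator_apply, hEE' e he _ e' he', J.pd_z, map_ite_one, sub_zero]
  have hpW' : ∀ e ∈ E, ∀ n l c, J.pd (.d ε n l) (W e (J.z c)) = 0 := by
    intro e he n l c
    have h1 := congrArg (fun Y : Derivation ℤ K K => Y (J.z c)) (hpW e he n l)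
    simp only [Derivation.commutator_apply, J.pd_z, map_ite_one, sub_zero] at h1
    exact h1
  have hqW' : ∀ e ∈ E, ∀ c ∈ J.Is (r + 1), ∀ n ≥ r + 1, ∀ l,
      J.pd (.d (!ε) n l) (W e (J.z c)) = 0 := by
    intro e he c hc n hn l
    obtain ⟨Y', hY', h1⟩ := J.DD_level (m := r + 1) hn l (hWM e he)
    have h2 : Y' = 0 := by
      refine hinj Y' hY' fun e' he' => ?_
      rw [← h1 e' (J.Is_mono (Nat.le_succ r) (hE he')), hEE' e he _ e' he']
    rw [h1 c hc, h2]; rfl
  set W0 : Derivation ℤ K K := J.D - ∑ e ∈ E, J.D (J.z e) • W e with hW0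
  have hW0app : ∀ f, W0 f = J.D f - ∑ e ∈ E, J.D (J.z e) * W e f := by
    intro f
    rw [hW0, Derivation.sub_apply, sum_apply']
    congr 1
  refine ⟨E, hE, W, W0, fun e he => (hWV e he).1, ?_, hW, ?_, fun e he t => (hWV e he).2 t, ?_,
    hcomm, ?_, ?_, ?_, ?_⟩
  · intro f s hs
    rw [hW0app, J.D_eq f s hs]
    have : ∀ e ∈ E, J.D (J.z e) * W e f = ∑ c ∈ s, J.D (J.z e) * (W e (J.z c) * J.pd c f) := by
      intro e he
      rw [(hWV e he).1 f s hs, Finset.mul_sum]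
    rw [Finset.sum_congr rfl this, Finset.sum_comm, ← Finset.sum_sub_distrib]
    refine Finset.sum_congr rfl fun c _ => ?_
    rw [hW0app, sub_mul, Finset.sum_mul]
    congr 1
    refine Finset.sum_congr rfl fun e _ => ?_
    ring
  · intro e' he'
    rw [hW0app, Finset.sum_eq_single e']
    · rw [hW e' he' e' he', if_pos rfl, mul_one, sub_self]
    · intro e he hne
      rw [hW e he e' he', if_neg hne, mul_zero]
    · intro h; exact absurd he' h
  · intro t
    rw [hW0app, J.D_var, Finset.sum_eq_zero, sub_zero]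
    intro e he
    rw [(hWV e he).2, mul_zero]
  · intro e he
    have h1 : ⁅W0, W e⁆ = ⁅J.D, W e⁆ - ∑ e' ∈ E, ⁅J.D (J.z e') • W e', W e⁆ := by
      rw [hW0, sub_lie, sum_lie]
    have h2 : ∑ e' ∈ E, ⁅J.D (J.z e') • W e', W e⁆ =
        ∑ e' ∈ E, -(W e (J.D (J.z e')) • W e') := by
      refine Finset.sum_congr rfl fun e' he' => ?_
      rw [smul_lie', hcomm e' he' e he, smul_zero, zero_sub]
    rw [h1, hDW e he, h2, Finset.sum_neg_distrib]
    abel
  · rw [hW0]; abel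
  · intro c hc n l
    refine ⟨fun e he => hpW' e he n l c, ?_⟩
    have h1 : J.pd (.d ε n l) (J.D (J.z c)) = ⁅J.pd (.d ε n l), J.D⁆ (J.z c) := by
      rw [Derivation.commutator_apply, J.pd_z, map_ite_one, sub_zero]
    have h2 : ∀ e ∈ E, J.pd (.d ε n l) (J.D (J.z e)) = ⁅J.pd (.d ε n l), J.D⁆ (J.z e) := by
      intro e _
      rw [Derivation.commutator_apply, J.pd_z, map_ite_one, sub_zero]
    have h3 : J.pd (.d ε n l) (W0 (J.z c)) = ⁅J.pd (.d ε n l), J.D⁆ (J.z c) -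
        ∑ e ∈ E, ⁅J.pd (.d ε n l), J.D⁆ (J.z e) * W e (J.z c) := by
      rw [hW0app, map_sub, map_sum, h1]
      congr 1
      refine Finset.sum_congr rfl fun e he => ?_
      rw [Derivation.leibniz, hpW' e he, smul_zero, zero_add, h2 e he, smul_eq_mul, mul_comm]
    rw [h3]
    cases n with
    | zero =>
      have h4 := hexp _ (J.X_mem l)
      have h5 := congrArg (fun Y : Derivation ℤ K K => Y (J.z c)) h4
      simp only [sum_apply', Derivation.smul_apply, smul_eq_mul] at h5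
      rw [X] at h5
      rw [h5, sub_self]
    | succ n =>
      rw [J.pd_p_D]
      have h4 : ∀ c ∈ J.Is (r + 1), J.pd (.d ε n l) (J.z c) = 0 := by
        intro c hc
        rw [J.pd_z, if_neg]
        rintro rfl
        rw [mem_Is] at hc
        rcases hc with ⟨i, h⟩ | ⟨k, i, hk, h⟩
        · simp at h
        · simp at h
      rw [h4 c hc, Finset.sum_eq_zero, sub_zero]
      intro e he
      rw [h4 e (J.Is_mono (Nat.le_succ r) (hE he)), zero_mul]
  · intro c hc n hn l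
    refine ⟨fun e he => hqW' e he c hc n hn l, ?_⟩
    have h1 : ∀ c ∈ J.Is (r + 1), J.pd (.d (!ε) n l) (J.D (J.z c)) = 0 := by
      intro c hc
      rw [mem_Is] at hc
      rcases hc with ⟨i, rfl⟩ | ⟨k, i, hk, rfl⟩
      · rw [J.D_u, J.pd_z, if_neg (by simp)]
      · exact J.G_q k i n l (by omega)
    rw [hW0app, map_sub, map_sum, h1 c hc, zero_sub, neg_eq_zero]
    refine Finset.sum_eq_zero fun e he => ?_
    rw [Derivation.leibniz, hqW' e he c hc n hn l, h1 e (J.Is_mono (Nat.le_succ r) (hE he)),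
      smul_zero, smul_zero, add_zero]

end JetDiff

end Pool.Agent.Lib.MP_a322a8_mp
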