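import Pool.Agent.Lib.MP_a322a8_mp.System

/-!
From chains of matrix functions to chains over the differential field.
-/

set_option autoImplicit false

open Filter Topology
open scoped ContDiff

namespace Pool.Agent.Lib.MP_a322a8_mp

section EL

variable {𝕜 : Type*} [RCLike 𝕜] {ι : Type*} [DecidableEq ι] {w0 : ι → 𝕜} {K : Type*} [Field K]
  (M : GF w0 K)

open Classical in
/-- Total version of `M.el`. -/
noncomputable def GF.elT (f : (ι → 𝕜) → 𝕜) : K := if h : Mer w0 f then M.el f h else 0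

lemma GF.elT_eq {f : (ι → 𝕜) → 𝕜} (hf : Mer w0 f) : M.elT f = M.el f hf := dif_pos hf

lemma GF.elT_congr {f f' : (ι → 𝕜) → 𝕜} (h : ∀ᶠ w in Gen w0, f w = f' w) :
    M.elT f = M.elT f' := by
  by_cases hf : Mer w0 f
  · have hf' : Mer w0 f' := hf.congr (h.mono fun _ h => h.symm)
    rw [M.elT_eq hf, M.elT_eq hf', M.el_eq]
    exact h
  · have hf' : ¬ Mer w0 f' := fun h' => hf (h'.congr h)
    rw [GF.elT, GF.elT, dif_neg hf, dif_neg hf']

lemma GF.elT_eq_iff {f f' : (ι → 𝕜) → 𝕜} (hf : Mer w0 f) (hf' : Mer w0 f') :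
    M.elT f = M.elT f' ↔ ∀ᶠ w in Gen w0, f w = f' w := by
  rw [M.elT_eq hf, M.elT_eq hf', M.el_eq]

lemma GF.elT_add {f f' : (ι → 𝕜) → 𝕜} (hf : Mer w0 f) (hf' : Mer w0 f') :
    M.elT (fun w => f w + f' w) = M.elT f + M.elT f' := by
  rw [M.elT_eq hf, M.elT_eq hf', M.elT_eq (hf.add hf'), M.el_add]

lemma GF.elT_mul {f f' : (ι → 𝕜) → 𝕜} (hf : Mer w0 f) (hf' : Mer w0 f') :
    M.elT (fun w => f w * f' w) = M.elT f * M.elT f' := by
  rw [M.elT_eq hf, M.elT_eq hf', M.elT_eq (hf.mul hf'), M.el_mul]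

lemma GF.elT_neg {f : (ι → 𝕜) → 𝕜} (hf : Mer w0 f) :
    M.elT (fun w => -f w) = -M.elT f := by
  rw [M.elT_eq hf, M.elT_eq hf.neg, M.el_neg]

lemma Mer.sub {f f' : (ι → 𝕜) → 𝕜} (hf : Mer w0 f) (hf' : Mer w0 f') :
    Mer w0 (fun w => f w - f' w) := by
  simp_rw [sub_eq_add_neg]
  exact hf.add hf'.neg

lemma GF.elT_sub {f f' : (ι → 𝕜) → 𝕜} (hf : Mer w0 f) (hf' : Mer w0 f') :
    M.elT (fun w => f w - f' w) = M.elT f - M.elT f' := by
  simp_rw [sub_eq_add_neg]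
  rw [M.elT_add hf hf'.neg, M.elT_neg hf']

lemma GF.elT_zero : M.elT (fun _ => 0) = 0 := by
  rw [M.elT_eq (LA.const 0 w0).mer, M.el_zero]

lemma GF.elT_one : M.elT (fun _ => 1) = 1 := by
  rw [M.elT_eq (LA.const 1 w0).mer, M.el_one]

lemma GF.elT_sum {κ : Type*} (t : Finset κ) {f : κ → (ι → 𝕜) → 𝕜} (h : ∀ j, Mer w0 (f j)) :
    M.elT (fun w => ∑ j ∈ t, f j w) = ∑ j ∈ t, M.elT (f j) := by
  rw [M.elT_eq (Mer.sum t fun j _ => h j), ← M.el_sum t h]
  exact Finset.sum_congr rfl fun j _ => (M.elT_eq (h j)).symm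

lemma GF.DV_elT (V : (ι → 𝕜) → (ι → 𝕜)) (hV : ∀ c, LA (fun w => V w c) w0)
    {f : (ι → 𝕜) → 𝕜} (hf : Mer w0 f) :
    DV M V hV (M.elT f) = M.elT (fun w => lineDeriv 𝕜 f w (V w)) := by
  rw [M.elT_eq hf, M.elT_eq (hf.lineDeriv hV), DV_el]

lemma GF.pdK_elT (c : ι) {f : (ι → 𝕜) → 𝕜} (hf : Mer w0 f) :
    pdK M c (M.elT f) = M.elT (pd c f) := M.DV_elT _ _ hf

lemma GF.elT_coord (c : ι) : M.elT (fun w => w c) = zK M c := M.elT_eq _

/-- Locally analytic functions vanishing generically vanish. -/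
lemma LA.eq_zero_of_gen {f : (ι → 𝕜) → 𝕜} (hf : LA f w0) (h : ∀ᶠ w in Gen w0, f w = 0) :
    ∀ᶠ w in 𝓝 w0, f w = 0 := by
  obtain ⟨g, h1, h2, h3⟩ := eventually_gen.mp h
  have h4 : ∀ᶠ w in 𝓝 w0, g w * f w = 0 := by
    filter_upwards [h3] with w hw
    by_cases hg : g w = 0
    · rw [hg, zero_mul]
    · rw [hw hg, mul_zero]
  exact (LA_zero_or_zero h1 hf h4).resolve_left h2

/-- Regular elements. -/
def GF.Reg (φ : K) : Prop := ∃ f : (ι → 𝕜) → 𝕜, LA f w0 ∧ M.elT f = φ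

lemma GF.Reg.mul {φ ψ : K} (h : M.Reg φ) (h' : M.Reg ψ) : M.Reg (φ * ψ) := by
  obtain ⟨f, hf, rfl⟩ := h
  obtain ⟨f', hf', rfl⟩ := h'
  exact ⟨_, hf.mul hf', M.elT_mul hf.mer hf'.mer⟩

lemma GF.exists_denom (φ : K) : ∃ δ : K, δ ≠ 0 ∧ M.Reg δ ∧ M.Reg (δ * φ) := by
  obtain ⟨f, hf, rfl⟩ := M.exists_rep φ
  rw [← M.elT_eq hf]
  have hf0 := hf
  obtain ⟨n, d, h1, h2, h3, h4⟩ := hf
  have h5 : M.elT d ≠ 0 := by
    intro h
    rw [← M.elT_zero, M.elT_eq_iff h2.mer (LA.const 0 w0).mer] at h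
    exact h3 (h2.eq_zero_of_gen h)
  refine ⟨M.elT d, h5, ⟨d, h2, rfl⟩, ⟨n, h1, ?_⟩⟩
  rw [← M.elT_mul h2.mer hf0]
  refine M.elT_congr ?_
  filter_upwards [h4, Gen_ne h2 h3] with w h6 h7
  rw [h6, mul_div_cancel₀ _ h7]

lemma GF.exists_common_denom {κ : Type*} (t : Finset κ) (l : κ → K) :
    ∃ δ : K, δ ≠ 0 ∧ M.Reg δ ∧ ∀ i ∈ t, M.Reg (δ * l i) := by
  classical
  induction t using Finset.induction_on with
  | empty => exact ⟨1, one_ne_zero, ⟨_, LA.const 1 w0, M.elT_one⟩, by simp⟩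
  | insert a t ha ih =>
    obtain ⟨δ, h1, h2, h3⟩ := ih
    obtain ⟨δ', h1', h2', h3'⟩ := M.exists_denom (l a)
    refine ⟨δ * δ', mul_ne_zero h1 h1', GF.Reg.mul M h2 h2', ?_⟩
    intro i hi
    rcases Finset.mem_insert.mp hi with rfl | hi'
    · rw [mul_assoc]
      exact GF.Reg.mul M h2 h3'
    · rw [mul_comm δ, mul_assoc]
      exact GF.Reg.mul M h2' (h3 i hi')

end EL

section MatEl

variable {𝕜 : Type*} [RCLike 𝕜] {N : ℕ} {F : Base 𝕜 N → Fin N → 𝕜}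
  {K : Type*} [Field K] {w0 : Jet 𝕜 N} (M : GF w0 K)

/-- Matrix functions with locally analytic entries. -/
def MM (P : Jet 𝕜 N → Matrix (Fin N) (Fin N) 𝕜) (w : Jet 𝕜 N) : Prop :=
  ∀ i j, LA (fun w' => P w' i j) w

/-- The matrix over `K` of a matrix function. -/
noncomputable def GF.mel (P : Jet 𝕜 N → Matrix (Fin N) (Fin N) 𝕜) : Matrix (Fin N) (Fin N) K :=
  Matrix.of fun i j => M.elT (fun w => P w i j)

variable {P Q : Jet 𝕜 N → Matrix (Fin N) (Fin N) 𝕜}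

lemma MM.congr (hP : MM P w0) (h : ∀ᶠ w in 𝓝 w0, Q w = P w) : MM Q w0 := by
  intro i j
  exact (hP i j).congr (h.mono fun w h => by rw [h])

lemma MM.eventually (hP : MM P w0) : ∀ᶠ w in 𝓝 w0, MM P w := by
  unfold MM
  rw [Filter.eventually_all]
  intro i
  rw [Filter.eventually_all]
  intro j
  exact (hP i j).eventually

lemma MM.add (hP : MM P w0) (hQ : MM Q w0) : MM (fun w => P w + Q w) w0 := fun i j =>
  (hP i j).add (hQ i j)

lemma MM.sub (hP : MM P w0) (hQ : MM Q w0) : MM (fun w => P w - Q w) w0 := fun i j =>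
  (hP i j).sub (hQ i j)

lemma MM.mul (hP : MM P w0) (hQ : MM Q w0) : MM (fun w => P w * Q w) w0 := by
  intro i j
  simp_rw [Matrix.mul_apply]
  exact LA.sum _ fun k _ => (hP i k).mul (hQ k j)

lemma MM.DM (hF : AnalyticAt 𝕜 F (base w0)) (ε : Bool) (hP : MM P w0) : MM (DM F ε P) w0 :=
  fun i j => (hP i j).lineDeriv (V_LA hF)

lemma MM_mP (hF : AnalyticAt 𝕜 F (base w0)) (ε : Bool) : MM (mP F ε) w0 := by
  intro i j
  have := (F_LAs (ε := ε) le_rfl hF i).la.pd (.d ε 0 j)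
  exact this.neg

lemma MM_mC (hF : AnalyticAt 𝕜 F (base w0)) : MM (mC F) w0 := by
  intro i j
  have := (F_LAs (ε := true) le_rfl hF i).la.pd (.u j)
  exact this.neg

lemma MM_one : MM (fun _ : Jet 𝕜 N => (1 : Matrix (Fin N) (Fin N) 𝕜)) w0 := fun _ _ =>
  LA.const _ _

lemma GF.mel_congr (h : ∀ᶠ w in 𝓝 w0, P w = Q w) : M.mel P = M.mel Q := by
  ext i j
  refine M.elT_congr (Gen_of_nhds ?_)
  filter_upwards [h] with w h
  rw [h]

lemma GF.mel_add (hP : MM P w0) (hQ : MM Q w0) :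
    M.mel (fun w => P w + Q w) = M.mel P + M.mel Q := by
  ext i j
  exact M.elT_add (hP i j).mer (hQ i j).mer

lemma GF.mel_sub (hP : MM P w0) (hQ : MM Q w0) :
    M.mel (fun w => P w - Q w) = M.mel P - M.mel Q := by
  ext i j
  exact M.elT_sub (hP i j).mer (hQ i j).mer

lemma GF.mel_mul (hP : MM P w0) (hQ : MM Q w0) :
    M.mel (fun w => P w * Q w) = M.mel P * M.mel Q := by
  ext i j
  rw [Matrix.mul_apply]
  simp only [GF.mel, Matrix.of_apply, Matrix.mul_apply]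
  rw [M.elT_sum Finset.univ fun k => ((hP i k).mul (hQ k j)).mer]
  exact Finset.sum_congr rfl fun k _ => M.elT_mul (hP i k).mer (hQ k j).mer

lemma GF.mel_one : M.mel (fun _ => 1) = 1 := by
  ext i j
  simp only [GF.mel, Matrix.of_apply, Matrix.one_apply]
  split_ifs
  · exact M.elT_one
  · exact M.elT_zero

lemma GF.mel_D (hF : AnalyticAt 𝕜 F (base w0)) (ε : Bool) (hP : MM P w0) :
    M.mel (DM F ε P) = (M.mel P).map (JD M hF ε).D := by
  ext i j
  exact (M.DV_elT _ (V_LA hF) (hP i j).mer).symm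

lemma GF.mel_D' (hF : AnalyticAt 𝕜 F (base w0)) (ε : Bool) (hP : MM P w0) :
    M.mel (DM F (!ε) P) = (M.mel P).map (JD M hF ε).D' := by
  ext i j
  exact (M.DV_elT _ (V_LA hF) (hP i j).mer).symm

lemma GF.elT_F (hF : AnalyticAt 𝕜 F (base w0)) (ε : Bool) (i : Fin N) :
    M.elT (fun w => F (base w) i) = (JD M hF ε).F i := by
  change _ = DV M (V F ε) (V_LA hF) (zK M _)
  rw [DV_z, ← M.elT_eq]
  refine M.elT_congr (Eventually.of_forall fun w => ?_)
  rw [V_d_not]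
  rfl

lemma GF.mel_a (hF : AnalyticAt 𝕜 F (base w0)) (ε : Bool) :
    M.mel (mP F ε) = (JD M hF ε).a := by
  ext i j
  have h1 := (F_LAs (ε := ε) le_rfl hF i).la
  change M.elT (fun w => -pd (.d ε 0 j) (fun w' => F (base w') i) w) = -pdK M _ ((JD M hF ε).F i)
  rw [← M.elT_F hF ε i, M.pdK_elT _ h1.mer, M.elT_neg (h1.pd _).mer]

lemma GF.mel_b (hF : AnalyticAt 𝕜 F (base w0)) (ε : Bool) :
    M.mel (mP F (!ε)) = (JD M hF ε).b := by
  ext i j
  have h1 := (F_LAs (ε := ε) le_rfl hF i).la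
  change M.elT (fun w => -pd (.d (!ε) 0 j) (fun w' => F (base w') i) w) =
    -pdK M _ ((JD M hF ε).F i)
  rw [← M.elT_F hF ε i, M.pdK_elT _ h1.mer, M.elT_neg (h1.pd _).mer]

lemma GF.mel_c (hF : AnalyticAt 𝕜 F (base w0)) (ε : Bool) :
    M.mel (mC F) = (JD M hF ε).c := by
  ext i j
  have h1 := (F_LAs (ε := ε) le_rfl hF i).la
  change M.elT (fun w => -pd (.u j) (fun w' => F (base w') i) w) = -pdK M _ ((JD M hF ε).F i)
  rw [← M.elT_F hF ε i, M.pdK_elT _ h1.mer, M.elT_neg (h1.pd _).mer]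

/-- A chain of matrix functions in the direction `ε`. -/
structure FChain (F : Base 𝕜 N → Fin N → 𝕜) (Ω : Set (Jet 𝕜 N)) (ε : Bool) where
  A : ℕ → Jet 𝕜 N → Matrix (Fin N) (Fin N) 𝕜
  H : ℕ → Jet 𝕜 N → Matrix (Fin N) (Fin N) 𝕜
  Z : ℕ → Jet 𝕜 N → Matrix (Fin N) (Fin N) 𝕜
  A_an : ∀ k, ∀ w ∈ Ω, MM (A k) w
  A0 : ∀ w ∈ Ω, A 0 w = mP F ε w
  Z0 : ∀ w ∈ Ω, Z 0 w = 1
  Zs : ∀ k, ∀ w ∈ Ω, Z (k + 1) w = H (k + 1) w * Z k w
  H1 : ∀ w ∈ Ω, H 1 w = DM F ε (mP F ε) w + mP F (!ε) w * mP F ε w - mC F w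
  Hs : ∀ k, ∀ w ∈ Ω, H (k + 2) w = DM F ε (A (k + 1)) w + mP F (!ε) w * A (k + 1) w -
    DM F (!ε) (mP F (!ε)) w - A (k + 1) w * mP F (!ε) w + H (k + 1) w
  AZ : ∀ k, ∀ w ∈ Ω, Z (k + 1) w * mP F ε w = DM F (!ε) (Z (k + 1)) w + A (k + 1) w * Z (k + 1) w
  ker : ∀ k, KerInv F ε Ω (fun w => -(mP F (!ε) w).transpose) (fun w => (Z (k + 1) w).transpose)

variable {Ω : Set (Jet 𝕜 N)} {ε : Bool} (C : FChain F Ω ε)

lemma FChain.H_an (hΩ : IsOpen Ω) (hFΩ : ∀ w ∈ Ω, AnalyticAt 𝕜 F (base w)) (k : ℕ) :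
    ∀ w ∈ Ω, MM (C.H (k + 1)) w := by
  induction k with
  | zero =>
    intro w hw
    have hF := hFΩ w hw
    refine MM.congr (P := fun w => DM F ε (mP F ε) w + mP F (!ε) w * mP F ε w - mC F w) ?_ ?_
    · exact (((MM_mP hF ε).DM hF ε).add ((MM_mP hF (!ε)).mul (MM_mP hF ε))).sub (MM_mC hF)
    · filter_upwards [hΩ.mem_nhds hw] with w' hw'
      exact C.H1 w' hw'
  | succ k ih =>
    intro w hw
    have hF := hFΩ w hw
    refine MM.congr (P := fun w => DM F ε (C.A (k + 1)) w + mP F (!ε) w * C.A (k + 1) w -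
      DM F (!ε) (mP F (!ε)) w - C.A (k + 1) w * mP F (!ε) w + C.H (k + 1) w) ?_ ?_
    · have hA := C.A_an (k + 1) w hw
      exact ((((hA.DM hF ε).add ((MM_mP hF (!ε)).mul hA)).sub
        ((MM_mP hF (!ε)).DM hF (!ε))).sub (hA.mul (MM_mP hF (!ε)))).add (ih w hw)
    · filter_upwards [hΩ.mem_nhds hw] with w' hw'
      exact C.Hs k w' hw'

lemma FChain.Z_an (hΩ : IsOpen Ω) (hFΩ : ∀ w ∈ Ω, AnalyticAt 𝕜 F (base w)) (k : ℕ) :
    ∀ w ∈ Ω, MM (C.Z k) w := by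
  induction k with
  | zero =>
    intro w hw
    refine MM.congr (P := fun _ => 1) MM_one ?_
    filter_upwards [hΩ.mem_nhds hw] with w' hw'
    exact C.Z0 w' hw'
  | succ k ih =>
    intro w hw
    refine MM.congr (P := fun w => C.H (k + 1) w * C.Z k w)
      ((C.H_an hΩ hFΩ k w hw).mul (ih w hw)) ?_
    filter_upwards [hΩ.mem_nhds hw] with w' hw'
    exact C.Zs k w' hw'

/-- The chain over the field. -/
noncomputable def FChain.toChain (hΩ : IsOpen Ω) (hFΩ : ∀ w ∈ Ω, AnalyticAt 𝕜 F (base w))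
    (hw0 : w0 ∈ Ω) : (JD M (hFΩ w0 hw0) ε).Chain where
  A k := M.mel (C.A k)
  H k := M.mel (C.H k)
  Z k := M.mel (C.Z k)
  A0 := by
    rw [← M.mel_a (hFΩ w0 hw0) ε]
    refine M.mel_congr ?_
    filter_upwards [hΩ.mem_nhds hw0] with w hw using C.A0 w hw
  Z0 := by
    rw [← M.mel_one]
    refine M.mel_congr ?_
    filter_upwards [hΩ.mem_nhds hw0] with w hw using C.Z0 w hw
  Zs := by
    intro k
    rw [← M.mel_mul (C.H_an hΩ hFΩ k w0 hw0) (C.Z_an hΩ hFΩ k w0 hw0)]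
    refine M.mel_congr ?_
    filter_upwards [hΩ.mem_nhds hw0] with w hw using C.Zs k w hw
  H1 := by
    have hF := hFΩ w0 hw0
    rw [← M.mel_a hF ε, ← M.mel_b hF ε, ← M.mel_c hF ε, ← M.mel_D hF ε (MM_mP hF ε),
      ← M.mel_mul (MM_mP hF (!ε)) (MM_mP hF ε),
      ← M.mel_add ((MM_mP hF ε).DM hF ε) ((MM_mP hF (!ε)).mul (MM_mP hF ε)),
      ← M.mel_sub (((MM_mP hF ε).DM hF ε).add ((MM_mP hF (!ε)).mul (MM_mP hF ε))) (MM_mC hF)]
    refine M.mel_congr ?_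
    filter_upwards [hΩ.mem_nhds hw0] with w hw using C.H1 w hw
  Hs := by
    intro k
    have hF := hFΩ w0 hw0
    have hA := C.A_an (k + 1) w0 hw0
    have hb := MM_mP hF (!ε)
    have hH := C.H_an hΩ hFΩ k w0 hw0
    rw [← M.mel_b hF ε, ← M.mel_D hF ε hA, ← M.mel_D' hF ε hb, ← M.mel_mul hb hA,
      ← M.mel_mul hA hb, ← M.mel_add (hA.DM hF ε) (hb.mul hA),
      ← M.mel_sub ((hA.DM hF ε).add (hb.mul hA)) (hb.DM hF (!ε)),
      ← M.mel_sub (((hA.DM hF ε).add (hb.mul hA)).sub (hb.DM hF (!ε))) (hA.mul hb),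
      ← M.mel_add ((((hA.DM hF ε).add (hb.mul hA)).sub (hb.DM hF (!ε))).sub (hA.mul hb)) hH]
    refine M.mel_congr ?_
    filter_upwards [hΩ.mem_nhds hw0] with w hw using C.Hs k w hw
  AZ := by
    intro k
    have hF := hFΩ w0 hw0
    have hA := C.A_an (k + 1) w0 hw0
    have hZ := C.Z_an hΩ hFΩ (k + 1) w0 hw0
    rw [← M.mel_a hF ε, ← M.mel_D' hF ε hZ, ← M.mel_mul hZ (MM_mP hF ε), ← M.mel_mul hA hZ,
      ← M.mel_add (hZ.DM hF (!ε)) (hA.mul hZ)]
    refine M.mel_congr ?_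
    filter_upwards [hΩ.mem_nhds hw0] with w hw using C.AZ k w hw
  ker := by
    intro k l hl
    have hF := hFΩ w0 hw0
    have hZ := C.Z_an hΩ hFΩ (k + 1) w0 hw0
    obtain ⟨δ, hδ, -, hreg⟩ := M.exists_common_denom Finset.univ l
    choose v hv hvl using fun i => hreg i (Finset.mem_univ i)
    -- the function level vector
    have h1 : ∀ j, ∀ᶠ w in 𝓝 w0, ∑ i, C.Z (k + 1) w i j * v i w = 0 := by
      intro j
      refine LA.eq_zero_of_gen (LA.sum _ fun i _ => (hZ i j).mul (hv i)) ?_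
      rw [← M.elT_eq_iff (Mer.sum _ fun i _ => ((hZ i j).mul (hv i)).mer) (LA.const 0 w0).mer,
        M.elT_zero, M.elT_sum _ (fun i => ((hZ i j).mul (hv i)).mer)]
      have h2 := congrFun hl j
      rw [Matrix.vecMul, dotProduct] at h2
      have h3 : ∀ i, M.elT (fun w => C.Z (k + 1) w i j * v i w) =
          δ * (l i * M.mel (C.Z (k + 1)) i j) := by
        intro i
        rw [M.elT_mul (hZ i j).mer (hv i).mer, hvl]
        change M.mel (C.Z (k + 1)) i j * (δ * l i) = _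
        ring
      rw [Finset.sum_congr rfl fun i _ => h3 i, ← Finset.mul_sum, h2]
      simp
    have h2 : ∀ᶠ w in 𝓝 w0, w ∈ Ω ∧ (∀ i, LA (fun w' => v i w') w) ∧
        ((C.Z (k + 1) w).transpose).mulVec (fun i => v i w) = 0 := by
      have h3 := Filter.eventually_all.mpr h1
      have h4 := Filter.eventually_all.mpr fun i => (hv i).eventually
      filter_upwards [hΩ.mem_nhds hw0, h3, h4] with w h5 h6 h7
      refine ⟨h5, h7, ?_⟩
      funext j
      exact h6 j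
    obtain ⟨O, hO, hOo, hwO⟩ := eventually_nhds_iff.mp h2
    have h3 := C.ker k O (fun w hw => (hO w hw).1) hOo (fun w i => v i w)
      (fun w hw => (hO w hw).2.1) (fun w hw => (hO w hw).2.2)
    -- back to the field
    have h4 : Matrix.vecMul ((fun i => (JD M hF ε).D (δ * l i)) -
        Matrix.vecMul (fun i => δ * l i) (JD M hF ε).b) (M.mel (C.Z (k + 1))) = 0 := by
      funext j
      rw [Matrix.vecMul, dotProduct, Pi.zero_apply]
      have h5 : ∀ i, ((fun i => (JD M hF ε).D (δ * l i)) -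
          Matrix.vecMul (fun i => δ * l i) (JD M hF ε).b) i =
          M.elT (fun w => Dt F ε (v i) w + -∑ m, mP F (!ε) w m i * v m w) := by
        intro i
        have hm : ∀ m, LA (fun w => mP F (!ε) w m i * v m w) w0 := fun m =>
          (MM_mP hF (!ε) m i).mul (hv m)
        have hsum := LA.sum Finset.univ fun m _ => hm m
        have hDt : LA (Dt F ε (v i)) w0 := (hv i).lineDeriv (V_LA hF)
        rw [M.elT_add hDt.mer hsum.neg.mer, M.elT_neg hsum.mer,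
          M.elT_sum _ fun m => (hm m).mer, Pi.sub_apply, sub_eq_add_neg]
        congr 1
        · rw [← hvl i]
          exact M.DV_elT _ (V_LA hF) (hv i).mer
        · congr 1
          rw [Matrix.vecMul, dotProduct]
          refine Finset.sum_congr rfl fun m _ => ?_
          rw [M.elT_mul (MM_mP hF (!ε) m i).mer (hv m).mer, hvl, ← M.mel_b hF ε]
          change δ * l m * M.mel (mP F (!ε)) m i = M.mel (mP F (!ε)) m i * (δ * l m)
          ring
      have hLA : ∀ i, LA (fun w => (Dt F ε (v i) w + -∑ m, mP F (!ε) w m i * v m w) *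
          C.Z (k + 1) w i j) w0 := fun i =>
        (((hv i).lineDeriv (V_LA hF)).add
          (LA.sum Finset.univ fun m _ => (MM_mP hF (!ε) m i).mul (hv m)).neg).mul (hZ i j)
      have h6 : ∀ i, M.elT (fun w => Dt F ε (v i) w + -∑ m, mP F (!ε) w m i * v m w) *
          M.mel (C.Z (k + 1)) i j = M.elT (fun w => (Dt F ε (v i) w +
            -∑ m, mP F (!ε) w m i * v m w) * C.Z (k + 1) w i j) := by
        intro i
        rw [M.elT_mul _ (hZ i j).mer]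
        · rfl
        · exact (((hv i).lineDeriv (V_LA hF)).add
            (LA.sum Finset.univ fun m _ => (MM_mP hF (!ε) m i).mul (hv m)).neg).mer
      rw [Finset.sum_congr rfl fun i _ => by rw [h5 i, h6 i], ← M.elT_sum _ fun i => (hLA i).mer,
        ← M.elT_zero]
      refine M.elT_congr (Gen_of_nhds ?_)
      filter_upwards [hOo.mem_nhds hwO] with w hw
      have h7 := congrFun (h3 w hw) j
      rw [Matrix.mulVec, dotProduct, Pi.zero_apply] at h7
      rw [← h7]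
      refine Finset.sum_congr rfl fun i _ => ?_
      change _ = C.Z (k + 1) w i j * (Dt F ε (v i) w + ∑ m, (-mP F (!ε) w m i) * v m w)
      simp only [neg_mul, Finset.sum_neg_distrib]
      exact mul_comm _ _
    have h5 : (fun i => (JD M hF ε).D (δ * l i)) - Matrix.vecMul (fun i => δ * l i) (JD M hF ε).b =
        δ • ((fun i => (JD M hF ε).D (l i)) - Matrix.vecMul l (JD M hF ε).b) +
          ((JD M hF ε).D δ) • l := by
      have h6 : (fun i => δ * l i) = δ • l := rfl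
      rw [h6, Matrix.smul_vecMul, smul_sub]
      funext i
      simp only [Pi.sub_apply, Pi.add_apply, Pi.smul_apply, smul_eq_mul, Derivation.leibniz]
      ring
    rw [h5, Matrix.add_vecMul, Matrix.smul_vecMul, Matrix.smul_vecMul, hl, smul_zero,
      add_zero] at h4
    exact (smul_eq_zero.mp h4).resolve_left hδ

end MatEl

end Pool.Agent.Lib.MP_a322a8_mp
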