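import Mathlib

/-!
Definitions for the statement about `u_xy = F(x, y, u, u_x, u_y)`.
-/

set_option autoImplicit false

open Filter Topology

namespace Pool.Agent.Lib.MP_a322a8_mp

/-- Coordinates of the jet space of `u_xy = F(x, y, u, u_x, u_y)`: the independent variables
(`var true` is `x`, `var false` is `y`), the unknown functions `u i`, and their pure derivatives
(`d true n i` is the `(n+1)`-st `x`-derivative of `u i`, `d false n i` its `(n+1)`-st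
`y`-derivative). -/
inductive Coord (N : ℕ) where
  | var (ε : Bool) : Coord N
  | u (i : Fin N) : Coord N
  | d (ε : Bool) (n : ℕ) (i : Fin N) : Coord N
  deriving DecidableEq

/-- The jet space (product topology). -/
abbrev Jet (𝕜 : Type*) (N : ℕ) : Type _ := Coord N → 𝕜

/-- The arguments `(x, y, u, u_x, u_y)` of `F`. -/
abbrev Base (𝕜 : Type*) (N : ℕ) : Type _ :=
  𝕜 × 𝕜 × (Fin N → 𝕜) × (Fin N → 𝕜) × (Fin N → 𝕜)

/-- The values of `(x, y, u, u_x, u_y)` at a jet. -/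
def base {𝕜 : Type*} {N : ℕ} (w : Jet 𝕜 N) : Base 𝕜 N :=
  (w (.var true), w (.var false), fun i => w (.u i), fun i => w (.d true 0 i),
    fun i => w (.d false 0 i))

/-- `f` is locally analytic at `w`: near `w` it is an analytic function of finitely many
coordinates. -/
def LA {𝕜 : Type*} [RCLike 𝕜] {ι : Type*} {G : Type*} [NormedAddCommGroup G] [NormedSpace 𝕜 G]
    (f : (ι → 𝕜) → G) (w : ι → 𝕜) : Prop :=
  ∃ (s : Finset ι) (g : (s → 𝕜) → G), AnalyticAt 𝕜 g (fun c => w c) ∧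
    ∀ᶠ w' in 𝓝 w, f w' = g (fun c => w' c)

section

variable {𝕜 : Type*} [RCLike 𝕜] {N : ℕ}

/-- Partial derivative with respect to the coordinate `c`. -/
noncomputable def pd {ι : Type*} [DecidableEq ι] (c : ι) (f : (ι → 𝕜) → 𝕜) (w : ι → 𝕜) : 𝕜 :=
  lineDeriv 𝕜 f w (Pi.single c 1)

variable (F : Base 𝕜 N → Fin N → 𝕜)

/-- The part of the total derivative `D_ε` (`D_true = D = D_x`, `D_false = D_y`) which acts on
functions of `x`, `y`, `u`, the `ε`-derivatives of `u`, and the first derivative of `u` in the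
other direction. -/
noncomputable def Vr (ε : Bool) (w : Jet 𝕜 N) : Jet 𝕜 N
  | .var e => if e = ε then 1 else 0
  | .u i => w (.d ε 0 i)
  | .d e n i => if e = ε then w (.d ε (n + 1) i) else if n = 0 then F (base w) i else 0

/-- `FF F ε n i` is `D_ε ^ n (F i)`, the expression of the mixed derivative
`∂_ε ^ (n + 1) ∂_{!ε} u^i` on solutions. -/
noncomputable def FF (ε : Bool) : ℕ → Fin N → Jet 𝕜 N → 𝕜
  | 0, i => fun w => F (base w) i
  | n + 1, i => fun w => lineDeriv 𝕜 (FF ε n i) w (Vr F ε w)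

/-- The total derivative `D_ε` on solutions of the system, as a vector field on the jet space:
`D_ε` maps `∂_ε^n u^i` to `∂_ε^(n+1) u^i`, and `∂_{!ε}^(n+1) u^i` to `D_{!ε}^n (F i)`. -/
noncomputable def V (ε : Bool) (w : Jet 𝕜 N) : Jet 𝕜 N
  | .var e => if e = ε then 1 else 0
  | .u i => w (.d ε 0 i)
  | .d e n i => if e = ε then w (.d ε (n + 1) i) else FF F (!ε) n i w

/-- The total derivative `D_ε f` of a function `f` on the jet space (`D = Dt F true`,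
`D̄ = Dt F false`). -/
noncomputable def Dt (ε : Bool) (f : Jet 𝕜 N → 𝕜) : Jet 𝕜 N → 𝕜 :=
  fun w => lineDeriv 𝕜 f w (V F ε w)

/-- Entrywise total derivative of a vector function. -/
noncomputable def Dv (ε : Bool) (v : Jet 𝕜 N → Fin N → 𝕜) : Jet 𝕜 N → Fin N → 𝕜 :=
  fun w i => Dt F ε (fun w' => v w' i) w

/-- Entrywise total derivative of a matrix function. -/
noncomputable def DM (ε : Bool) (M : Jet 𝕜 N → Matrix (Fin N) (Fin N) 𝕜) :
    Jet 𝕜 N → Matrix (Fin N) (Fin N) 𝕜 :=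
  fun w => Matrix.of fun i j => Dt F ε (fun w' => M w' i j) w

/-- The matrix `-∂F/∂u_ε`, where `u_true = u_x` and `u_false = u_y`; so `a = mP F true` and
`b = mP F false`. -/
noncomputable def mP (ε : Bool) (w : Jet 𝕜 N) : Matrix (Fin N) (Fin N) 𝕜 :=
  Matrix.of fun i j => -pd (.d ε 0 j) (fun w' => F (base w') i) w

/-- The matrix `c = -∂F/∂u`. -/
noncomputable def mC (w : Jet 𝕜 N) : Matrix (Fin N) (Fin N) 𝕜 :=
  Matrix.of fun i j => -pd (.u j) (fun w' => F (base w') i) w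

/-- `(D_ε + M)(ker Z) ⊂ ker Z`: on every open subset of `Ω`, for every locally analytic vector
function `v` with `Z v = 0` also `Z (D_ε v + M v) = 0`. -/
def KerInv (ε : Bool) (Ω : Set (Jet 𝕜 N)) (M Z : Jet 𝕜 N → Matrix (Fin N) (Fin N) 𝕜) : Prop :=
  ∀ O ⊆ Ω, IsOpen O → ∀ v : Jet 𝕜 N → Fin N → 𝕜, (∀ w ∈ O, ∀ i, LA (fun w' => v w' i) w) →
    (∀ w ∈ O, (Z w).mulVec (v w) = 0) →
    ∀ w ∈ O, (Z w).mulVec (Dv F ε v w + (M w).mulVec (v w)) = 0

/-- The chain of generalized Laplace invariants of the system on the open set `Ω` of jets: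
`a k = a_k` and `b k = b_{-k}` for `k ≥ 0`, `H k = H_k` and `Z k = Z_k` for all integers `k`.
All identities hold at all points of `Ω`. -/
structure LaplaceChain (Ω : Set (Jet 𝕜 N)) where
  a : ℕ → Jet 𝕜 N → Matrix (Fin N) (Fin N) 𝕜
  b : ℕ → Jet 𝕜 N → Matrix (Fin N) (Fin N) 𝕜
  H : ℤ → Jet 𝕜 N → Matrix (Fin N) (Fin N) 𝕜
  Z : ℤ → Jet 𝕜 N → Matrix (Fin N) (Fin N) 𝕜
  a_an : ∀ k i j, ∀ w ∈ Ω, LA (fun w' => a k w' i j) w
  b_an : ∀ k i j, ∀ w ∈ Ω, LA (fun w' => b k w' i j) w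
  /-- `a_0 = a = -∂F/∂u_x` -/
  a_zero : ∀ w ∈ Ω, a 0 w = mP F true w
  /-- `b_0 = b = -∂F/∂u_y` -/
  b_zero : ∀ w ∈ Ω, b 0 w = mP F false w
  /-- `H_1 = D(a) + b a - c` -/
  H_one : ∀ w ∈ Ω, H 1 w = DM F true (mP F true) w + mP F false w * mP F true w - mC F w
  /-- `H_0 = D̄(b) + a b - c` -/
  H_zero : ∀ w ∈ Ω, H 0 w = DM F false (mP F false) w + mP F true w * mP F false w - mC F w
  /-- `Z_1 = H_1` -/
  Z_one : ∀ w ∈ Ω, Z 1 w = H 1 w
  /-- `Z_(k+1) = H_(k+1) Z_k` for `k ≥ 1` -/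
  Z_succ : ∀ k : ℤ, 1 ≤ k → ∀ w ∈ Ω, Z (k + 1) w = H (k + 1) w * Z k w
  /-- `Z_k (D̄ + a) = (D̄ + a_k) Z_k` as operators, i.e. `Z_k a = D̄(Z_k) + a_k Z_k`, `k ≥ 1` -/
  a_spec : ∀ k : ℕ, 1 ≤ k → ∀ w ∈ Ω, Z k w * mP F true w = DM F false (Z k) w + a k w * Z k w
  /-- `H_(k+1) = D(a_k) + b a_k - D̄(b) - a_k b + H_k` for `k ≥ 1` -/
  H_succ : ∀ k : ℕ, 1 ≤ k → ∀ w ∈ Ω, H (k + 1) w =
    DM F true (a k) w + mP F false w * a k w - DM F false (mP F false) w - a k w * mP F false w +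
      H k w
  /-- `Z_0 = H_0` -/
  Z_zero : ∀ w ∈ Ω, Z 0 w = H 0 w
  /-- `Z_(-i) = H_(-i) Z_(1-i)` for `i ≥ 1` -/
  Z_neg : ∀ i : ℤ, 1 ≤ i → ∀ w ∈ Ω, Z (-i) w = H (-i) w * Z (1 - i) w
  /-- `D(Z_(1-i)) - Z_(1-i) b + b_(-i) Z_(1-i) = 0` for `i ≥ 1` -/
  b_spec : ∀ i : ℕ, 1 ≤ i → ∀ w ∈ Ω,
    DM F true (Z (1 - i)) w - Z (1 - i) w * mP F false w + b i w * Z (1 - i) w = 0
  /-- `H_(-i) = 2 H_(1-i) + D̄(b_(-i) - b_(1-i)) + [a, b_(-i) - b_(1-i)] - H_(2-i)`, `i ≥ 1` -/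
  H_neg : ∀ i : ℕ, 1 ≤ i → ∀ w ∈ Ω, H (-i) w =
    2 • H (1 - i) w + DM F false (fun w' => b i w' - b (i - 1) w') w +
      (mP F true w * (b i w - b (i - 1) w) - (b i w - b (i - 1) w) * mP F true w) - H (2 - i) w

/-- The system `u_xy = F` is of Liouville type on the open set `Ω` of jets: the kernels of the
`Z_k`, `k ≥ 1`, and of the `Z_(-i)`, `i ≥ 0`, and of their transposes, are invariant as required,
and some `Z_r`, `r ≥ 1`, and some `Z_(-s)`, `s ≥ 0`, vanish identically. -/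
def LiouvilleType (Ω : Set (Jet 𝕜 N)) : Prop :=
  ∃ L : LaplaceChain F Ω,
    (∀ k : ℕ, 1 ≤ k → KerInv F false Ω (mP F true) (L.Z k) ∧
      KerInv F true Ω (fun w => -(mP F false w).transpose) (fun w => (L.Z k w).transpose)) ∧
    (∀ i : ℕ, KerInv F true Ω (mP F false) (L.Z (-i)) ∧
      KerInv F false Ω (fun w => -(mP F true w).transpose) (fun w => (L.Z (-i) w).transpose)) ∧
    (∃ r : ℕ, 1 ≤ r ∧ ∀ w ∈ Ω, L.Z r w = 0) ∧
    ∃ s : ℕ, ∀ w ∈ Ω, L.Z (-s) w = 0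

/-- The coordinates `x`, `y`, `u` and the first `p` derivatives in direction `ε`. -/
def upTo (N : ℕ) (ε : Bool) (p : ℕ) : Set (Coord N) :=
  {c | (∃ e, c = .var e) ∨ (∃ i, c = .u i) ∨ ∃ n i, n < p ∧ c = .d ε n i}

/-- `IsIntegral F true O W`: `W` is a `y`-integral on the open set `O`, that is, a locally
analytic function of `x, y, u` and finitely many `x`-derivatives, with `D̄ W = 0`, which is (on
no nonempty open subset) a function of `x` alone. `IsIntegral F false O W`: `W` is an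
`x`-integral, with the roles of `x` and `y` exchanged. -/
structure IsIntegral (ε : Bool) (O : Set (Jet 𝕜 N)) (W : Jet 𝕜 N → 𝕜) : Prop where
  an : ∀ w ∈ O, LA W w
  dep : ∃ p : ℕ, ∀ w ∈ O, ∀ w' ∈ O, (∀ c ∈ upTo N ε p, w c = w' c) → W w = W w'
  D_eq : ∀ w ∈ O, Dt F (!ε) W w = 0
  nontrivial : ∀ O' ⊆ O, IsOpen O' → O'.Nonempty →
    ¬ ∃ φ : 𝕜 → 𝕜, ∀ w ∈ O', W w = φ (w (.var ε))

/-- The functions `D_ε^j (W i)`, `i : Fin N`, `j ≥ 0`, are functionally independent: at every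
point of `O` their gradients are linearly independent. -/
def Independent (ε : Bool) (O : Set (Jet 𝕜 N)) (W : Fin N → Jet 𝕜 N → 𝕜) : Prop :=
  ∀ w ∈ O, LinearIndependent 𝕜
    (fun p : Fin N × ℕ => fun c : Coord N => pd c ((Dt F ε)^[p.2] (W p.1)) w)

/-- The system is Darboux integrable on the open set `O` of jets: it has `N` independent
`y`-integrals and `N` independent `x`-integrals on `O`. -/
def DarbouxIntegrable (O : Set (Jet 𝕜 N)) : Prop :=
  (∃ W : Fin N → Jet 𝕜 N → 𝕜, (∀ i, IsIntegral F true O (W i)) ∧ Independent F true O W) ∧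
  (∃ W : Fin N → Jet 𝕜 N → 𝕜, (∀ i, IsIntegral F false O (W i)) ∧ Independent F false O W)

end

end Pool.Agent.Lib.MP_a322a8_mp
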