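import Pool.Agent.Lib.MP_a322a8_mp.Integ

/-!
Independence of the integrals, and the main theorem.
-/

set_option autoImplicit false

open Filter Topology
open scoped ContDiff

namespace Pool.Agent.Lib.MP_a322a8_mp

section Indep

variable {𝕜 : Type*} [RCLike 𝕜] {N : ℕ} {F : Base 𝕜 N → Fin N → 𝕜}

lemma LA.lineDeriv_sum {ι κ : Type*} (t : Finset κ) {f : κ → (ι → 𝕜) → 𝕜} {w : ι → 𝕜}
    (h : ∀ j, LA (f j) w) (v : ι → 𝕜) :
    _root_.lineDeriv 𝕜 (fun w' => ∑ j ∈ t, f j w') w v =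
      ∑ j ∈ t, _root_.lineDeriv 𝕜 (f j) w v := by
  classical
  induction t using Finset.induction_on with
  | empty => simpa using lineDeriv_fun_const (0 : 𝕜) w v
  | insert a t ha ih =>
    simp_rw [Finset.sum_insert ha]
    rw [(h a).lineDeriv_add (LA.sum t fun j _ => h j), ih]

lemma V_not_LAs {ε : Bool} {r : ℕ} {c : Coord N} (hc : c ∈ Mset N ε r) (w : Jet 𝕜 N) :
    LAs (Mset N ε (r + 1)) (fun w' => V F (!ε) w' c) w := by
  rw [mem_Mset] at hc
  rcases hc with ⟨e, rfl⟩ | ⟨i, rfl⟩ | ⟨n, i, hn, rfl⟩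
  · exact LAs.const _ _ _
  · exact LAs.coord (mem_Mset.mpr (Or.inr (Or.inr ⟨0, i, Nat.zero_le _, rfl⟩))) w
  · simp_rw [V_not_d_not]
    exact LAs.coord (mem_Mset.mpr (Or.inr (Or.inr ⟨n + 1, i, by omega, rfl⟩))) w

lemma Mset_mono {ε : Bool} {r : ℕ} : Mset N ε r ⊆ Mset N ε (r + 1) := by
  intro c hc
  rw [mem_Mset] at hc ⊢
  rcases hc with h | h | ⟨n, i, hn, h⟩
  · exact Or.inl h
  · exact Or.inr (Or.inl h)
  · exact Or.inr (Or.inr ⟨n, i, by omega, h⟩)

lemma q_not_mem {ε : Bool} {r n : ℕ} (h : r < n) (l : Fin N) :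
    Coord.d (!ε) n l ∉ Mset N ε r := by
  rw [mem_Mset]
  rintro (⟨e, h'⟩ | ⟨i, h'⟩ | ⟨m, i, hm, h'⟩)
  · cases h'
  · cases h'
  · simp only [Coord.d.injEq] at h'
    omega

lemma Dt_not_eventually {ε : Bool} {r : ℕ} {f : Jet 𝕜 N → 𝕜} {w : Jet 𝕜 N}
    (h : LAs (Mset N ε r) f w) :
    ∀ᶠ w' in 𝓝 w, Dt F (!ε) f w' = ∑ c ∈ Mset N ε r, V F (!ε) w' c * pd c f w' := by
  filter_upwards [h.eventually] with w' h'
  exact h'.lineDeriv_eq _

lemma Dt_not_LAs {ε : Bool} {r : ℕ} {f : Jet 𝕜 N → 𝕜} {w : Jet 𝕜 N}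
    (h : LAs (Mset N ε r) f w) : LAs (Mset N ε (r + 1)) (Dt F (!ε) f) w := by
  refine LAs.congr (f := fun w' => ∑ c ∈ Mset N ε r, V F (!ε) w' c * pd c f w') ?_
    (Dt_not_eventually h)
  exact LAs.sum _ fun c hc => (V_not_LAs hc w).mul ((h.pd c).mono Mset_mono)

lemma pd_Dt_not (F : Base 𝕜 N → Fin N → 𝕜) {ε : Bool} {r : ℕ} {f : Jet 𝕜 N → 𝕜} {w : Jet 𝕜 N}
    (h : LAs (Mset N ε r) f w) (l : Fin N) :
    pd (.d (!ε) (r + 1) l) (Dt F (!ε) f) w = pd (.d (!ε) r l) f w := by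
  classical
  set q : Coord N := .d (!ε) (r + 1) l with hq
  have hcong : pd q (Dt F (!ε) f) w =
      pd q (fun w' => ∑ c ∈ Mset N ε r, V F (!ε) w' c * pd c f w') w :=
    lineDeriv_congr (Dt_not_eventually h) _
  rw [hcong]
  have hsplit : ∀ c ∈ Mset N ε r, pd q (fun w' => V F (!ε) w' c * pd c f w') w =
      pd c f w * pd q (fun w' => V F (!ε) w' c) w := by
    intro c hc
    rw [pd, LA.lineDeriv_mul (V_not_LAs hc w).la (h.pd c).la]
    have h1 : pd q (pd c f) w = 0 := (h.pd c).pd_eq_zero (q_not_mem (Nat.lt_succ_self r) l)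
    rw [pd] at h1
    rw [h1, mul_zero, zero_add]
    rfl
  have hsum : pd q (fun w' => ∑ c ∈ Mset N ε r, V F (!ε) w' c * pd c f w') w =
      ∑ c ∈ Mset N ε r, pd q (fun w' => V F (!ε) w' c * pd c f w') w := by
    have h2 : ∀ t ⊆ Mset N ε r, pd q (fun w' => ∑ c ∈ t, V F (!ε) w' c * pd c f w') w =
        ∑ c ∈ t, pd q (fun w' => V F (!ε) w' c * pd c f w') w := by
      intro t
      induction t using Finset.induction_on with
      | empty =>
        intro _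
        simp only [Finset.sum_empty]
        exact lineDeriv_fun_const (0 : 𝕜) w _
      | insert a t ha ih =>
        intro ht
        have hLA : ∀ c ∈ Mset N ε r, LA (fun w' => V F (!ε) w' c * pd c f w') w := fun c hc =>
          (V_not_LAs hc w).la.mul (h.pd c).la
        have ht' : t ⊆ Mset N ε r := (Finset.subset_insert a t).trans ht
        simp_rw [Finset.sum_insert ha]
        rw [pd, LA.lineDeriv_add (hLA a (ht (Finset.mem_insert_self a t)))
          (LA.sum t fun c hc => hLA c (ht' hc)), ← ih ht']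
        rfl
    exact h2 _ (Finset.Subset.refl _)
  rw [hsum, Finset.sum_congr rfl hsplit]
  rw [Finset.sum_eq_single (Coord.d (!ε) r l)]
  · have h3 : pd q (fun w' => V F (!ε) w' (.d (!ε) r l)) w = 1 := by
      simp_rw [V_not_d_not]
      rw [pd_coord, if_pos hq]
    rw [h3, mul_one]
  · intro c hc hne
    have h3 : pd q (fun w' => V F (!ε) w' c) w = 0 := by
      rw [mem_Mset] at hc
      rcases hc with ⟨e, rfl⟩ | ⟨i, rfl⟩ | ⟨n, i, hn, rfl⟩
      · exact lineDeriv_fun_const _ _ _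
      · have h4 : (fun w' : Jet 𝕜 N => V F (!ε) w' (.u i)) = fun w' => w' (.d (!ε) 0 i) := rfl
        rw [h4, pd_coord, if_neg]
        rw [hq]
        intro h'
        simp only [Coord.d.injEq] at h'
        omega
      · simp_rw [V_not_d_not]
        rw [pd_coord, if_neg]
        rw [hq]
        intro h'
        apply hne
        simp only [Coord.d.injEq, true_and] at h'
        rw [h'.2, show n = r by omega]
    rw [h3, mul_zero]
  · intro h'
    exact absurd (mem_Mset.mpr (Or.inr (Or.inr ⟨r, l, le_rfl, rfl⟩))) h'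

lemma iter_LAs (F : Base 𝕜 N → Fin N → 𝕜) {ε : Bool} {r : ℕ} {f : Jet 𝕜 N → 𝕜} {w : Jet 𝕜 N}
    (h : LAs (Mset N ε r) f w) (j : ℕ) :
    LAs (Mset N ε (r + j)) ((Dt F (!ε))^[j] f) w ∧
      ∀ l, pd (.d (!ε) (r + j) l) ((Dt F (!ε))^[j] f) w = pd (.d (!ε) r l) f w := by
  induction j with
  | zero => exact ⟨h, fun _ => rfl⟩
  | succ j ih =>
    rw [Function.iterate_succ_apply']
    refine ⟨Dt_not_LAs ih.1, fun l => ?_⟩
    rw [← ih.2 l]
    exact pd_Dt_not F ih.1 l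

theorem indep_of_det {ε : Bool} {r : ℕ} {W : Fin N → Jet 𝕜 N → 𝕜} {w : Jet 𝕜 N}
    (h : ∀ i, LAs (Mset N ε r) (W i) w)
    (hdet : (Matrix.of fun i l => pd (Coord.d (!ε) r l) (W i) w).det ≠ 0) :
    LinearIndependent 𝕜
      (fun p : Fin N × ℕ => fun c : Coord N => pd c ((Dt F (!ε))^[p.2] (W p.1)) w) := by
  classical
  rw [linearIndependent_iff]
  intro l hl
  by_contra hne
  have hsupp : l.support.Nonempty := Finsupp.support_nonempty_iff.mpr hne
  obtain ⟨p0, hp0, hmax⟩ := l.support.exists_max_image Prod.snd hsupp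
  set j := p0.2 with hj
  rw [Finsupp.linearCombination_apply, Finsupp.sum] at hl
  have hvec : Matrix.vecMul (fun i => l (i, j))
      (Matrix.of fun i l => pd (Coord.d (!ε) r l) (W i) w) = 0 := by
    funext m
    have h1 := congrFun hl (.d (!ε) (r + j) m)
    rw [Finset.sum_apply, Pi.zero_apply] at h1
    rw [Pi.zero_apply, ← h1, Matrix.vecMul, dotProduct]
    have h2 : ∑ i : Fin N, l (i, j) * pd (Coord.d (!ε) r m) (W i) w =
        ∑ p ∈ (Finset.univ : Finset (Fin N)).image (fun i => (i, j)),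
          l p * pd (Coord.d (!ε) (r + j) m) ((Dt F (!ε))^[p.2] (W p.1)) w := by
      rw [Finset.sum_image (fun a _ b _ hab => (Prod.mk.inj hab).1)]
      exact Finset.sum_congr rfl fun i _ => by rw [(iter_LAs F (h i) j).2 m]
    change ∑ i : Fin N, l (i, j) * pd (Coord.d (!ε) r m) (W i) w = _
    rw [h2]
    have h3 : ∑ p ∈ (Finset.univ : Finset (Fin N)).image (fun i => (i, j)),
          l p * pd (Coord.d (!ε) (r + j) m) ((Dt F (!ε))^[p.2] (W p.1)) w =
        ∑ p ∈ (Finset.univ : Finset (Fin N)).image (fun i => (i, j)) ∪ l.support,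
          l p * pd (Coord.d (!ε) (r + j) m) ((Dt F (!ε))^[p.2] (W p.1)) w := by
      refine Finset.sum_subset Finset.subset_union_left fun p hp hp' => ?_
      have hps : p ∈ l.support := by
        rcases Finset.mem_union.mp hp with h | h
        · exact absurd h hp'
        · exact h
      have hpj : p.2 < j := by
        refine lt_of_le_of_ne (hmax p hps) fun h => hp' ?_
        exact Finset.mem_image.mpr ⟨p.1, Finset.mem_univ _, by rw [← h]⟩
      rw [(iter_LAs F (h p.1) p.2).1.pd_eq_zero (q_not_mem (by omega) m), mul_zero]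
    have h4 : ∑ p ∈ l.support, (l p • fun c : Coord N =>
          pd c ((Dt F (!ε))^[p.2] (W p.1)) w) (.d (!ε) (r + j) m) =
        ∑ p ∈ (Finset.univ : Finset (Fin N)).image (fun i => (i, j)) ∪ l.support,
          l p * pd (Coord.d (!ε) (r + j) m) ((Dt F (!ε))^[p.2] (W p.1)) w := by
      refine Finset.sum_subset Finset.subset_union_right fun p hp hp' => ?_
      rw [Pi.smul_apply, Finsupp.notMem_support_iff.mp hp', zero_smul]
    rw [h3, ← h4]
  have h5 := Matrix.eq_zero_of_vecMul_eq_zero hdet hvec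
  have h6 := congrFun h5 p0.1
  exact Finsupp.mem_support_iff.mp hp0 h6

theorem exists_integrals {Ω : Set (Jet 𝕜 N)} {ε : Bool} (C : FChain F Ω ε) (hΩ : IsOpen Ω)
    (hFΩ : ∀ w ∈ Ω, AnalyticAt 𝕜 F (base w)) (hne : Ω.Nonempty) (r : ℕ)
    (hr : ∀ w ∈ Ω, C.Z (r + 1) w = 0) :
    ∃ O ⊆ Ω, IsOpen O ∧ O.Nonempty ∧ ∃ W : Fin N → Jet 𝕜 N → 𝕜,
      (∀ i, IsIntegral F (!ε) O (W i)) ∧ Independent F (!ε) O W := by
  obtain ⟨w1, hw1, ⟨D⟩⟩ := exists_fieldData C hΩ hFΩ hne r hr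
  obtain ⟨W, hdep, hW⟩ := exists_integrals_near D
  obtain ⟨O, hO, hOo, hwO⟩ := eventually_nhds_iff.mp (hW.and (hΩ.mem_nhds hw1))
  refine ⟨O, fun w hw => (hO w hw).2, hOo, ⟨w1, hwO⟩, W, ?_, ?_⟩
  · intro i
    refine ⟨fun w hw => ((hO w hw).1.1 i).la, ⟨r + 1, fun w _ w' _ h => ?_⟩, fun w hw => ?_, ?_⟩
    · refine hdep i w w' fun c hc => h c ?_
      rw [mem_Mset] at hc
      rcases hc with h | h | ⟨n, m, hn, h⟩
      · exact Or.inl h
      · exact Or.inr (Or.inl h)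
      · exact Or.inr (Or.inr ⟨n, m, by omega, h⟩)
    · rw [Bool.not_not]
      exact (hO w hw).1.2.1 i
    · rintro O' hO' hO'o ⟨w, hw⟩ ⟨φ, hφ⟩
      refine (hO w (hO' hw)).1.2.2 ?_
      refine Matrix.det_eq_zero_of_row_eq_zero i fun l => ?_
      rw [Matrix.of_apply, pd]
      have h1 : ∀ᶠ w' in 𝓝 w, W i w' = φ (w' (.var (!ε))) := by
        filter_upwards [hO'o.mem_nhds hw] with w' hw' using hφ w' hw'
      rw [lineDeriv_congr h1, lineDeriv]
      simp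
  · intro w hw
    exact indep_of_det (hO w hw).1.1 (hO w hw).1.2.2

end Indep

section Main

variable {𝕜 : Type*} [RCLike 𝕜] {N : ℕ} {F : Base 𝕜 N → Fin N → 𝕜}

lemma KerInv.restrict {ε : Bool} {Ω O : Set (Jet 𝕜 N)}
    {M Z : Jet 𝕜 N → Matrix (Fin N) (Fin N) 𝕜} (h : KerInv F ε Ω M Z) (hO : O ⊆ Ω) :
    KerInv F ε O M Z := fun O' hO' => h O' (hO'.trans hO)

/-- Restriction of a chain. -/
def FChain.restrict {ε : Bool} {Ω O : Set (Jet 𝕜 N)} (C : FChain F Ω ε) (hO : O ⊆ Ω) :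
    FChain F O ε where
  A := C.A
  H := C.H
  Z := C.Z
  A_an k w hw := C.A_an k w (hO hw)
  A0 w hw := C.A0 w (hO hw)
  Z0 w hw := C.Z0 w (hO hw)
  Zs k w hw := C.Zs k w (hO hw)
  H1 w hw := C.H1 w (hO hw)
  Hs k w hw := C.Hs k w (hO hw)
  AZ k w hw := C.AZ k w (hO hw)
  ker k := (C.ker k).restrict hO

lemma IsIntegral.restrict {ε : Bool} {O O' : Set (Jet 𝕜 N)} {W : Jet 𝕜 N → 𝕜}
    (h : IsIntegral F ε O W) (hO : O' ⊆ O) : IsIntegral F ε O' W := by
  obtain ⟨h1, ⟨p, h2⟩, h3, h4⟩ := h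
  exact ⟨fun w hw => h1 w (hO hw), ⟨p, fun w hw w' hw' => h2 w (hO hw) w' (hO hw')⟩,
    fun w hw => h3 w (hO hw), fun O'' hO'' => h4 O'' (hO''.trans hO)⟩

/-- The positive half of the Laplace chain. -/
def LaplaceChain.pos {Ω : Set (Jet 𝕜 N)} (L : LaplaceChain F Ω)
    (hk : ∀ k : ℕ, 1 ≤ k → KerInv F true Ω (fun w => -(mP F false w).transpose)
      (fun w => (L.Z k w).transpose)) : FChain F Ω true where
  A := L.a
  H k := L.H k
  Z k := match k with
    | 0 => fun _ => 1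
    | k + 1 => L.Z ((k + 1 : ℕ) : ℤ)
  A_an k w hw i j := L.a_an k i j w hw
  A0 := L.a_zero
  Z0 _ _ := rfl
  Zs k w hw := by
    cases k with
    | zero =>
      change L.Z ((0 + 1 : ℕ) : ℤ) w = L.H ((0 + 1 : ℕ) : ℤ) w * 1
      rw [Matrix.mul_one]
      exact L.Z_one w hw
    | succ k =>
      have := L.Z_succ ((k + 1 : ℕ) : ℤ) (by push_cast; omega) w hw
      exact this
  H1 w hw := L.H_one w hw
  Hs k w hw := L.H_succ (k + 1) (Nat.le_add_left 1 k) w hw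
  AZ k w hw := L.a_spec (k + 1) (Nat.le_add_left 1 k) w hw
  ker k := hk (k + 1) (Nat.le_add_left 1 k)

lemma DM_sub {ε : Bool} {P Q : Jet 𝕜 N → Matrix (Fin N) (Fin N) 𝕜} {w : Jet 𝕜 N}
    (hP : MM P w) (hQ : MM Q w) :
    DM F ε (fun w' => P w' - Q w') w = DM F ε P w - DM F ε Q w := by
  ext i j
  exact (hP i j).lineDeriv_sub (hQ i j) _

lemma DM_congr {ε : Bool} {P Q : Jet 𝕜 N → Matrix (Fin N) (Fin N) 𝕜} {w : Jet 𝕜 N}
    (h : ∀ᶠ w' in 𝓝 w, P w' = Q w') : DM F ε P w = DM F ε Q w := by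
  ext i j
  exact lineDeriv_congr (f := fun w' => P w' i j) (f' := fun w' => Q w' i j)
    (h.mono fun w' hw' => by rw [hw']) _

lemma LaplaceChain.neg_rec {Ω : Set (Jet 𝕜 N)} (hΩ : IsOpen Ω) (L : LaplaceChain F Ω) (k : ℕ) :
    ∀ w ∈ Ω, L.H (-k) w = DM F false (L.b k) w + mP F true w * L.b k w -
      DM F true (mP F true) w - L.b k w * mP F true w + L.H (1 - k) w := by
  induction k with
  | zero =>
    intro w hw
    have h1 : DM F false (L.b 0) w = DM F false (mP F false) w :=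
      DM_congr (by filter_upwards [hΩ.mem_nhds hw] with w' hw' using L.b_zero w' hw')
    have h2 : (-((0 : ℕ) : ℤ)) = 0 := rfl
    have h3 : (1 - ((0 : ℕ) : ℤ)) = 1 := rfl
    rw [h2, h3, L.H_zero w hw, L.H_one w hw, h1, L.b_zero w hw]
    abel
  | succ k ih =>
    intro w hw
    have h1 := L.H_neg (k + 1) (Nat.le_add_left 1 k) w hw
    have h2 : (1 - ((k + 1 : ℕ) : ℤ)) = -(k : ℤ) := by push_cast; ring
    have h3 : (2 - ((k + 1 : ℕ) : ℤ)) = 1 - (k : ℤ) := by push_cast; ring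
    rw [h2, h3] at h1
    rw [Nat.add_sub_cancel] at h1
    have h4 : DM F false (fun w' => L.b (k + 1) w' - L.b k w') w =
        DM F false (L.b (k + 1)) w - DM F false (L.b k) w :=
      DM_sub (fun i j => L.b_an _ i j w hw) (fun i j => L.b_an _ i j w hw)
    rw [h4, mul_sub, sub_mul, two_smul] at h1
    rw [h1, h2]
    have h5 := ih w hw
    have h6 : L.H (1 - (k : ℤ)) w = L.H (-(k : ℤ)) w - DM F false (L.b k) w -
        mP F true w * L.b k w + DM F true (mP F true) w + L.b k w * mP F true w := by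
      rw [h5]
      abel
    rw [h6]
    abel

/-- The negative half of the Laplace chain, with the roles of `x` and `y` exchanged. -/
def LaplaceChain.neg {Ω : Set (Jet 𝕜 N)} (hΩ : IsOpen Ω) (L : LaplaceChain F Ω)
    (hk : ∀ k : ℕ, KerInv F false Ω (fun w => -(mP F true w).transpose)
      (fun w => (L.Z (-k) w).transpose)) : FChain F Ω false where
  A := L.b
  H k := L.H (1 - k)
  Z k := match k with
    | 0 => fun _ => 1
    | k + 1 => L.Z (-(k : ℤ))
  A_an k w hw i j := L.b_an k i j w hw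
  A0 := L.b_zero
  Z0 _ _ := rfl
  Zs k w hw := by
    cases k with
    | zero =>
      change L.Z (-((0 : ℕ) : ℤ)) w = L.H (1 - ((0 + 1 : ℕ) : ℤ)) w * 1
      rw [Matrix.mul_one]
      exact L.Z_zero w hw
    | succ k =>
      have := L.Z_neg ((k + 1 : ℕ) : ℤ) (by push_cast; omega) w hw
      have h2 : (1 - ((k + 1 : ℕ) : ℤ)) = -(k : ℤ) := by push_cast; ring
      have h3 : (1 - ((k + 1 + 1 : ℕ) : ℤ)) = -((k + 1 : ℕ) : ℤ) := by push_cast; ring
      rw [h2] at this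
      rw [h3]
      exact this
  H1 w hw := by
    have h3 : (1 - ((1 : ℕ) : ℤ)) = 0 := rfl
    rw [h3]
    exact L.H_zero w hw
  Hs k w hw := by
    have h2 : (1 - ((k + 2 : ℕ) : ℤ)) = -((k + 1 : ℕ) : ℤ) := by push_cast; ring
    rw [h2]
    exact L.neg_rec hΩ (k + 1) w hw
  AZ k w hw := by
    have h1 := L.b_spec (k + 1) (Nat.le_add_left 1 k) w hw
    have h2 : (1 - ((k + 1 : ℕ) : ℤ)) = -(k : ℤ) := by push_cast; ring
    rw [h2] at h1
    change L.Z (-(k : ℤ)) w * mP F false w =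
      DM F true (L.Z (-(k : ℤ))) w + L.b (k + 1) w * L.Z (-(k : ℤ)) w
    rw [← sub_eq_zero, ← neg_eq_zero, ← h1]
    abel
  ker k := hk k

/-- Main theorem. -/
theorem main {Ω : Set (Jet 𝕜 N)} (hΩ : IsOpen Ω) (hFΩ : ∀ w ∈ Ω, AnalyticAt 𝕜 F (base w))
    (hL : LiouvilleType F Ω) {Ω₁ : Set (Jet 𝕜 N)} (hΩ₁ : Ω₁ ⊆ Ω) (hΩ₁o : IsOpen Ω₁)
    (hne : Ω₁.Nonempty) : ∃ O ⊆ Ω₁, IsOpen O ∧ O.Nonempty ∧ DarbouxIntegrable F O := by
  obtain ⟨L, hpos, hneg, ⟨r, hr1, hr⟩, s, hs⟩ := hL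
  obtain ⟨r', rfl⟩ : ∃ r', r = r' + 1 := ⟨r - 1, by omega⟩
  obtain ⟨O1, hO1, hO1o, hO1n, W1, hW1, hI1⟩ := exists_integrals
    ((L.pos fun k hk => (hpos k hk).2).restrict hΩ₁) hΩ₁o (fun w hw => hFΩ w (hΩ₁ hw)) hne r'
    (fun w hw => hr w (hΩ₁ hw))
  obtain ⟨O2, hO2, hO2o, hO2n, W2, hW2, hI2⟩ := exists_integrals
    ((L.neg hΩ fun k => (hneg k).2).restrict (hO1.trans hΩ₁)) hO1o
    (fun w hw => hFΩ w (hΩ₁ (hO1 hw))) hO1n s (fun w hw => hs w (hΩ₁ (hO1 hw)))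
  refine ⟨O2, hO2.trans hO1, hO2o, hO2n, ⟨W2, hW2, hI2⟩, ⟨W1, ?_, ?_⟩⟩
  · exact fun i => (hW1 i).restrict hO2
  · exact fun w hw => hI1 w (hO2 hw)

end Main

end Pool.Agent.Lib.MP_a322a8_mp
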