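import Pool.Agent.Lib.MP_a322a8_mp.LA
import Pool.Agent.Lib.MP_a322a8_mp.Alg

/-!
The differential field of quotients of locally analytic germs.
-/

set_option autoImplicit false

open Filter Topology
open scoped ContDiff

namespace Pool.Agent.Lib.MP_a322a8_mp

section Dom

variable {𝕜 : Type*} [RCLike 𝕜] {E : Type*} [NormedAddCommGroup E] [NormedSpace 𝕜 E]

lemma analytic_zero_or_zero {g g' : E → 𝕜} {p : E} (hg : AnalyticAt 𝕜 g p)
    (hg' : AnalyticAt 𝕜 g' p) (h : ∀ᶠ v in 𝓝 p, g v * g' v = 0) :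
    (∀ᶠ v in 𝓝 p, g v = 0) ∨ ∀ᶠ v in 𝓝 p, g' v = 0 := by
  by_contra hne
  push Not at hne
  obtain ⟨h1, h2⟩ := hne
  let _ : NormedSpace ℝ E := NormedSpace.restrictScalars ℝ 𝕜 E
  obtain ⟨ε, hε, hB⟩ : ∃ ε > 0, ∀ v ∈ Metric.ball p ε, AnalyticAt 𝕜 g v ∧ AnalyticAt 𝕜 g' v ∧
      g v * g' v = 0 := Metric.eventually_nhds_iff_ball.mp
    (hg.eventually_analyticAt.and (hg'.eventually_analyticAt.and h))
  have hmem : Metric.ball p ε ∈ 𝓝 p := Metric.ball_mem_nhds p hε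
  obtain ⟨v, hv, hvB⟩ := (h2.and_eventually (f := 𝓝 p) (q := fun v => v ∈ Metric.ball p ε) hmem).exists
  have h3 : g =ᶠ[𝓝 v] 0 := by
    have h4 : ∀ᶠ v' in 𝓝 v, g' v' ≠ 0 := (hB v hvB).2.1.continuousAt.eventually_ne hv
    filter_upwards [h4, Metric.isOpen_ball.mem_nhds hvB] with v' h5 h6
    exact (mul_eq_zero.mp (hB v' h6).2.2).resolve_right h5
  have h5 : Set.EqOn g 0 (Metric.ball p ε) :=
    AnalyticOnNhd.eqOn_zero_of_preconnected_of_eventuallyEq_zero (fun v hv => (hB v hv).1)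
      (convex_ball p ε).isPreconnected hvB h3
  exact h1 (by filter_upwards [hmem] with v hv hne using hne (h5 hv))

variable {ι : Type*} [DecidableEq ι]

/-- Extension of finitely many coordinates by a base point. -/
def extd (w0 : ι → 𝕜) (s : Finset ι) (v : s → 𝕜) : ι → 𝕜 :=
  fun i => if h : i ∈ s then v ⟨i, h⟩ else w0 i

lemma res_extd (w0 : ι → 𝕜) (s : Finset ι) (v : s → 𝕜) : res 𝕜 s (extd w0 s v) = v := by
  funext i
  rw [res_apply, extd, dif_pos i.2]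

lemma extd_res (w0 : ι → 𝕜) (s : Finset ι) : extd w0 s (res 𝕜 s w0) = w0 := by
  funext i
  rw [extd]
  split_ifs <;> rfl

lemma continuous_extd (w0 : ι → 𝕜) (s : Finset ι) : Continuous (extd w0 s) := by
  refine continuous_pi fun i => ?_
  unfold extd
  split_ifs with h
  · exact continuous_apply _
  · exact continuous_const

lemma eventually_res {w0 : ι → 𝕜} {s : Finset ι} {P : (s → 𝕜) → Prop}
    (h : ∀ᶠ w in 𝓝 w0, P (res 𝕜 s w)) : ∀ᶠ v in 𝓝 (res 𝕜 s w0), P v := by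
  have h1 : Tendsto (extd w0 s) (𝓝 (res 𝕜 s w0)) (𝓝 w0) := by
    have := (continuous_extd w0 s).tendsto (res 𝕜 s w0)
    rwa [extd_res] at this
  filter_upwards [h1.eventually h] with v hv
  rwa [res_extd] at hv

lemma LA_zero_or_zero {f f' : (ι → 𝕜) → 𝕜} {w0 : ι → 𝕜} (hf : LA f w0) (hf' : LA f' w0)
    (h : ∀ᶠ w in 𝓝 w0, f w * f' w = 0) :
    (∀ᶠ w in 𝓝 w0, f w = 0) ∨ ∀ᶠ w in 𝓝 w0, f' w = 0 := by
  obtain ⟨s, ⟨g, hg, hfg⟩, ⟨g', hg', hfg'⟩⟩ := LAs.common hf hf'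
  have h1 : ∀ᶠ v in 𝓝 (res 𝕜 s w0), g v * g' v = 0 := by
    refine eventually_res (P := fun v => g v * g' v = 0) ?_
    filter_upwards [h, hfg, hfg'] with w h1 h2 h3
    rwa [← h2, ← h3]
  rcases analytic_zero_or_zero hg hg' h1 with h2 | h2
  · left
    filter_upwards [hfg, (res 𝕜 s).continuous.continuousAt.eventually h2] with w h3 h4
    rw [h3, h4]
  · right
    filter_upwards [hfg', (res 𝕜 s).continuous.continuousAt.eventually h2] with w h3 h4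
    rw [h3, h4]

omit [DecidableEq ι] in
lemma not_ev_one (w0 : ι → 𝕜) : ¬ ∀ᶠ _w in 𝓝 w0, (1 : 𝕜) = 0 :=
  fun h => one_ne_zero h.self_of_nhds

/-- The filter of generic points near `w0`. -/
def Gen (w0 : ι → 𝕜) : Filter (ι → 𝕜) where
  sets := {S | ∃ g : (ι → 𝕜) → 𝕜, LA g w0 ∧ ¬ (∀ᶠ w in 𝓝 w0, g w = 0) ∧ ∀ᶠ w in 𝓝 w0, g w ≠ 0 → w ∈ S}
  univ_sets := ⟨fun _ => 1, LA.const 1 w0, not_ev_one w0, by simp⟩
  sets_of_superset := by
    rintro S T ⟨g, h1, h2, h3⟩ hST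
    exact ⟨g, h1, h2, by filter_upwards [h3] with w h hw using hST (h hw)⟩
  inter_sets := by
    rintro S T ⟨g, h1, h2, h3⟩ ⟨g', h1', h2', h3'⟩
    refine ⟨fun w => g w * g' w, h1.mul h1', ?_, ?_⟩
    · intro h
      rcases LA_zero_or_zero h1 h1' h with h | h
      · exact h2 h
      · exact h2' h
    · filter_upwards [h3, h3'] with w h h' hw
      exact ⟨h (left_ne_zero_of_mul hw), h' (right_ne_zero_of_mul hw)⟩

lemma eventually_gen {w0 : ι → 𝕜} {P : (ι → 𝕜) → Prop} : (∀ᶠ w in Gen w0, P w) ↔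
    ∃ g : (ι → 𝕜) → 𝕜, LA g w0 ∧ ¬ (∀ᶠ w in 𝓝 w0, g w = 0) ∧
      ∀ᶠ w in 𝓝 w0, g w ≠ 0 → P w := Iff.rfl

lemma Gen_of_nhds {w0 : ι → 𝕜} {P : (ι → 𝕜) → Prop} (h : ∀ᶠ w in 𝓝 w0, P w) :
    ∀ᶠ w in Gen w0, P w := by
  rw [eventually_gen]
  exact ⟨fun _ => 1, LA.const 1 w0, not_ev_one w0, by filter_upwards [h] with w h _ using h⟩

instance Gen_neBot (w0 : ι → 𝕜) : (Gen w0).NeBot := by
  rw [Filter.neBot_iff, Ne, ← Filter.empty_mem_iff_bot]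
  rintro ⟨g, _, h2, h3⟩
  refine h2 ?_
  filter_upwards [h3] with w h
  by_contra hw
  exact h hw

lemma Gen_open {w0 : ι → 𝕜} {P : (ι → 𝕜) → Prop} (h : ∀ᶠ w in Gen w0, P w) :
    ∀ᶠ w in Gen w0, ∀ᶠ w' in 𝓝 w, P w' := by
  rw [eventually_gen] at h ⊢
  obtain ⟨g, h1, h2, h3⟩ := h
  refine ⟨g, h1, h2, ?_⟩
  filter_upwards [h1.eventually, h3.eventually_nhds] with w h4 h5 hw
  filter_upwards [h4.continuousAt.eventually_ne hw, h5] with w' h6 h7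
  exact h7 h6

lemma Gen_ne {w0 : ι → 𝕜} {d : (ι → 𝕜) → 𝕜} (hd : LA d w0) (hd0 : ¬ ∀ᶠ w in 𝓝 w0, d w = 0) :
    ∀ᶠ w in Gen w0, d w ≠ 0 := by
  rw [eventually_gen]
  exact ⟨d, hd, hd0, Eventually.of_forall fun _ h => h⟩

/-- Quotients of locally analytic functions. -/
def Mer (w0 : ι → 𝕜) (f : (ι → 𝕜) → 𝕜) : Prop :=
  ∃ n d : (ι → 𝕜) → 𝕜, LA n w0 ∧ LA d w0 ∧ (¬ ∀ᶠ w in 𝓝 w0, d w = 0) ∧
    ∀ᶠ w in Gen w0, f w = n w / d w

variable {w0 : ι → 𝕜} {f f' : (ι → 𝕜) → 𝕜}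

lemma LA.mer (h : LA f w0) : Mer w0 f :=
  ⟨f, fun _ => 1, h, LA.const 1 w0, not_ev_one w0, by simp⟩

lemma Mer.congr (h : Mer w0 f) (h' : ∀ᶠ w in Gen w0, f' w = f w) : Mer w0 f' := by
  obtain ⟨n, d, h1, h2, h3, h4⟩ := h
  exact ⟨n, d, h1, h2, h3, by filter_upwards [h4, h'] with w h5 h6; rw [h6, h5]⟩

lemma Mer.la (h : Mer w0 f) : ∀ᶠ w in Gen w0, LA f w := by
  obtain ⟨n, d, h1, h2, h3, h4⟩ := h
  filter_upwards [Gen_open h4, Gen_of_nhds h1.eventually, Gen_of_nhds h2.eventually,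
    Gen_ne h2 h3] with w h5 h6 h7 h8
  exact (h6.div h7 h8).congr h5

lemma not_ev_mul {d d' : (ι → 𝕜) → 𝕜} (hd : LA d w0) (hd' : LA d' w0)
    (h : ¬ ∀ᶠ w in 𝓝 w0, d w = 0) (h' : ¬ ∀ᶠ w in 𝓝 w0, d' w = 0) :
    ¬ ∀ᶠ w in 𝓝 w0, d w * d' w = 0 := fun h0 =>
  (LA_zero_or_zero hd hd' h0).elim h h'

lemma Mer.add (h : Mer w0 f) (h' : Mer w0 f') : Mer w0 (fun w => f w + f' w) := by
  obtain ⟨n, d, h1, h2, h3, h4⟩ := h
  obtain ⟨n', d', h1', h2', h3', h4'⟩ := h'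
  refine ⟨fun w => n w * d' w + d w * n' w, fun w => d w * d' w,
    (h1.mul h2').add (h2.mul h1'), h2.mul h2', not_ev_mul h2 h2' h3 h3', ?_⟩
  filter_upwards [h4, h4', Gen_ne h2 h3, Gen_ne h2' h3'] with w h5 h6 h7 h8
  rw [h5, h6, div_add_div _ _ h7 h8]

lemma Mer.mul (h : Mer w0 f) (h' : Mer w0 f') : Mer w0 (fun w => f w * f' w) := by
  obtain ⟨n, d, h1, h2, h3, h4⟩ := h
  obtain ⟨n', d', h1', h2', h3', h4'⟩ := h'
  refine ⟨fun w => n w * n' w, fun w => d w * d' w,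
    h1.mul h1', h2.mul h2', not_ev_mul h2 h2' h3 h3', ?_⟩
  filter_upwards [h4, h4'] with w h5 h6
  rw [h5, h6, div_mul_div_comm]

lemma Mer.neg (h : Mer w0 f) : Mer w0 (fun w => -f w) := by
  obtain ⟨n, d, h1, h2, h3, h4⟩ := h
  refine ⟨fun w => -n w, d, h1.neg, h2, h3, ?_⟩
  filter_upwards [h4] with w h5
  rw [h5, neg_div]

lemma Mer.inv (h : Mer w0 f) (h0 : ¬ ∀ᶠ w in Gen w0, f w = 0) : Mer w0 (fun w => (f w)⁻¹) := by
  obtain ⟨n, d, h1, h2, h3, h4⟩ := h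
  refine ⟨d, n, h2, h1, ?_, ?_⟩
  · intro h
    apply h0
    filter_upwards [Gen_of_nhds h, h4] with w h5 h6
    rw [h6, h5, zero_div]
  · filter_upwards [h4] with w h5
    rw [h5, inv_div]

lemma Mer.ne_zero (h : Mer w0 f) (h0 : ¬ ∀ᶠ w in Gen w0, f w = 0) :
    ∀ᶠ w in Gen w0, f w ≠ 0 := by
  obtain ⟨n, d, h1, h2, h3, h4⟩ := h
  have h5 : ¬ ∀ᶠ w in 𝓝 w0, n w = 0 := by
    intro h
    apply h0
    filter_upwards [Gen_of_nhds h, h4] with w h5 h6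
    rw [h6, h5, zero_div]
  filter_upwards [Gen_ne h1 h5, Gen_ne h2 h3, h4] with w h6 h7 h8
  rw [h8]
  exact div_ne_zero h6 h7

lemma Gen_lineDeriv (h : ∀ᶠ w in Gen w0, f w = f' w) :
    ∀ᶠ w in Gen w0, ∀ v, lineDeriv 𝕜 f w v = lineDeriv 𝕜 f' w v := by
  filter_upwards [Gen_open h] with w hw v
  exact lineDeriv_congr hw v

lemma Mer.lineDeriv (h : Mer w0 f) {V : (ι → 𝕜) → (ι → 𝕜)} (hV : ∀ c, LA (fun w => V w c) w0) :
    Mer w0 (fun w => lineDeriv 𝕜 f w (V w)) := by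
  have hla := h.la
  obtain ⟨n, d, h1, h2, h3, h4⟩ := h
  refine ⟨fun w => d w * _root_.lineDeriv 𝕜 n w (V w) - n w * _root_.lineDeriv 𝕜 d w (V w),
    fun w => d w * d w, (h2.mul (h1.lineDeriv hV)).sub (h1.mul (h2.lineDeriv hV)), h2.mul h2,
    not_ev_mul h2 h2 h3 h3, ?_⟩
  filter_upwards [hla, Gen_open h4, Gen_of_nhds h1.eventually, Gen_of_nhds h2.eventually,
    Gen_open (Gen_ne h2 h3)] with w h5 h6 h7 h8 h9
  have h10 : ∀ᶠ w' in 𝓝 w, n w' = f w' * d w' := by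
    filter_upwards [h6, h9] with w' h11 h12
    rw [h11, div_mul_cancel₀ _ h12]
  have h11 := lineDeriv_congr h10 (V w)
  rw [h5.lineDeriv_mul h8] at h11
  have h12 := h9.self_of_nhds
  have h13 := h10.self_of_nhds
  rw [eq_div_iff (mul_ne_zero h12 h12), h11, h13]
  ring

variable (w0) in
/-- The ring of germs of quotients. -/
def KK : Subring (Germ (Gen w0) 𝕜) where
  carrier := {φ | ∃ f : (ι → 𝕜) → 𝕜, Mer w0 f ∧ (f : Germ (Gen w0) 𝕜) = φ}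
  mul_mem' := by
    rintro _ _ ⟨f, hf, rfl⟩ ⟨f', hf', rfl⟩
    exact ⟨_, hf.mul hf', rfl⟩
  one_mem' := ⟨fun _ => 1, (LA.const 1 w0).mer, rfl⟩
  add_mem' := by
    rintro _ _ ⟨f, hf, rfl⟩ ⟨f', hf', rfl⟩
    exact ⟨_, hf.add hf', rfl⟩
  zero_mem' := ⟨fun _ => 0, (LA.const 0 w0).mer, rfl⟩
  neg_mem' := by
    rintro _ ⟨f, hf, rfl⟩
    exact ⟨_, hf.neg, rfl⟩

lemma isField_KK : IsField (KK w0) where
  exists_pair_ne := ⟨0, 1, by
    intro h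
    have h1 : ((fun _ => 0 : (ι → 𝕜) → 𝕜) : Germ (Gen w0) 𝕜) = (fun _ => 1 : (ι → 𝕜) → 𝕜) :=
      congrArg Subtype.val h
    rw [Germ.coe_eq] at h1
    obtain ⟨w, hw⟩ := h1.exists
    exact zero_ne_one hw⟩
  mul_comm := mul_comm
  mul_inv_cancel := by
    rintro ⟨_, f, hf, rfl⟩ h0
    have h1 : ¬ ∀ᶠ w in Gen w0, f w = 0 := by
      intro h
      apply h0
      apply Subtype.ext
      exact Germ.coe_eq.mpr h
    refine ⟨⟨_, _, hf.inv h1, rfl⟩, ?_⟩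
    apply Subtype.ext
    refine Germ.coe_eq.mpr ?_
    filter_upwards [hf.ne_zero h1] with w hw
    exact mul_inv_cancel₀ hw

variable (w0) in
/-- `K` is the field of germs of quotients of locally analytic functions at `w0`. -/
structure GF (K : Type*) [Field K] where
  el : (f : (ι → 𝕜) → 𝕜) → Mer w0 f → K
  el_eq : ∀ {f f'} {hf : Mer w0 f} {hf' : Mer w0 f'},
    el f hf = el f' hf' ↔ ∀ᶠ w in Gen w0, f w = f' w
  exists_rep : ∀ φ : K, ∃ (f : (ι → 𝕜) → 𝕜) (hf : Mer w0 f), el f hf = φ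
  el_add : ∀ {f f'} (hf : Mer w0 f) (hf' : Mer w0 f'), el f hf + el f' hf' = el _ (hf.add hf')
  el_mul : ∀ {f f'} (hf : Mer w0 f) (hf' : Mer w0 f'), el f hf * el f' hf' = el _ (hf.mul hf')
  el_neg : ∀ {f} (hf : Mer w0 f), -el f hf = el _ hf.neg
  el_zero : el (fun _ => 0) (LA.const 0 w0).mer = 0
  el_one : el (fun _ => 1) (LA.const 1 w0).mer = 1

variable (w0) in
/-- The standard model. -/
noncomputable def GFstd : @GF 𝕜 _ ι _ w0 (KK w0) isField_KK.toField :=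
  @GF.mk 𝕜 _ ι _ w0 (KK w0) isField_KK.toField
    (fun f hf => ⟨(f : Germ (Gen w0) 𝕜), f, hf, rfl⟩)
    (by
      intro f f' hf hf'
      constructor
      · intro h
        exact Germ.coe_eq.mp (congrArg Subtype.val h)
      · intro h
        exact Subtype.ext (Germ.coe_eq.mpr h))
    (by
      rintro ⟨_, f, hf, rfl⟩
      exact ⟨f, hf, rfl⟩)
    (fun _ _ => rfl) (fun _ _ => rfl) (fun _ => rfl) rfl rfl

end Dom

end Pool.Agent.Lib.MP_a322a8_mp
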