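import Pool.Agent.Lib.MP_a322a8_mp.Out

/-!
Construction of the integrals.
-/

set_option autoImplicit false

open Filter Topology
open scoped ContDiff

namespace Pool.Agent.Lib.MP_a322a8_mp

section Integ

variable {𝕜 : Type*} [RCLike 𝕜] {N : ℕ} {F : Base 𝕜 N → Fin N → 𝕜}

lemma FieldData.E_subset {ε : Bool} {r : ℕ} {w1 : Jet 𝕜 N} (D : FieldData F ε r w1) :
    D.E ⊆ Mset N ε r := by
  intro e he
  rw [mem_Mset]
  rcases D.E_sub e he with h | h | ⟨n, i, hn, h⟩
  · exact Or.inl ⟨ε, h⟩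
  · exact Or.inr (Or.inl h)
  · exact Or.inr (Or.inr ⟨n, i, hn.le, h⟩)

lemma fderiv_extd {ι : Type*} [DecidableEq ι] {s : Finset ι} (L : (s → 𝕜) →L[𝕜] 𝕜) (w : ι → 𝕜)
    (x : s → 𝕜) : L x = ∑ c ∈ s, extd w s x c * L (res 𝕜 s (Pi.single c 1)) := by
  conv_lhs => rw [← res_extd w s x, res_eq_sum, map_sum]
  exact Finset.sum_congr rfl fun c _ => by rw [map_smul, smul_eq_mul]

theorem exists_integrals_near {ε : Bool} {r : ℕ} {w1 : Jet 𝕜 N} (D : FieldData F ε r w1) :
    ∃ W : Fin N → Jet 𝕜 N → 𝕜,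
      (∀ i w w', (∀ c ∈ Mset N ε r, w c = w' c) → W i w = W i w') ∧
      ∀ᶠ w in 𝓝 w1, (∀ i, LAs (Mset N ε r) (W i) w) ∧ (∀ i, Dt F ε (W i) w = 0) ∧
        (Matrix.of fun i l => pd (Coord.d (!ε) r l) (W i) w).det ≠ 0 := by
  classical
  set S := Mset N ε r with hS
  have hES : D.E ⊆ S := D.E_subset
  have hex : ∀ e c, ∃ g : (S → 𝕜) → 𝕜, e ∈ D.E → c ∈ S → AnalyticAt 𝕜 g (res 𝕜 S w1) ∧
      ∀ᶠ w in 𝓝 w1, D.h e c w = g (res 𝕜 S w) := by
    intro e c
    by_cases he : e ∈ D.E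
    · by_cases hc : c ∈ S
      · obtain ⟨g, hg, hfg⟩ := D.an e he c hc
        exact ⟨g, fun _ _ => ⟨hg, hfg⟩⟩
      · exact ⟨0, fun _ h => absurd h hc⟩
    · exact ⟨0, fun h => absurd h he⟩
  choose g hg using hex
  set p1 := res 𝕜 S w1 with hp1
  let X : Coord N → (S → 𝕜) → (S → 𝕜) := fun e v c => g e c v
  let t : Coord N → (S → 𝕜) →L[𝕜] 𝕜 := fun e =>
    if h : e ∈ S then ContinuousLinearMap.proj (R := 𝕜) (φ := fun _ : S => 𝕜) (⟨e, h⟩ : S) else 0
  have ht : ∀ (e : Coord N) (h : e ∈ S) (x : S → 𝕜), t e x = x ⟨e, h⟩ := by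
    intro e h x
    simp only [t, dif_pos h]
    rfl
  have hXa : ∀ e ∈ D.E, AnalyticAt 𝕜 (X e) p1 := by
    intro e he
    rw [analyticAt_pi_iff]
    intro c
    exact (hg e c he c.2).1
  -- function level representation
  have hrep : ∀ᶠ w in 𝓝 w1, ∀ e ∈ D.E, ∀ c ∈ S, D.h e c w = g e c (res 𝕜 S w) := by
    rw [Filter.eventually_all_finset]
    intro e he
    rw [Filter.eventually_all_finset]
    intro c hc
    exact (hg e c he hc).2
  have hrepd : ∀ᶠ w in 𝓝 w1, ∀ e ∈ D.E, ∀ c ∈ S, ∀ v,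
      lineDeriv 𝕜 (D.h e c) w v = fderiv 𝕜 (g e c) (res 𝕜 S w) (res 𝕜 S v) := by
    rw [Filter.eventually_all_finset]
    intro e he
    rw [Filter.eventually_all_finset]
    intro c hc
    exact eventually_lineDeriv (hg e c he hc).1 (hg e c he hc).2
  have hdual : ∀ e ∈ D.E, ∀ e' ∈ D.E, ∀ᶠ v in 𝓝 p1, t e (X e' v) = if e = e' then 1 else 0 := by
    intro e he e' he'
    refine eventually_res (P := fun v => t e (X e' v) = if e = e' then 1 else 0) ?_
    filter_upwards [hrep, D.delta e' he' e he] with w h1 h2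
    rw [ht e (hES he)]
    change g e' e (res 𝕜 S w) = _
    rw [← h1 e' he' e (hES he), h2]
    simp only [eq_comm]
  have hbr : ∀ e ∈ D.E, ∀ e' ∈ D.E,
      ∀ᶠ v in 𝓝 p1, VectorField.lieBracket 𝕜 (X e) (X e') v = 0 := by
    intro e he e' he'
    have h1 : ∀ᶠ v in 𝓝 p1, ∀ c : S, fderiv 𝕜 (g e' c) v (X e v) = fderiv 𝕜 (g e c) v (X e' v) := by
      refine eventually_res
        (P := fun v => ∀ c : S, fderiv 𝕜 (g e' c) v (X e v) = fderiv 𝕜 (g e c) v (X e' v)) ?_
      have h2 : ∀ᶠ w in 𝓝 w1, ∀ c ∈ S, ∑ c' ∈ S, D.h e c' w * pd c' (D.h e' c) w =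
          ∑ c' ∈ S, D.h e' c' w * pd c' (D.h e c) w := by
        rw [Filter.eventually_all_finset]
        intro c hc
        exact D.comm e he e' he' c hc
      filter_upwards [hrep, hrepd, h2] with w h3 h4 h5 c
      have h6 : ∀ a ∈ D.E, ∀ b ∈ D.E, fderiv 𝕜 (g b c) (res 𝕜 S w) (X a (res 𝕜 S w)) =
          ∑ c' ∈ S, D.h a c' w * pd c' (D.h b c) w := by
        intro a ha b hb
        rw [fderiv_extd _ w (X a (res 𝕜 S w))]
        refine Finset.sum_congr rfl fun c' hc' => ?_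
        rw [extd, dif_pos hc', h3 a ha c' hc', pd, h4 b hb c c.2]
      rw [h6 e he e' he', h6 e' he' e he]
      exact h5 c c.2
    filter_upwards [h1, (hXa e he).eventually_analyticAt, (hXa e' he').eventually_analyticAt]
      with v h2 h3 h4
    funext c
    rw [VectorField.lieBracket, Pi.sub_apply, Pi.zero_apply, sub_eq_zero]
    have h5 : ∀ (Y : (S → 𝕜) → (S → 𝕜)), DifferentiableAt 𝕜 Y v → ∀ u,
        fderiv 𝕜 Y v u c = fderiv 𝕜 (fun v => Y v c) v u := by
      intro Y hY u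
      rw [fderiv_apply hY]
      rfl
    rw [h5 _ h4.differentiableAt, h5 _ h3.differentiableAt]
    exact h2 c
  have hq : ∀ i, Coord.d (!ε) r i ∈ S := fun i => mem_Mset.mpr (Or.inr (Or.inr ⟨r, i, le_rfl, rfl⟩))
  have hfr : ∀ i : Fin N, ∃ W : (S → 𝕜) → 𝕜, AnalyticAt 𝕜 W p1 ∧
      (∀ e ∈ D.E, ∀ᶠ v in 𝓝 p1, fderiv 𝕜 W v (X e v) = 0) ∧
      fderiv 𝕜 W p1 = t (.d (!ε) r i) - ∑ e ∈ D.E, (t (.d (!ε) r i) (X e p1)) • t e := by
    intro i
    obtain ⟨W, h1, h2, h3⟩ := frobenius D.E X t hXa hdual hbr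
      (f := fun v => t (.d (!ε) r i) v) ((t (.d (!ε) r i)).analyticAt p1)
    refine ⟨W, h1, h2, ?_⟩
    rw [h3, ContinuousLinearMap.fderiv]
  choose W hWa hW0 hWp using hfr
  refine ⟨fun i w => W i (res 𝕜 S w), ?_, ?_⟩
  · intro i w w' h
    have : res 𝕜 S w = res 𝕜 S w' := by
      funext c
      exact h c c.2
    simp only [this]
  have hLA1 : ∀ i, LAs S (fun w => W i (res 𝕜 S w)) w1 := fun i =>
    ⟨W i, hWa i, Eventually.of_forall fun _ => rfl⟩
  have hLA : ∀ᶠ w in 𝓝 w1, ∀ i, LAs S (fun w => W i (res 𝕜 S w)) w := by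
    rw [Filter.eventually_all]
    exact fun i => (hLA1 i).eventually
  have hDt : ∀ᶠ w in 𝓝 w1, ∀ i, Dt F ε (fun w => W i (res 𝕜 S w)) w = 0 := by
    rw [Filter.eventually_all]
    intro i
    have h1 : ∀ᶠ w in 𝓝 w1, ∀ e ∈ D.E, fderiv 𝕜 (W i) (res 𝕜 S w) (X e (res 𝕜 S w)) = 0 := by
      rw [Filter.eventually_all_finset]
      intro e he
      exact (res 𝕜 S).continuous.continuousAt.eventually (hW0 i e he)
    have h2 := eventually_lineDeriv (hWa i) (Eventually.of_forall fun w => rfl :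
      ∀ᶠ w in 𝓝 w1, (fun w => W i (res 𝕜 S w)) w = W i (res 𝕜 S w))
    have h3 : ∀ᶠ w in 𝓝 w1, ∀ c ∈ S, V F ε w c = ∑ e ∈ D.E, V F ε w e * D.h e c w := by
      rw [Filter.eventually_all_finset]
      exact D.V_eq
    filter_upwards [h1, h2, h3, hrep] with w h4 h5 h6 h7
    rw [Dt, h5]
    have h8 : res 𝕜 S (V F ε w) = ∑ e ∈ D.E, V F ε w e • X e (res 𝕜 S w) := by
      funext c
      rw [res_apply, h6 c c.2, Finset.sum_apply]
      refine Finset.sum_congr rfl fun e he => ?_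
      rw [Pi.smul_apply, smul_eq_mul, h7 e he c c.2]
    rw [h8, map_sum]
    refine Finset.sum_eq_zero fun e he => ?_
    rw [map_smul, h4 e he, smul_zero]
  have hdet : ∀ᶠ w in 𝓝 w1,
      (Matrix.of fun i l => pd (Coord.d (!ε) r l) (fun w => W i (res 𝕜 S w)) w).det ≠ 0 := by
    have hc : ContinuousAt (fun w => (Matrix.of fun i l =>
        pd (Coord.d (!ε) r l) (fun w => W i (res 𝕜 S w)) w).det) w1 := by
      have h1 : ContinuousAt (fun w => (Matrix.of fun i l =>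
          pd (Coord.d (!ε) r l) (fun w => W i (res 𝕜 S w)) w : Matrix (Fin N) (Fin N) 𝕜)) w1 := by
        refine continuousAt_pi.mpr fun i => continuousAt_pi.mpr fun l => ?_
        exact ((hLA1 i).pd (Coord.d (!ε) r l)).continuousAt
      exact (Continuous.matrix_det continuous_id).continuousAt.comp h1
    refine hc.eventually_ne ?_
    have h2 : (Matrix.of fun i l =>
        pd (Coord.d (!ε) r l) (fun w => W i (res 𝕜 S w)) w1 : Matrix (Fin N) (Fin N) 𝕜) = 1 := by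
      ext i l
      rw [Matrix.of_apply, pd, lineDeriv_of_rep (hWa i) (Eventually.of_forall fun w => rfl), hWp]
      rw [sub_apply, sum_apply, ht _ (hq i), Matrix.one_apply]
      rw [Finset.sum_eq_zero, sub_zero, res_apply, Pi.single_apply]
      · by_cases hil : i = l
        · rw [if_pos hil, if_pos (by rw [hil])]
        · rw [if_neg hil, if_neg (by simpa using hil)]
      · intro e he
        rw [smul_apply, ht e (hES he), res_apply, Pi.single_apply, if_neg, smul_zero]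
        intro h'
        change e = _ at h'
        rcases D.E_sub e he with h | ⟨i, h⟩ | ⟨n, i, hn, h⟩
        · rw [h] at h'; cases h'
        · rw [h] at h'; cases h'
        · rw [h] at h'
          simp only [Coord.d.injEq] at h'
          omega
    rw [h2, Matrix.det_one]
    exact one_ne_zero
  filter_upwards [hLA, hDt, hdet] with w h1 h2 h3
  exact ⟨h1, h2, h3⟩

end Integ

end Pool.Agent.Lib.MP_a322a8_mp
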