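import Pool.Agent.Lib.MP_a322a8_mp.Gen

/-!
The differential field of germs at a jet, with the total derivatives of the system.
-/

set_option autoImplicit false

open Filter Topology
open scoped ContDiff

namespace Pool.Agent.Lib.MP_a322a8_mp

section Der

variable {𝕜 : Type*} [RCLike 𝕜] {ι : Type*} [DecidableEq ι] {w0 : ι → 𝕜} {K : Type*} [Field K]
  (M : GF w0 K)

/-- A representing function. -/
noncomputable def GF.rep (φ : K) : (ι → 𝕜) → 𝕜 := Classical.choose (M.exists_rep φ)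

lemma GF.rep_mer (φ : K) : Mer w0 (M.rep φ) := (Classical.choose_spec (M.exists_rep φ)).1

lemma GF.el_rep (φ : K) : M.el (M.rep φ) (M.rep_mer φ) = φ :=
  (Classical.choose_spec (M.exists_rep φ)).2

lemma GF.rep_el {f : (ι → 𝕜) → 𝕜} (hf : Mer w0 f) :
    ∀ᶠ w in Gen w0, M.rep (M.el f hf) w = f w :=
  M.el_eq.mp (M.el_rep (M.el f hf))

/-- The derivative of an element of the field along a field `V`. -/
noncomputable def derAux (V : (ι → 𝕜) → (ι → 𝕜)) (hV : ∀ c, LA (fun w => V w c) w0)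
    (φ : K) : K :=
  M.el (fun w => lineDeriv 𝕜 (M.rep φ) w (V w)) ((M.rep_mer φ).lineDeriv hV)

lemma derAux_el (V : (ι → 𝕜) → (ι → 𝕜)) (hV : ∀ c, LA (fun w => V w c) w0)
    {f : (ι → 𝕜) → 𝕜} (hf : Mer w0 f) :
    derAux M V hV (M.el f hf) = M.el (fun w => lineDeriv 𝕜 f w (V w)) (hf.lineDeriv hV) := by
  rw [derAux, M.el_eq]
  filter_upwards [Gen_lineDeriv (M.rep_el hf)] with w h
  exact h _

lemma derAux_add (V : (ι → 𝕜) → (ι → 𝕜)) (hV : ∀ c, LA (fun w => V w c) w0) (φ ψ : K) :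
    derAux M V hV (φ + ψ) = derAux M V hV φ + derAux M V hV ψ := by
  obtain ⟨f, hf, rfl⟩ := M.exists_rep φ
  obtain ⟨f', hf', rfl⟩ := M.exists_rep ψ
  rw [M.el_add, derAux_el, derAux_el, derAux_el, M.el_add, M.el_eq]
  filter_upwards [hf.la, hf'.la] with w h h'
  exact h.lineDeriv_add h' _

lemma derAux_mul (V : (ι → 𝕜) → (ι → 𝕜)) (hV : ∀ c, LA (fun w => V w c) w0) (φ ψ : K) :
    derAux M V hV (φ * ψ) = φ * derAux M V hV ψ + ψ * derAux M V hV φ := by
  obtain ⟨f, hf, rfl⟩ := M.exists_rep φ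
  obtain ⟨f', hf', rfl⟩ := M.exists_rep ψ
  rw [M.el_mul, derAux_el, derAux_el, derAux_el, M.el_mul, M.el_mul, M.el_add, M.el_eq]
  filter_upwards [hf.la, hf'.la] with w h h'
  exact h.lineDeriv_mul h' _

/-- The additive map underlying `DV`. -/
noncomputable def derLin (V : (ι → 𝕜) → (ι → 𝕜)) (hV : ∀ c, LA (fun w => V w c) w0) :
    K →ₗ[ℤ] K :=
  AddMonoidHom.toIntLinearMap
    { toFun := derAux M V hV
      map_zero' := by
        have h := derAux_add M V hV 0 0
        rw [add_zero] at h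
        exact left_eq_add.mp h
      map_add' := derAux_add M V hV }

/-- The derivation of the field given by a vector field with locally analytic components. -/
noncomputable def DV (V : (ι → 𝕜) → (ι → 𝕜)) (hV : ∀ c, LA (fun w => V w c) w0) :
    Derivation ℤ (K) (K) :=
  Derivation.mk' (derLin M V hV) (derAux_mul M V hV)

lemma DV_el (V : (ι → 𝕜) → (ι → 𝕜)) (hV : ∀ c, LA (fun w => V w c) w0)
    {f : (ι → 𝕜) → 𝕜} (hf : Mer w0 f) :
    DV M V hV (M.el f hf) = M.el (fun w => lineDeriv 𝕜 f w (V w)) (hf.lineDeriv hV) :=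
  derAux_el M V hV hf

lemma Mer.sum {κ : Type*} (t : Finset κ) {f : κ → (ι → 𝕜) → 𝕜} (h : ∀ j ∈ t, Mer w0 (f j)) :
    Mer w0 (fun w => ∑ j ∈ t, f j w) := by
  classical
  induction t using Finset.induction_on with
  | empty => simpa using (LA.const (0 : 𝕜) w0).mer
  | insert a t ha ih =>
    simp_rw [Finset.sum_insert ha]
    exact (h a (Finset.mem_insert_self a t)).add
      (ih fun j hj => h j (Finset.mem_insert_of_mem hj))

lemma GF.el_sum {κ : Type*} (t : Finset κ) {f : κ → (ι → 𝕜) → 𝕜} (h : ∀ j, Mer w0 (f j)) :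
    ∑ j ∈ t, M.el (f j) (h j) = M.el (fun w => ∑ j ∈ t, f j w) (Mer.sum t fun j _ => h j) := by
  classical
  induction t using Finset.induction_on with
  | empty =>
    rw [Finset.sum_empty, ← M.el_zero, M.el_eq]
    exact Eventually.of_forall fun w => by simp
  | insert a t ha ih =>
    rw [Finset.sum_insert ha, ih, M.el_add, M.el_eq]
    exact Eventually.of_forall fun w => by simp [Finset.sum_insert ha]

lemma Mer.las {f : (ι → 𝕜) → 𝕜} (h : Mer w0 f) : ∃ s, ∀ᶠ w in Gen w0, LAs s f w := by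
  obtain ⟨n, d, h1, h2, h3, h4⟩ := h
  obtain ⟨s, hn, hd⟩ := LAs.common h1 h2
  refine ⟨s, ?_⟩
  filter_upwards [Gen_open h4, Gen_of_nhds hn.eventually, Gen_of_nhds hd.eventually,
    Gen_ne h2 h3] with w h5 h6 h7 h8
  exact (h6.div h7 h8).congr h5

/-- Partial derivative as a derivation. -/
noncomputable def pdK (c : ι) : Derivation ℤ (K) (K) :=
  DV M (fun _ => Pi.single c 1) (fun _ => LA.const _ _)

lemma pdK_el (c : ι) {f : (ι → 𝕜) → 𝕜} (hf : Mer w0 f) :
    pdK M c (M.el f hf) = M.el (pd c f) (hf.lineDeriv (fun _ => LA.const _ _)) :=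
  DV_el M _ _ hf

/-- The coordinate functions. -/
noncomputable def zK (c : ι) : K := M.el (fun w => w c) (LA.coord c w0).mer

lemma pdK_z (c c' : ι) : pdK M c (zK M c' : K) = if c = c' then 1 else 0 := by
  rw [zK, pdK_el]
  split_ifs with h
  · rw [← M.el_one, M.el_eq]
    exact Eventually.of_forall fun w => by rw [pd_coord, if_pos h]
  · rw [← M.el_zero, M.el_eq]
    exact Eventually.of_forall fun w => by rw [pd_coord, if_neg h]

lemma pdK_comm (c c' : ι) (φ : K) : pdK M c (pdK M c' φ) = pdK M c' (pdK M c φ) := by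
  obtain ⟨f, hf, rfl⟩ := M.exists_rep φ
  rw [pdK_el, pdK_el, pdK_el, pdK_el, M.el_eq]
  filter_upwards [hf.la] with w h
  exact h.pd_comm c c'

include M in
lemma KF_fin (φ : K) : ∃ s : Finset ι, ∀ c ∉ s, pdK M c φ = 0 := by
  obtain ⟨f, hf, rfl⟩ := M.exists_rep φ
  obtain ⟨s, hs⟩ := hf.las
  refine ⟨s, fun c hc => ?_⟩
  rw [pdK_el, ← M.el_zero, M.el_eq]
  filter_upwards [hs] with w h
  exact h.pd_eq_zero hc

lemma DV_z (V : (ι → 𝕜) → (ι → 𝕜)) (hV : ∀ c, LA (fun w => V w c) w0) (c : ι) :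
    DV M V hV (zK M c) = M.el (fun w => V w c) (hV c).mer := by
  rw [zK, DV_el, M.el_eq]
  exact Eventually.of_forall fun w => lineDeriv_coord _ _ _

lemma DV_eq (V : (ι → 𝕜) → (ι → 𝕜)) (hV : ∀ c, LA (fun w => V w c) w0) (φ : K)
    (s : Finset ι) (hs : ∀ c ∉ s, pdK M c φ = 0) :
    DV M V hV φ = ∑ c ∈ s, DV M V hV (zK M c) * pdK M c φ := by
  obtain ⟨f, hf, rfl⟩ := M.exists_rep φ
  obtain ⟨t, ht⟩ := hf.las
  have ht' : ∀ c ∉ t, pdK M c (M.el f hf) = 0 := by
    intro c hc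
    rw [pdK_el, ← M.el_zero, M.el_eq]
    filter_upwards [ht] with w h
    exact h.pd_eq_zero hc
  have h1 : DV M V hV (M.el f hf) = ∑ c ∈ t, DV M V hV (zK M c) * pdK M c (M.el f hf) := by
    have h2 : ∀ c, DV M V hV (zK M c) * pdK M c (M.el f hf) =
        M.el (fun w => V w c * pd c f w) ((hV c).mer.mul (hf.lineDeriv (fun _ => LA.const _ _))) :=
      fun c => by rw [DV_z, pdK_el, M.el_mul]
    rw [Finset.sum_congr rfl fun c _ => h2 c, M.el_sum, DV_el, M.el_eq]
    filter_upwards [ht] with w h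
    exact h.lineDeriv_eq _
  rw [h1]
  have h3 : ∑ c ∈ t, DV M V hV (zK M c) * pdK M c (M.el f hf) =
      ∑ c ∈ t ∪ s, DV M V hV (zK M c) * pdK M c (M.el f hf) :=
    Finset.sum_subset Finset.subset_union_left fun c _ hc => by rw [ht' c hc, mul_zero]
  have h4 : ∑ c ∈ s, DV M V hV (zK M c) * pdK M c (M.el f hf) =
      ∑ c ∈ t ∪ s, DV M V hV (zK M c) * pdK M c (M.el f hf) :=
    Finset.sum_subset Finset.subset_union_right fun c _ hc => by rw [hs c hc, mul_zero]
  rw [h3, h4]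

/-- Two such derivations commute if they do so on coordinates. -/
lemma DV_comm {V V' : (ι → 𝕜) → (ι → 𝕜)} {hV : ∀ c, LA (fun w => V w c) w0}
    {hV' : ∀ c, LA (fun w => V' w c) w0}
    (h : ∀ c, DV M V hV (DV M V' hV' (zK M c)) = DV M V' hV' (DV M V hV (zK M c))) (φ : K) :
    DV M V hV (DV M V' hV' φ) = DV M V' hV' (DV M V hV φ) := by
  obtain ⟨s, hs⟩ := KF_fin M φ
  have hs2 : ∀ c, ∀ c' ∉ s, pdK M c' (pdK M c φ) = 0 := by
    intro c c' hc'
    rw [pdK_comm, hs c' hc', map_zero]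
  have key : ∀ {V V' : (ι → 𝕜) → (ι → 𝕜)} {hV : ∀ c, LA (fun w => V w c) w0}
      {hV' : ∀ c, LA (fun w => V' w c) w0}, DV M V hV (DV M V' hV' φ) =
      ∑ c ∈ s, DV M V hV (DV M V' hV' (zK M c)) * pdK M c φ +
        ∑ c ∈ s, ∑ c' ∈ s, DV M V' hV' (zK M c) * (DV M V hV (zK M c') * pdK M c' (pdK M c φ)) := by
    intro V V' hV hV'
    rw [DV_eq M V' hV' φ s hs, map_sum, ← Finset.sum_add_distrib]
    refine Finset.sum_congr rfl fun c _ => ?_
    rw [Derivation.leibniz, smul_eq_mul, smul_eq_mul, DV_eq M V hV (pdK M c φ) s (hs2 c),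
      Finset.mul_sum s _ (DV M V' hV' (zK M c))]
    ring
  rw [key, key (V := V') (V' := V)]
  congr 1
  · exact Finset.sum_congr rfl fun c _ => by rw [h]
  · rw [Finset.sum_comm]
    refine Finset.sum_congr rfl fun c _ => Finset.sum_congr rfl fun c' _ => ?_
    rw [pdK_comm]
    ring

end Der

end Pool.Agent.Lib.MP_a322a8_mp
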