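import Pool.Agent.Lib.MP_a322a8_mp.Defs

/-!
Locally analytic functions of finitely many coordinates on an infinite product.
-/

set_option autoImplicit false

open Filter Topology
open scoped ContDiff

namespace Pool.Agent.Lib.MP_a322a8_mp

section LABasic

variable {𝕜 : Type*} [RCLike 𝕜] {ι : Type*}
  {G : Type*} [NormedAddCommGroup G] [NormedSpace 𝕜 G]
  {G' : Type*} [NormedAddCommGroup G'] [NormedSpace 𝕜 G']
  {G'' : Type*} [NormedAddCommGroup G''] [NormedSpace 𝕜 G'']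

variable (𝕜) in
/-- Restriction to finitely many coordinates. -/
def res (s : Finset ι) : (ι → 𝕜) →L[𝕜] (s → 𝕜) :=
  ContinuousLinearMap.pi fun i => ContinuousLinearMap.proj (i : ι)

variable (𝕜) in
/-- Restriction from a finite set of coordinates to a smaller one. -/
def resT {s s' : Finset ι} (h : s ⊆ s') : (s' → 𝕜) →L[𝕜] (s → 𝕜) :=
  ContinuousLinearMap.pi fun i => ContinuousLinearMap.proj (⟨i, h i.2⟩ : s')

@[simp] lemma res_apply (s : Finset ι) (w : ι → 𝕜) (i : s) : res 𝕜 s w i = w i := rfl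

lemma resT_res {s s' : Finset ι} (h : s ⊆ s') (w : ι → 𝕜) :
    resT 𝕜 h (res 𝕜 s' w) = res 𝕜 s w := rfl

/-- Locally analytic with a given finite set of coordinates. -/
def LAs (s : Finset ι) (f : (ι → 𝕜) → G) (w : ι → 𝕜) : Prop :=
  ∃ g : (s → 𝕜) → G, AnalyticAt 𝕜 g (res 𝕜 s w) ∧ ∀ᶠ w' in 𝓝 w, f w' = g (res 𝕜 s w')

lemma LA_iff {f : (ι → 𝕜) → G} {w : ι → 𝕜} : LA f w ↔ ∃ s, LAs s f w := Iff.rfl

lemma LAs.la {s : Finset ι} {f : (ι → 𝕜) → G} {w : ι → 𝕜} (h : LAs s f w) : LA f w := ⟨s, h⟩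

lemma LAs.mono {s s' : Finset ι} (hs : s ⊆ s') {f : (ι → 𝕜) → G} {w : ι → 𝕜} (h : LAs s f w) :
    LAs s' f w := by
  obtain ⟨g, hg, hfg⟩ := h
  refine ⟨fun v => g (resT 𝕜 hs v), ?_, hfg⟩
  exact AnalyticAt.comp (g := g) (f := fun v => resT 𝕜 hs v) hg ((resT 𝕜 hs).analyticAt _)

lemma LAs.congr {s : Finset ι} {f f' : (ι → 𝕜) → G} {w : ι → 𝕜} (h : LAs s f w)
    (h' : ∀ᶠ w' in 𝓝 w, f' w' = f w') : LAs s f' w := by
  obtain ⟨g, hg, hfg⟩ := h
  refine ⟨g, hg, ?_⟩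
  filter_upwards [hfg, h'] with w' h1 h2
  rw [h2, h1]

lemma LA.congr {f f' : (ι → 𝕜) → G} {w : ι → 𝕜} (h : LA f w)
    (h' : ∀ᶠ w' in 𝓝 w, f' w' = f w') : LA f' w := by
  obtain ⟨s, hs⟩ := h
  exact (LAs.congr hs h').la

lemma LAs.eventually {s : Finset ι} {f : (ι → 𝕜) → G} {w : ι → 𝕜} [CompleteSpace G]
    (h : LAs s f w) : ∀ᶠ w' in 𝓝 w, LAs s f w' := by
  obtain ⟨g, hg, hfg⟩ := h
  have h1 := (res 𝕜 s).continuous.continuousAt.eventually hg.eventually_analyticAt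
  filter_upwards [h1, hfg.eventually_nhds] with w' h2 h3
  exact ⟨g, h2, h3⟩

lemma LA.eventually {f : (ι → 𝕜) → G} {w : ι → 𝕜} [CompleteSpace G]
    (h : LA f w) : ∀ᶠ w' in 𝓝 w, LA f w' := by
  obtain ⟨s, hs⟩ := h
  filter_upwards [LAs.eventually hs] with w' h
  exact h.la

lemma LAs.continuousAt {s : Finset ι} {f : (ι → 𝕜) → G} {w : ι → 𝕜} (h : LAs s f w) :
    ContinuousAt f w := by
  obtain ⟨g, hg, hfg⟩ := h
  have h1 : ContinuousAt (fun w' => g (res 𝕜 s w')) w :=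
    ContinuousAt.comp (g := g) (f := fun w' => res 𝕜 s w') hg.continuousAt
      (res 𝕜 s).continuous.continuousAt
  exact h1.congr (hfg.mono fun _ h => h.symm)

lemma LA.continuousAt {f : (ι → 𝕜) → G} {w : ι → 𝕜} (h : LA f w) : ContinuousAt f w := by
  obtain ⟨s, hs⟩ := h
  exact LAs.continuousAt hs

lemma LAs.comp {s : Finset ι} {f : (ι → 𝕜) → G} {w : ι → 𝕜} (h : LAs s f w) {Φ : G → G'}
    (hΦ : AnalyticAt 𝕜 Φ (f w)) : LAs s (fun w' => Φ (f w')) w := by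
  obtain ⟨g, hg, hfg⟩ := h
  refine ⟨fun v => Φ (g v), ?_, ?_⟩
  · rw [hfg.self_of_nhds] at hΦ
    exact AnalyticAt.comp (g := Φ) (f := g) hΦ hg
  · filter_upwards [hfg] with w' h
    rw [h]

lemma LA.comp {f : (ι → 𝕜) → G} {w : ι → 𝕜} (h : LA f w) {Φ : G → G'}
    (hΦ : AnalyticAt 𝕜 Φ (f w)) : LA (fun w' => Φ (f w')) w := by
  obtain ⟨s, hs⟩ := h
  exact (LAs.comp hs hΦ).la

lemma LAs.prodMk {s : Finset ι} {f : (ι → 𝕜) → G} {f' : (ι → 𝕜) → G'} {w : ι → 𝕜}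
    (h : LAs s f w) (h' : LAs s f' w) : LAs s (fun w' => (f w', f' w')) w := by
  obtain ⟨g, hg, hfg⟩ := h
  obtain ⟨g', hg', hfg'⟩ := h'
  refine ⟨fun v => (g v, g' v), hg.prod hg', ?_⟩
  filter_upwards [hfg, hfg'] with w' h1 h2
  rw [h1, h2]

lemma LA.prodMk {f : (ι → 𝕜) → G} {f' : (ι → 𝕜) → G'} {w : ι → 𝕜} (h : LA f w) (h' : LA f' w) :
    LA (fun w' => (f w', f' w')) w := by
  classical
  obtain ⟨s, hs⟩ := h
  obtain ⟨s', hs'⟩ := h'
  exact (LAs.prodMk (LAs.mono Finset.subset_union_left hs)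
    (LAs.mono Finset.subset_union_right hs')).la

lemma LA.pi {κ : Type*} [Fintype κ] {f : (ι → 𝕜) → κ → G} {w : ι → 𝕜}
    (h : ∀ j, LA (fun w' => f w' j) w) : LA f w := by
  classical
  choose s hs using h
  have h1 : ∀ j, LAs (Finset.univ.biUnion s) (fun w' => f w' j) w := fun j =>
    LAs.mono (Finset.subset_biUnion_of_mem s (Finset.mem_univ j)) (hs j)
  choose g hg hfg using h1
  refine ⟨Finset.univ.biUnion s, fun v j => g j v, ?_, ?_⟩
  · rw [analyticAt_pi_iff]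
    exact hg
  · have h2 := Filter.eventually_all.mpr hfg
    filter_upwards [h2] with w' h3
    funext j
    exact h3 j

lemma LAs.coord {s : Finset ι} {c : ι} (hc : c ∈ s) (w : ι → 𝕜) :
    LAs s (fun w' : ι → 𝕜 => w' c) w :=
  ⟨fun v => v ⟨c, hc⟩, (ContinuousLinearMap.proj (R := 𝕜) (φ := fun _ : s => 𝕜)
    (⟨c, hc⟩ : s)).analyticAt _, Eventually.of_forall fun _ => rfl⟩

lemma LA.coord (c : ι) (w : ι → 𝕜) : LA (fun w' : ι → 𝕜 => w' c) w :=
  (LAs.coord (Finset.mem_singleton_self c) w).la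

lemma LAs.const (s : Finset ι) (a : G) (w : ι → 𝕜) : LAs s (fun _ : ι → 𝕜 => a) w :=
  ⟨fun _ => a, analyticAt_const, Eventually.of_forall fun _ => rfl⟩

lemma LA.const (a : G) (w : ι → 𝕜) : LA (fun _ : ι → 𝕜 => a) w := (LAs.const ∅ a w).la

lemma LAs.comp₂ {s : Finset ι} {f : (ι → 𝕜) → G} {f' : (ι → 𝕜) → G'} {w : ι → 𝕜}
    (h : LAs s f w) (h' : LAs s f' w) {Φ : G × G' → G''} (hΦ : AnalyticAt 𝕜 Φ (f w, f' w)) :
    LAs s (fun w' => Φ (f w', f' w')) w :=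
  (h.prodMk h').comp hΦ

lemma LA.comp₂ {f : (ι → 𝕜) → G} {f' : (ι → 𝕜) → G'} {w : ι → 𝕜}
    (h : LA f w) (h' : LA f' w) {Φ : G × G' → G''} (hΦ : AnalyticAt 𝕜 Φ (f w, f' w)) :
    LA (fun w' => Φ (f w', f' w')) w :=
  (h.prodMk h').comp hΦ

variable {s : Finset ι} {f f' : (ι → 𝕜) → 𝕜} {w : ι → 𝕜}

lemma LAs.add (h : LAs s f w) (h' : LAs s f' w) : LAs s (fun w' => f w' + f' w') w :=
  h.comp₂ h' (Φ := fun p => p.1 + p.2) (analyticAt_fst.add analyticAt_snd)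

lemma LA.add (h : LA f w) (h' : LA f' w) : LA (fun w' => f w' + f' w') w :=
  h.comp₂ h' (Φ := fun p => p.1 + p.2) (analyticAt_fst.add analyticAt_snd)

lemma LAs.mul (h : LAs s f w) (h' : LAs s f' w) : LAs s (fun w' => f w' * f' w') w :=
  h.comp₂ h' (Φ := fun p => p.1 * p.2) (analyticAt_fst.mul analyticAt_snd)

lemma LA.mul (h : LA f w) (h' : LA f' w) : LA (fun w' => f w' * f' w') w :=
  h.comp₂ h' (Φ := fun p => p.1 * p.2) (analyticAt_fst.mul analyticAt_snd)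

lemma LAs.neg (h : LAs s f w) : LAs s (fun w' => -f w') w :=
  h.comp (Φ := fun p => -p) analyticAt_id.neg

lemma LA.neg (h : LA f w) : LA (fun w' => -f w') w :=
  h.comp (Φ := fun p => -p) analyticAt_id.neg

lemma LAs.sub (h : LAs s f w) (h' : LAs s f' w) : LAs s (fun w' => f w' - f' w') w :=
  h.comp₂ h' (Φ := fun p => p.1 - p.2) (analyticAt_fst.sub analyticAt_snd)

lemma LA.sub (h : LA f w) (h' : LA f' w) : LA (fun w' => f w' - f' w') w :=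
  h.comp₂ h' (Φ := fun p => p.1 - p.2) (analyticAt_fst.sub analyticAt_snd)

lemma LAs.inv (h : LAs s f w) (h0 : f w ≠ 0) : LAs s (fun w' => (f w')⁻¹) w :=
  h.comp (Φ := fun p => p⁻¹) (analyticAt_inv h0)

lemma LA.inv (h : LA f w) (h0 : f w ≠ 0) : LA (fun w' => (f w')⁻¹) w :=
  h.comp (Φ := fun p => p⁻¹) (analyticAt_inv h0)

lemma LAs.div (h : LAs s f w) (h' : LAs s f' w) (h0 : f' w ≠ 0) :
    LAs s (fun w' => f w' / f' w') w := by
  simp_rw [div_eq_mul_inv]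
  exact h.mul (h'.inv h0)

lemma LA.div (h : LA f w) (h' : LA f' w) (h0 : f' w ≠ 0) : LA (fun w' => f w' / f' w') w := by
  simp_rw [div_eq_mul_inv]
  exact h.mul (h'.inv h0)

lemma LA.sum {κ : Type*} (t : Finset κ) {f : κ → (ι → 𝕜) → 𝕜} (h : ∀ j ∈ t, LA (f j) w) :
    LA (fun w' => ∑ j ∈ t, f j w') w := by
  classical
  induction t using Finset.induction_on with
  | empty => simpa using LA.const (0 : 𝕜) w
  | insert a t ha ih =>
    simp_rw [Finset.sum_insert ha]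
    exact (h a (Finset.mem_insert_self a t)).add
      (ih fun j hj => h j (Finset.mem_insert_of_mem hj))

lemma LAs.sum {κ : Type*} (t : Finset κ) {f : κ → (ι → 𝕜) → 𝕜} (h : ∀ j ∈ t, LAs s (f j) w) :
    LAs s (fun w' => ∑ j ∈ t, f j w') w := by
  classical
  induction t using Finset.induction_on with
  | empty => simpa using LAs.const s (0 : 𝕜) w
  | insert a t ha ih =>
    simp_rw [Finset.sum_insert ha]
    exact (h a (Finset.mem_insert_self a t)).add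
      (ih fun j hj => h j (Finset.mem_insert_of_mem hj))

end LABasic

section Deriv

variable {𝕜 : Type*} [RCLike 𝕜] {ι : Type*}

lemma tendsto_line (w v : ι → 𝕜) : Tendsto (fun t : 𝕜 => w + t • v) (𝓝 0) (𝓝 w) := by
  have h : Continuous fun t : 𝕜 => w + t • v := by
    refine continuous_pi fun i => ?_
    simp only [Pi.add_apply, Pi.smul_apply, smul_eq_mul]
    exact continuous_const.add (continuous_id.mul continuous_const)
  have := h.tendsto 0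
  simpa using this

lemma lineDeriv_congr {f f' : (ι → 𝕜) → 𝕜} {w : ι → 𝕜} (h : ∀ᶠ w' in 𝓝 w, f w' = f' w')
    (v : ι → 𝕜) : lineDeriv 𝕜 f w v = lineDeriv 𝕜 f' w v := by
  rw [lineDeriv, lineDeriv]
  have h1 : (fun t : 𝕜 => f (w + t • v)) =ᶠ[𝓝 0] fun t : 𝕜 => f' (w + t • v) :=
    (tendsto_line w v).eventually h
  exact h1.deriv_eq

lemma lineDeriv_res {s : Finset ι} {g : (s → 𝕜) → 𝕜} {w : ι → 𝕜}
    (hg : DifferentiableAt 𝕜 g (res 𝕜 s w)) (v : ι → 𝕜) :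
    lineDeriv 𝕜 (fun w' => g (res 𝕜 s w')) w v = fderiv 𝕜 g (res 𝕜 s w) (res 𝕜 s v) := by
  rw [← hg.lineDeriv_eq_fderiv]
  rfl

/-- The basic formula for directional derivatives. -/
lemma lineDeriv_of_rep {s : Finset ι} {f : (ι → 𝕜) → 𝕜} {g : (s → 𝕜) → 𝕜} {w : ι → 𝕜}
    (hg : AnalyticAt 𝕜 g (res 𝕜 s w)) (hfg : ∀ᶠ w' in 𝓝 w, f w' = g (res 𝕜 s w')) (v : ι → 𝕜) :
    lineDeriv 𝕜 f w v = fderiv 𝕜 g (res 𝕜 s w) (res 𝕜 s v) := by
  rw [lineDeriv_congr hfg, lineDeriv_res hg.differentiableAt]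

lemma eventually_lineDeriv {s : Finset ι} {f : (ι → 𝕜) → 𝕜} {g : (s → 𝕜) → 𝕜} {w : ι → 𝕜}
    (hg : AnalyticAt 𝕜 g (res 𝕜 s w)) (hfg : ∀ᶠ w' in 𝓝 w, f w' = g (res 𝕜 s w')) :
    ∀ᶠ w' in 𝓝 w, ∀ v, lineDeriv 𝕜 f w' v = fderiv 𝕜 g (res 𝕜 s w') (res 𝕜 s v) := by
  have h1 := (res 𝕜 s).continuous.continuousAt.eventually hg.eventually_analyticAt
  filter_upwards [h1, hfg.eventually_nhds] with w' h2 h3 v
  exact lineDeriv_of_rep h2 h3 v

variable [DecidableEq ι]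

lemma res_single_of_not_mem {s : Finset ι} {c : ι} (hc : c ∉ s) (a : 𝕜) :
    res 𝕜 s (Pi.single c a) = 0 := by
  funext i
  rw [res_apply, Pi.single_apply, if_neg]
  · rfl
  · intro h; exact hc (h ▸ i.2)

lemma res_eq_sum (s : Finset ι) (v : ι → 𝕜) :
    res 𝕜 s v = ∑ c ∈ s, v c • res 𝕜 s (Pi.single c 1) := by
  funext i
  rw [Finset.sum_apply, Finset.sum_eq_single (i : ι)]
  · simp
  · intro c _ hc
    rw [Pi.smul_apply, res_apply, Pi.single_apply, if_neg (Ne.symm hc), smul_zero]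
  · intro h; exact absurd i.2 h

variable {s : Finset ι} {f f' : (ι → 𝕜) → 𝕜} {w : ι → 𝕜}

lemma LAs.pd_eq_zero (h : LAs s f w) {c : ι} (hc : c ∉ s) : pd c f w = 0 := by
  obtain ⟨g, hg, hfg⟩ := h
  rw [pd, lineDeriv_of_rep hg hfg, res_single_of_not_mem hc, map_zero]

lemma LAs.lineDeriv_eq (h : LAs s f w) (v : ι → 𝕜) :
    lineDeriv 𝕜 f w v = ∑ c ∈ s, v c * pd c f w := by
  obtain ⟨g, hg, hfg⟩ := h
  rw [lineDeriv_of_rep hg hfg, res_eq_sum s v, map_sum]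
  refine Finset.sum_congr rfl fun c _ => ?_
  rw [map_smul, smul_eq_mul, pd, lineDeriv_of_rep hg hfg]

lemma LAs.pd (h : LAs s f w) (c : ι) : LAs s (pd c f) w := by
  obtain ⟨g, hg, hfg⟩ := h
  refine ⟨fun v => fderiv 𝕜 g v (res 𝕜 s (Pi.single c 1)), ?_, ?_⟩
  · have h1 := hg.fderiv
    exact AnalyticAt.comp (g := fun L : (s → 𝕜) →L[𝕜] 𝕜 => L (res 𝕜 s (Pi.single c 1)))
      (f := fun v => fderiv 𝕜 g v)
      ((ContinuousLinearMap.apply 𝕜 𝕜 (res 𝕜 s (Pi.single c 1))).analyticAt _) h1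
  · filter_upwards [eventually_lineDeriv hg hfg] with w' h
    exact h _

lemma LA.pd (h : LA f w) (c : ι) : LA (pd c f) w := by
  obtain ⟨s, hs⟩ := h
  exact (LAs.pd hs c).la

/-- Derivative of a locally analytic function along a field. -/
lemma LA.lineDeriv {V : (ι → 𝕜) → (ι → 𝕜)} (h : LA f w) (hV : ∀ c, LA (fun w' => V w' c) w) :
    LA (fun w' => lineDeriv 𝕜 f w' (V w')) w := by
  obtain ⟨s, hs⟩ := h
  have h1 : LA (fun w' => ∑ c ∈ s, V w' c * MP_a322a8_mp.pd c f w') w :=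
    LA.sum s fun c _ => (hV c).mul (LAs.pd hs c).la
  refine h1.congr ?_
  filter_upwards [LAs.eventually hs] with w' h
  exact h.lineDeriv_eq _

lemma LAs.common (h : LA f w) (h' : LA f' w) : ∃ s, LAs s f w ∧ LAs s f' w := by
  obtain ⟨s, hs⟩ := h
  obtain ⟨s', hs'⟩ := h'
  exact ⟨s ∪ s', LAs.mono Finset.subset_union_left hs, LAs.mono Finset.subset_union_right hs'⟩

lemma LA.lineDeriv_add (h : LA f w) (h' : LA f' w) (v : ι → 𝕜) :
    _root_.lineDeriv 𝕜 (fun w' => f w' + f' w') w v =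
      _root_.lineDeriv 𝕜 f w v + _root_.lineDeriv 𝕜 f' w v := by
  obtain ⟨s, ⟨g, hg, hfg⟩, ⟨g', hg', hfg'⟩⟩ := LAs.common h h'
  rw [lineDeriv_of_rep hg hfg, lineDeriv_of_rep hg' hfg',
    lineDeriv_of_rep (g := fun v => g v + g' v) (hg.add hg')
      (by filter_upwards [hfg, hfg'] with w' h1 h2; rw [h1, h2])]
  rw [fderiv_fun_add hg.differentiableAt hg'.differentiableAt]
  rfl

omit [DecidableEq ι] in
lemma LA.lineDeriv_neg (h : LA f w) (v : ι → 𝕜) :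
    _root_.lineDeriv 𝕜 (fun w' => -f w') w v = -_root_.lineDeriv 𝕜 f w v := by
  obtain ⟨s, ⟨g, hg, hfg⟩⟩ := h
  rw [lineDeriv_of_rep (s := s) hg hfg,
    lineDeriv_of_rep (g := fun v => -g v) hg.neg
      (by filter_upwards [hfg] with w' h1; rw [h1]; rfl)]
  rw [fderiv_fun_neg]
  rfl

lemma LA.lineDeriv_sub (h : LA f w) (h' : LA f' w) (v : ι → 𝕜) :
    _root_.lineDeriv 𝕜 (fun w' => f w' - f' w') w v =
      _root_.lineDeriv 𝕜 f w v - _root_.lineDeriv 𝕜 f' w v := by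
  simp_rw [sub_eq_add_neg]
  rw [h.lineDeriv_add h'.neg, h'.lineDeriv_neg]

lemma LA.lineDeriv_mul (h : LA f w) (h' : LA f' w) (v : ι → 𝕜) :
    _root_.lineDeriv 𝕜 (fun w' => f w' * f' w') w v =
      f w * _root_.lineDeriv 𝕜 f' w v + f' w * _root_.lineDeriv 𝕜 f w v := by
  obtain ⟨s, ⟨g, hg, hfg⟩, ⟨g', hg', hfg'⟩⟩ := LAs.common h h'
  rw [lineDeriv_of_rep hg hfg, lineDeriv_of_rep hg' hfg',
    lineDeriv_of_rep (g := fun v => g v * g' v) (hg.mul hg')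
      (by filter_upwards [hfg, hfg'] with w' h1 h2; rw [h1, h2]), hfg.self_of_nhds,
    hfg'.self_of_nhds]
  rw [fderiv_fun_mul hg.differentiableAt hg'.differentiableAt]
  rfl

omit [DecidableEq ι] in
lemma lineDeriv_fun_const (a : 𝕜) (w v : ι → 𝕜) : lineDeriv 𝕜 (fun _ : ι → 𝕜 => a) w v = 0 := by
  rw [lineDeriv]
  simp

omit [DecidableEq ι] in
lemma lineDeriv_coord (c : ι) (w v : ι → 𝕜) :
    lineDeriv 𝕜 (fun w' : ι → 𝕜 => w' c) w v = v c := by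
  rw [lineDeriv]
  simp

lemma pd_coord (c c' : ι) (w : ι → 𝕜) :
    pd c (fun w' : ι → 𝕜 => w' c') w = if c = c' then 1 else 0 := by
  rw [pd, lineDeriv_coord, Pi.single_apply]
  simp only [eq_comm]

/-- Partial derivatives commute. -/
lemma LA.pd_comm (h : LA f w) (c c' : ι) : MP_a322a8_mp.pd c (MP_a322a8_mp.pd c' f) w =
    MP_a322a8_mp.pd c' (MP_a322a8_mp.pd c f) w := by
  obtain ⟨s, ⟨g, hg, hfg⟩⟩ := h
  change AnalyticAt 𝕜 g (res 𝕜 s w) at hg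
  have key : ∀ a b : ι, MP_a322a8_mp.pd a (MP_a322a8_mp.pd b f) w =
      fderiv 𝕜 (fderiv 𝕜 g) (res 𝕜 s w) (res 𝕜 s (Pi.single a 1)) (res 𝕜 s (Pi.single b 1)) := by
    intro a b
    have h1 : AnalyticAt 𝕜 (fun v => fderiv 𝕜 g v (res 𝕜 s (Pi.single b 1))) (res 𝕜 s w) :=
      AnalyticAt.comp (g := fun L : (s → 𝕜) →L[𝕜] 𝕜 => L (res 𝕜 s (Pi.single b 1)))
        (f := fun v => fderiv 𝕜 g v)
        ((ContinuousLinearMap.apply 𝕜 𝕜 (res 𝕜 s (Pi.single b 1))).analyticAt _) hg.fderiv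
    have h2 : ∀ᶠ w' in 𝓝 w, MP_a322a8_mp.pd b f w' =
        (fun v => fderiv 𝕜 g v (res 𝕜 s (Pi.single b 1))) (res 𝕜 s w') := by
      filter_upwards [eventually_lineDeriv hg hfg] with w' h
      exact h _
    rw [MP_a322a8_mp.pd, lineDeriv_of_rep h1 h2]
    rw [fderiv_clm_apply hg.fderiv.differentiableAt (differentiableAt_const _)]
    simp
  rw [key, key]
  have hsymm : IsSymmSndFDerivAt 𝕜 g (res 𝕜 s w) :=
    ContDiffAt.isSymmSndFDerivAt (n := ω) hg.contDiffAt le_top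
  exact hsymm _ _

end Deriv

end Pool.Agent.Lib.MP_a322a8_mp
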