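import Pool.Agent.Lib.MP_a322a8_mp.LieSeries

/-!
Convergent Lie series: straightening a function along commuting analytic fields.
-/

set_option autoImplicit false

open Filter Topology
open scoped ENNReal NNReal Nat ContDiff

namespace Pool.Agent.Lib.MP_a322a8_mp

section

variable {𝕜 : Type*} [RCLike 𝕜] {E : Type*} [NormedAddCommGroup E] [NormedSpace 𝕜 E]

/-- The derivative of `g` along the field `X`. -/
noncomputable def XX (X : E → E) (g : E → 𝕜) : E → 𝕜 := fun v => fderiv 𝕜 g v (X v)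

lemma XX_analyticAt [CompleteSpace E] {X : E → E} {g : E → 𝕜} {v : E} (hX : AnalyticAt 𝕜 X v)
    (hg : AnalyticAt 𝕜 g v) : AnalyticAt 𝕜 (XX X g) v := by
  have h1 : AnalyticAt 𝕜 (fun v => (fderiv 𝕜 g v, X v)) v := hg.fderiv.prod hX
  have h2 : AnalyticAt 𝕜 (fun x : (E →L[𝕜] 𝕜) × E => x.1 x.2) (fderiv 𝕜 g v, X v) :=
    (ContinuousLinearMap.id 𝕜 (E →L[𝕜] 𝕜)).analyticAt_bilinear (fderiv 𝕜 g v, X v)
  exact AnalyticAt.comp (g := fun x : (E →L[𝕜] 𝕜) × E => x.1 x.2)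
    (f := fun v => (fderiv 𝕜 g v, X v)) h2 h1

lemma XX_analyticOnNhd [CompleteSpace E] {X : E → E} {g : E → 𝕜} {B : Set E}
    (hX : AnalyticOnNhd 𝕜 X B) (hg : AnalyticOnNhd 𝕜 g B) : AnalyticOnNhd 𝕜 (XX X g) B :=
  fun v hv => XX_analyticAt (hX v hv) (hg v hv)

lemma XX_iter_analyticOnNhd [CompleteSpace E] {X : E → E} {g : E → 𝕜} {B : Set E}
    (hX : AnalyticOnNhd 𝕜 X B) (hg : AnalyticOnNhd 𝕜 g B) (k : ℕ) :
    AnalyticOnNhd 𝕜 ((XX X)^[k] g) B := by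
  induction k with
  | zero => simpa using hg
  | succ k ih => rw [Function.iterate_succ_apply']; exact XX_analyticOnNhd hX ih

lemma XX_est [CompleteSpace E] {X : E → E} {g : E → 𝕜} {B : Set E} (hB : IsOpen B) {p : E}
    (hp : p ∈ B) (hX : AnalyticOnNhd 𝕜 X B) (hg : AnalyticOnNhd 𝕜 g B) {ρ ρ' : ℝ} (h0 : 0 ≤ ρ')
    (h : ρ' ≤ ρ) :
    SS ρ' (cf 𝕜 (XX X g) p) * ENNReal.ofReal (ρ - ρ') ≤
      SS ρ (cf 𝕜 g p) * SS ρ' (cf 𝕜 X p) := by
  have h1 : SS ρ' (cf 𝕜 (XX X g) p) ≤ SS ρ' (cf 𝕜 (fderiv 𝕜 g) p) * SS ρ' (cf 𝕜 X p) := by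
    refine SS_mul h0 (cf_nonneg _ _) (cf_nonneg _ _) fun n => ?_
    exact leibniz_clm hB hp (hg.fderiv.contDiffOn hB.uniqueDiffOn)
      (hX.contDiffOn hB.uniqueDiffOn) n
  have h2 : SS ρ' (cf 𝕜 (fderiv 𝕜 g) p) * ENNReal.ofReal (ρ - ρ') ≤ SS ρ (cf 𝕜 g p) := by
    have := SS_deriv h0 h (cf_nonneg (𝕜 := 𝕜) g p)
    have e : cf 𝕜 (fderiv 𝕜 g) p = fun n : ℕ => ((n : ℝ) + 1) * cf 𝕜 g p (n + 1) :=
      funext fun n => cf_fderiv g p n
    rw [e]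
    exact this
  calc SS ρ' (cf 𝕜 (XX X g) p) * ENNReal.ofReal (ρ - ρ')
      ≤ SS ρ' (cf 𝕜 (fderiv 𝕜 g) p) * SS ρ' (cf 𝕜 X p) * ENNReal.ofReal (ρ - ρ') := by gcongr
    _ = (SS ρ' (cf 𝕜 (fderiv 𝕜 g) p) * ENNReal.ofReal (ρ - ρ')) * SS ρ' (cf 𝕜 X p) := by ring
    _ ≤ _ := by gcongr

lemma XX_iter_est [CompleteSpace E] {X : E → E} {g : E → 𝕜} {B : Set E} (hB : IsOpen B) {p : E}
    (hp : p ∈ B) (hX : AnalyticOnNhd 𝕜 X B) (hg : AnalyticOnNhd 𝕜 g B) {ρ δ : ℝ} (hδ : 0 ≤ δ)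
    (j : ℕ) (hj : j * δ ≤ ρ) :
    SS (ρ - j * δ) (cf 𝕜 ((XX X)^[j] g) p) * (ENNReal.ofReal δ) ^ j ≤
      SS ρ (cf 𝕜 g p) * SS ρ (cf 𝕜 X p) ^ j := by
  induction j with
  | zero => simp
  | succ j ih =>
    have hj' : j * δ ≤ ρ := by
      push_cast at hj
      nlinarith
    have ih' := ih hj'
    have h1 := XX_est hB hp hX (XX_iter_analyticOnNhd hX hg j) (ρ := ρ - j * δ)
      (ρ' := ρ - (j + 1 : ℕ) * δ) (by linarith) (by push_cast; linarith)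
    rw [show ρ - j * δ - (ρ - (j + 1 : ℕ) * δ) = δ by push_cast; ring] at h1
    rw [← Function.iterate_succ_apply' (XX X)] at h1
    have h2 : SS (ρ - (j + 1 : ℕ) * δ) (cf 𝕜 X p) ≤ SS ρ (cf 𝕜 X p) :=
      SS_mono_rho (by linarith) (by push_cast; nlinarith [Nat.cast_nonneg (α := ℝ) j])
        (cf_nonneg _ _)
    calc SS (ρ - (j + 1 : ℕ) * δ) (cf 𝕜 ((XX X)^[j + 1] g) p) * (ENNReal.ofReal δ) ^ (j + 1)
        = (SS (ρ - (j + 1 : ℕ) * δ) (cf 𝕜 ((XX X)^[j + 1] g) p) * ENNReal.ofReal δ) *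
            (ENNReal.ofReal δ) ^ j := by ring
      _ ≤ (SS (ρ - j * δ) (cf 𝕜 ((XX X)^[j] g) p) * SS (ρ - (j + 1 : ℕ) * δ) (cf 𝕜 X p)) *
            (ENNReal.ofReal δ) ^ j := by gcongr
      _ ≤ (SS (ρ - j * δ) (cf 𝕜 ((XX X)^[j] g) p) * SS ρ (cf 𝕜 X p)) *
            (ENNReal.ofReal δ) ^ j := by gcongr
      _ = (SS (ρ - j * δ) (cf 𝕜 ((XX X)^[j] g) p) * (ENNReal.ofReal δ) ^ j) *
            SS ρ (cf 𝕜 X p) := by ring
      _ ≤ (SS ρ (cf 𝕜 g p) * SS ρ (cf 𝕜 X p) ^ j) * SS ρ (cf 𝕜 X p) := by gcongr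
      _ = _ := by ring

lemma XX_iter_est' [CompleteSpace E] {X : E → E} {g : E → 𝕜} {B : Set E} (hB : IsOpen B) {p : E}
    (hp : p ∈ B) (hX : AnalyticOnNhd 𝕜 X B) (hg : AnalyticOnNhd 𝕜 g B) {ρ : ℝ} (hρ : 0 < ρ)
    (k : ℕ) :
    SS (ρ / 2) (cf 𝕜 ((XX X)^[k] g) p) ≤
      SS ρ (cf 𝕜 g p) * (SS ρ (cf 𝕜 X p) * ENNReal.ofReal (2 * k / ρ)) ^ k := by
  rcases Nat.eq_zero_or_pos k with rfl | hk
  · simp only [Function.iterate_zero, id_eq, pow_zero, mul_one]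
    exact SS_mono_rho (by linarith) (by linarith) (cf_nonneg _ _)
  · have hk' : (0 : ℝ) < k := by exact_mod_cast hk
    have h1 := XX_iter_est hB hp hX hg (ρ := ρ) (δ := ρ / (2 * k)) (by positivity) k
      (by rw [show (k : ℝ) * (ρ / (2 * k)) = ρ / 2 by field_simp]; linarith)
    rw [show ρ - (k : ℝ) * (ρ / (2 * k)) = ρ / 2 by field_simp; ring] at h1
    have h2 : ENNReal.ofReal (ρ / (2 * k)) * ENNReal.ofReal (2 * k / ρ) = 1 := by
      rw [← ENNReal.ofReal_mul (by positivity)]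
      rw [show ρ / (2 * k) * (2 * k / ρ) = 1 by field_simp]
      exact ENNReal.ofReal_one
    calc SS (ρ / 2) (cf 𝕜 ((XX X)^[k] g) p)
        = SS (ρ / 2) (cf 𝕜 ((XX X)^[k] g) p) *
            (ENNReal.ofReal (ρ / (2 * k)) * ENNReal.ofReal (2 * k / ρ)) ^ k := by
          rw [h2, one_pow, mul_one]
      _ = (SS (ρ / 2) (cf 𝕜 ((XX X)^[k] g) p) * ENNReal.ofReal (ρ / (2 * k)) ^ k) *
            ENNReal.ofReal (2 * k / ρ) ^ k := by rw [mul_pow]; ring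
      _ ≤ (SS ρ (cf 𝕜 g p) * SS ρ (cf 𝕜 X p) ^ k) * ENNReal.ofReal (2 * k / ρ) ^ k := by gcongr
      _ = _ := by rw [mul_pow]; ring

lemma SS_small {ρ σ : ℝ} (hρ : 0 < ρ) (h0 : 0 ≤ σ) (h : σ ≤ ρ) {a : ℕ → ℝ} (ha : ∀ n, 0 ≤ a n)
    (ha0 : a 0 = 0) : SS σ a ≤ ENNReal.ofReal (σ / ρ) * SS ρ a := by
  rw [SS, SS, ← ENNReal.tsum_mul_left]
  refine ENNReal.tsum_le_tsum fun n => ?_
  rw [← ENNReal.ofReal_mul (by positivity)]
  refine ENNReal.ofReal_le_ofReal ?_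
  rcases n with _ | n
  · simp [ha0]
  · have h1 : σ ^ (n + 1) ≤ σ / ρ * ρ ^ (n + 1) := by
      rw [pow_succ, pow_succ, show σ / ρ * (ρ ^ n * ρ) = ρ ^ n * σ by field_simp]
      exact mul_le_mul_of_nonneg_right (pow_le_pow_left₀ h0 h n) h0
    calc a (n + 1) * σ ^ (n + 1) ≤ a (n + 1) * (σ / ρ * ρ ^ (n + 1)) :=
          mul_le_mul_of_nonneg_left h1 (ha _)
      _ = _ := by ring

lemma cf_zero (f : E → 𝕜) (p : E) : cf 𝕜 f p 0 = ‖f p‖ := by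
  simp [cf]

lemma SS_pow [CompleteSpace E] {g : E → 𝕜} {B : Set E} (hB : IsOpen B) {p : E} (hp : p ∈ B)
    (hg : AnalyticOnNhd 𝕜 g B) {ρ : ℝ} (hρ : 0 ≤ ρ) (k : ℕ) :
    SS ρ (cf 𝕜 (fun v => g v ^ k) p) ≤ SS ρ (cf 𝕜 g p) ^ k := by
  induction k with
  | zero =>
    simp only [pow_zero]
    rw [SS]
    rw [tsum_eq_single 0]
    · simp [cf_zero]
    · intro n hn
      have : iteratedFDeriv 𝕜 n (fun _ : E => (1 : 𝕜)) = 0 := iteratedFDeriv_const_of_ne hn 1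
      simp [cf, this]
  | succ k ih =>
    have h1 : SS ρ (cf 𝕜 (fun v => g v ^ k * g v) p) ≤
        SS ρ (cf 𝕜 (fun v => g v ^ k) p) * SS ρ (cf 𝕜 g p) := by
      refine SS_mul hρ (cf_nonneg _ _) (cf_nonneg _ _) fun n => ?_
      exact leibniz_mul hB hp ((hg.pow k).contDiffOn hB.uniqueDiffOn)
        (hg.contDiffOn hB.uniqueDiffOn) n
    simp_rw [pow_succ]
    exact h1.trans (by gcongr)

lemma SS_const_mul [CompleteSpace E] (c : 𝕜) {g : E → 𝕜} {p : E} (hg : AnalyticAt 𝕜 g p) {ρ : ℝ} :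
    SS ρ (cf 𝕜 (fun v => c * g v) p) = ENNReal.ofReal ‖c‖ * SS ρ (cf 𝕜 g p) := by
  rw [SS, SS, ← ENNReal.tsum_mul_left]
  refine tsum_congr fun n => ?_
  rw [← ENNReal.ofReal_mul (norm_nonneg _)]
  congr 1
  have h1 : iteratedFDeriv 𝕜 n (fun v => c * g v) p = c • iteratedFDeriv 𝕜 n g p := by
    have := iteratedFDeriv_const_smul_apply (𝕜 := 𝕜) (i := n) (a := c) (f := g) (x := p)
      hg.contDiffAt
    exact this
  rw [cf, cf, h1, norm_smul]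
  ring

lemma pow_div_factorial_aux (k : ℕ) : (k : ℝ) ^ k / (k ! : ℝ) ≤ 3 ^ k := by
  have h1 := Real.pow_div_factorial_le_exp (k : ℝ) (Nat.cast_nonneg k) k
  refine h1.trans ?_
  rw [← mul_one (k : ℝ), Real.exp_nat_mul]
  exact pow_le_pow_left₀ (Real.exp_pos _).le Real.exp_one_lt_three.le k

lemma term_bound [CompleteSpace E] {X : E → E} {g τ : E → 𝕜} {B : Set E} (hB : IsOpen B) {p : E}
    (hp : p ∈ B) (hX : AnalyticOnNhd 𝕜 X B) (hg : AnalyticOnNhd 𝕜 g B)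
    (hτ : AnalyticOnNhd 𝕜 τ B) (hτp : τ p = 0) {ρ σ : ℝ} (hρ : 0 < ρ) (hσ : 0 ≤ σ)
    (hσρ : σ ≤ ρ / 2) (k : ℕ) :
    SS σ (cf 𝕜 (fun v => (k ! : 𝕜)⁻¹ * (τ v ^ k * (XX X)^[k] g v)) p) ≤
      SS ρ (cf 𝕜 g p) * (ENNReal.ofReal (σ / ρ) * (ENNReal.ofReal 3 * SS ρ (cf 𝕜 τ p) *
        SS ρ (cf 𝕜 X p) * ENNReal.ofReal (2 / ρ))) ^ k := by
  have hk := XX_iter_analyticOnNhd hX hg k
  have hg1 : AnalyticAt 𝕜 (fun v => τ v ^ k * (XX X)^[k] g v) p :=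
    ((hτ p hp).fun_pow k).fun_mul (hk p hp)
  rw [SS_const_mul (g := fun v => τ v ^ k * (XX X)^[k] g v) _ hg1]
  have h1 : SS σ (cf 𝕜 (fun v => τ v ^ k * (XX X)^[k] g v) p) ≤
      SS σ (cf 𝕜 (fun v => τ v ^ k) p) * SS σ (cf 𝕜 ((XX X)^[k] g) p) := by
    refine SS_mul hσ (cf_nonneg _ _) (cf_nonneg _ _) fun n => ?_
    exact leibniz_mul hB hp ((hτ.pow k).contDiffOn hB.uniqueDiffOn)
      (hk.contDiffOn hB.uniqueDiffOn) n
  have h2 : SS σ (cf 𝕜 (fun v => τ v ^ k) p) ≤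
      (ENNReal.ofReal (σ / ρ) * SS ρ (cf 𝕜 τ p)) ^ k := by
    refine (SS_pow hB hp hτ hσ k).trans ?_
    have := SS_small hρ hσ (by linarith) (cf_nonneg (𝕜 := 𝕜) τ p) (by rw [cf_zero, hτp, norm_zero])
    gcongr
  have h3 : SS σ (cf 𝕜 ((XX X)^[k] g) p) ≤
      SS ρ (cf 𝕜 g p) * (SS ρ (cf 𝕜 X p) * ENNReal.ofReal (2 * k / ρ)) ^ k :=
    (SS_mono_rho hσ hσρ (cf_nonneg _ _)).trans (XX_iter_est' hB hp hX hg hρ k)
  have h4 : ENNReal.ofReal ‖(k ! : 𝕜)⁻¹‖ * ENNReal.ofReal (2 * k / ρ) ^ k ≤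
      ENNReal.ofReal 3 ^ k * ENNReal.ofReal (2 / ρ) ^ k := by
    rw [norm_inv, RCLike.norm_natCast]
    rw [← ENNReal.ofReal_pow (by positivity), ← ENNReal.ofReal_pow (by positivity),
      ← ENNReal.ofReal_pow (by positivity), ← ENNReal.ofReal_mul (by positivity),
      ← ENNReal.ofReal_mul (by positivity)]
    refine ENNReal.ofReal_le_ofReal ?_
    have := pow_div_factorial_aux k
    calc ((k ! : ℝ))⁻¹ * (2 * k / ρ) ^ k = ((k : ℝ) ^ k / (k ! : ℝ)) * (2 / ρ) ^ k := by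
          rw [show 2 * (k : ℝ) / ρ = k * (2 / ρ) by ring, mul_pow]; ring
      _ ≤ 3 ^ k * (2 / ρ) ^ k := by gcongr
  calc ENNReal.ofReal ‖(k ! : 𝕜)⁻¹‖ * SS σ (cf 𝕜 (fun v => τ v ^ k * (XX X)^[k] g v) p)
      ≤ ENNReal.ofReal ‖(k ! : 𝕜)⁻¹‖ * ((ENNReal.ofReal (σ / ρ) * SS ρ (cf 𝕜 τ p)) ^ k *
          (SS ρ (cf 𝕜 g p) * (SS ρ (cf 𝕜 X p) * ENNReal.ofReal (2 * k / ρ)) ^ k)) := by
        gcongr
        exact h1.trans (by gcongr)
    _ = (ENNReal.ofReal ‖(k ! : 𝕜)⁻¹‖ * ENNReal.ofReal (2 * k / ρ) ^ k) *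
          ((ENNReal.ofReal (σ / ρ) * SS ρ (cf 𝕜 τ p)) ^ k *
          (SS ρ (cf 𝕜 g p) * (SS ρ (cf 𝕜 X p)) ^ k)) := by
        rw [mul_pow (SS ρ (cf 𝕜 X p))]; ring
    _ ≤ (ENNReal.ofReal 3 ^ k * ENNReal.ofReal (2 / ρ) ^ k) *
          ((ENNReal.ofReal (σ / ρ) * SS ρ (cf 𝕜 τ p)) ^ k *
          (SS ρ (cf 𝕜 g p) * (SS ρ (cf 𝕜 X p)) ^ k)) := by gcongr
    _ = _ := by
        simp only [mul_pow]; ring

lemma XX_comm [CompleteSpace E] {X Y : E → E} {g : E → 𝕜} {v : E} (hg : AnalyticAt 𝕜 g v)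
    (hX : AnalyticAt 𝕜 X v) (hY : AnalyticAt 𝕜 Y v) (hb : VectorField.lieBracket 𝕜 Y X v = 0)
    (h : ∀ᶠ w in 𝓝 v, XX Y g w = 0) : XX Y (XX X g) v = 0 := by
  have h1 := VectorField.fderiv_apply_lieBracket (𝕜 := 𝕜) (f := g) (V := Y) (W := X) (x := v)
    (n := ω) hg.contDiffAt le_top hX.differentiableAt hY.differentiableAt
  rw [hb, map_zero] at h1
  have h2 : fderiv 𝕜 (fun x => fderiv 𝕜 g x (Y x)) v = 0 := by
    have h3 : (fun x => fderiv 𝕜 g x (Y x)) =ᶠ[𝓝 v] fun _ => 0 := h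
    rw [h3.fderiv_eq]
    simp
  rw [h2, zero_apply, sub_zero] at h1
  exact h1.symm

lemma XX_iter_comm [CompleteSpace E] {X Y : E → E} {g : E → 𝕜} {B : Set E} (hB : IsOpen B)
    (hX : AnalyticOnNhd 𝕜 X B) (hY : AnalyticOnNhd 𝕜 Y B) (hg : AnalyticOnNhd 𝕜 g B)
    (hb : ∀ v ∈ B, VectorField.lieBracket 𝕜 Y X v = 0)
    (h : ∀ v ∈ B, XX Y g v = 0) (k : ℕ) : ∀ v ∈ B, XX Y ((XX X)^[k] g) v = 0 := by
  induction k with
  | zero => simpa using h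
  | succ k ih =>
    intro v hv
    rw [Function.iterate_succ_apply']
    exact XX_comm (XX_iter_analyticOnNhd hX hg k v hv) (hX v hv) (hY v hv) (hb v hv)
      (by filter_upwards [hB.mem_nhds hv] with w hw using ih w hw)

lemma term_hasFDerivAt {c a : 𝕜} {τ g : E → 𝕜} {τ' g' : E →L[𝕜] 𝕜} {v : E} (k : ℕ)
    (hτ : HasFDerivAt τ τ' v) (hg : HasFDerivAt g g' v) (ha : a = k * τ v ^ (k - 1)) :
    HasFDerivAt (fun v => c * (τ v ^ k * g v))
      (c • ((τ v ^ k) • g' + (g v * a) • τ')) v := by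
  have h1 := ((hτ.pow k).mul hg).const_mul c
  convert! h1 using 1
  rw [ha]
  ext w
  simp [smul_smul]

/-- Lie series: project a function to a first integral of `X`, given a linear function `t` with
`X t = 1`. -/
theorem lieProj [CompleteSpace E] {X : E → E} {p : E} {t : E →L[𝕜] 𝕜} {f : E → 𝕜}
    (hX : AnalyticAt 𝕜 X p) (hf : AnalyticAt 𝕜 f p) (ht : ∀ᶠ v in 𝓝 p, t (X v) = 1) :
    ∃ W : E → 𝕜, AnalyticAt 𝕜 W p ∧ (∀ᶠ v in 𝓝 p, fderiv 𝕜 W v (X v) = 0) ∧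
      fderiv 𝕜 W p = fderiv 𝕜 f p - (fderiv 𝕜 f p (X p)) • t ∧
      ∀ Y : E → E, AnalyticAt 𝕜 Y p → (∀ᶠ v in 𝓝 p, t (Y v) = 0) →
        (∀ᶠ v in 𝓝 p, VectorField.lieBracket 𝕜 Y X v = 0) →
        (∀ᶠ v in 𝓝 p, fderiv 𝕜 f v (Y v) = 0) → ∀ᶠ v in 𝓝 p, fderiv 𝕜 W v (Y v) = 0 := by
  classical
  let _ : NormedSpace ℝ E := NormedSpace.restrictScalars ℝ 𝕜 E
  set τ : E → 𝕜 := fun v => -(t (v - p)) with hτdef
  have hτd : ∀ v, HasFDerivAt τ (-t) v := by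
    intro v
    have h1 : HasFDerivAt (fun v => t (v - p)) t v := by
      have := t.hasFDerivAt (x := v - p)
      exact this.comp v ((hasFDerivAt_id v).sub_const p)
    exact h1.neg
  have hτa : ∀ v, AnalyticAt 𝕜 τ v := by
    intro v
    have h1 : AnalyticAt 𝕜 (fun v => t (v - p)) v :=
      (t.analyticAt (v - p)).comp (f := fun v => v - p) (analyticAt_id.sub analyticAt_const)
    exact h1.neg
  have hτp : τ p = 0 := by simp [hτdef]
  -- a ball on which everything holds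
  obtain ⟨σ₀, hσ₀, hB₀⟩ : ∃ σ₀ > 0, ∀ v ∈ Metric.ball p σ₀, AnalyticAt 𝕜 X v ∧ AnalyticAt 𝕜 f v ∧
      t (X v) = 1 := by
    have h1 := hX.eventually_analyticAt.and (hf.eventually_analyticAt.and ht)
    exact Metric.eventually_nhds_iff_ball.mp h1
  set B₀ := Metric.ball p σ₀ with hB₀def
  have hB₀o : IsOpen B₀ := Metric.isOpen_ball
  have hpB₀ : p ∈ B₀ := Metric.mem_ball_self hσ₀
  have hXB : AnalyticOnNhd 𝕜 X B₀ := fun v hv => (hB₀ v hv).1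
  have hfB : AnalyticOnNhd 𝕜 f B₀ := fun v hv => (hB₀ v hv).2.1
  have htB : ∀ v ∈ B₀, t (X v) = 1 := fun v hv => (hB₀ v hv).2.2
  have hτB : AnalyticOnNhd 𝕜 τ B₀ := fun v _ => hτa v
  have hXfB : AnalyticOnNhd 𝕜 (XX X f) B₀ := XX_analyticOnNhd hXB hfB
  obtain ⟨ρ1, hρ1, h1⟩ := SS_finite hf
  obtain ⟨ρ2, hρ2, h2⟩ := SS_finite hX
  obtain ⟨ρ3, hρ3, h3⟩ := SS_finite (hτa p)
  obtain ⟨ρ4, hρ4, h4⟩ := SS_finite (hXfB p hpB₀)
  obtain ⟨ρ, hρ, hρf, hρX, hρτ, hρXf, hρσ⟩ : ∃ ρ > 0, SS ρ (cf 𝕜 f p) ≠ (⊤ : ℝ≥0∞) ∧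
      SS ρ (cf 𝕜 X p) ≠ (⊤ : ℝ≥0∞) ∧ SS ρ (cf 𝕜 τ p) ≠ (⊤ : ℝ≥0∞) ∧
      SS ρ (cf 𝕜 (XX X f) p) ≠ (⊤ : ℝ≥0∞) ∧ ρ < σ₀ := by
    refine ⟨(min (min ρ1 ρ2) (min (min ρ3 ρ4) σ₀)) / 2, by positivity, ?_, ?_, ?_, ?_, ?_⟩
    · refine h1 _ (by positivity) ?_
      have : min (min ρ1 ρ2) (min (min ρ3 ρ4) σ₀) ≤ ρ1 := (min_le_left _ _).trans (min_le_left _ _)
      have hpos : 0 < min (min ρ1 ρ2) (min (min ρ3 ρ4) σ₀) := by positivity
      linarith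
    · refine h2 _ (by positivity) ?_
      have : min (min ρ1 ρ2) (min (min ρ3 ρ4) σ₀) ≤ ρ2 :=
        (min_le_left _ _).trans (min_le_right _ _)
      have hpos : 0 < min (min ρ1 ρ2) (min (min ρ3 ρ4) σ₀) := by positivity
      linarith
    · refine h3 _ (by positivity) ?_
      have : min (min ρ1 ρ2) (min (min ρ3 ρ4) σ₀) ≤ ρ3 :=
        (min_le_right _ _).trans ((min_le_left _ _).trans (min_le_left _ _))
      have hpos : 0 < min (min ρ1 ρ2) (min (min ρ3 ρ4) σ₀) := by positivity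
      linarith
    · refine h4 _ (by positivity) ?_
      have : min (min ρ1 ρ2) (min (min ρ3 ρ4) σ₀) ≤ ρ4 :=
        (min_le_right _ _).trans ((min_le_left _ _).trans (min_le_right _ _))
      have hpos : 0 < min (min ρ1 ρ2) (min (min ρ3 ρ4) σ₀) := by positivity
      linarith
    · have : min (min ρ1 ρ2) (min (min ρ3 ρ4) σ₀) ≤ σ₀ :=
        (min_le_right _ _).trans (min_le_right _ _)
      have hpos : 0 < min (min ρ1 ρ2) (min (min ρ3 ρ4) σ₀) := by positivity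
      linarith
  set Q : ℝ≥0∞ := ENNReal.ofReal 3 * SS ρ (cf 𝕜 τ p) * SS ρ (cf 𝕜 X p) * ENNReal.ofReal (2 / ρ)
    with hQdef
  have hQ : Q ≠ ⊤ := by
    rw [hQdef]
    exact ENNReal.mul_ne_top (ENNReal.mul_ne_top (ENNReal.mul_ne_top ENNReal.ofReal_ne_top hρτ) hρX)
      ENNReal.ofReal_ne_top
  obtain ⟨σ, hσ, hσρ, hσq⟩ : ∃ σ > 0, σ ≤ ρ / 2 ∧ ENNReal.ofReal (σ / ρ) * Q < 1 := by
    refine ⟨ρ / (2 * (Q.toReal + 1)), by positivity, ?_, ?_⟩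
    · rw [div_le_div_iff₀ (by positivity) (by positivity)]
      have : 0 ≤ Q.toReal := ENNReal.toReal_nonneg
      nlinarith
    · have hQ' : Q = ENNReal.ofReal Q.toReal := (ENNReal.ofReal_toReal hQ).symm
      generalize hr : ρ / (2 * (Q.toReal + 1)) / ρ = r
      have hr0 : 0 ≤ r := by rw [← hr]; positivity
      rw [hQ', ← ENNReal.ofReal_mul hr0, ← ENNReal.ofReal_one, ← hr]
      refine (ENNReal.ofReal_lt_ofReal_iff one_pos).mpr ?_
      have : 0 ≤ Q.toReal := ENNReal.toReal_nonneg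
      rw [show ρ / (2 * (Q.toReal + 1)) / ρ * Q.toReal = Q.toReal / (2 * (Q.toReal + 1)) by
        field_simp]
      rw [div_lt_one (by positivity)]
      linarith
  set q := ENNReal.ofReal (σ / ρ) * Q with hqdef
  have hBσ : Metric.ball p σ ⊆ B₀ := Metric.ball_subset_ball (by linarith)
  let T : (E → 𝕜) → ℕ → E → 𝕜 := fun g k v => (k ! : 𝕜)⁻¹ * (τ v ^ k * (XX X)^[k] g v)
  have hTa : ∀ g, AnalyticOnNhd 𝕜 g B₀ → ∀ k, AnalyticOnNhd 𝕜 (T g k) B₀ := by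
    intro g hg k v hv
    exact analyticAt_const.mul (((hτa v).pow k).mul (XX_iter_analyticOnNhd hXB hg k v hv))
  have hTs : ∀ g, AnalyticOnNhd 𝕜 g B₀ → SS ρ (cf 𝕜 g p) ≠ (⊤ : ℝ≥0∞) →
      ∑' k, SS σ (cf 𝕜 (T g k) p) ≠ (⊤ : ℝ≥0∞) := by
    intro g hg hgρ
    have h5 : ∑' k, SS σ (cf 𝕜 (T g k) p) ≤ ∑' k, SS ρ (cf 𝕜 g p) * q ^ k :=
      ENNReal.tsum_le_tsum fun k =>
        term_bound hB₀o hpB₀ hXB hg hτB hτp hρ hσ.le hσρ k
    refine ne_top_of_le_ne_top ?_ h5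
    rw [ENNReal.tsum_mul_left, ENNReal.tsum_geometric]
    refine ENNReal.mul_ne_top hgρ ?_
    rw [ENNReal.inv_ne_top]
    exact (tsub_pos_of_lt hσq).ne'
  have hN := hTs f hfB hρf
  have hN' := hTs (XX X f) hXfB hρXf
  have hD : ∀ k, ∀ v ∈ B₀, fderiv 𝕜 (T f k) v = (k ! : 𝕜)⁻¹ •
      ((τ v ^ k) • fderiv 𝕜 ((XX X)^[k] f) v + ((XX X)^[k] f v * (k * τ v ^ (k - 1))) • (-t)) := by
    intro k v hv
    exact (term_hasFDerivAt k (hτd v)
      ((XX_iter_analyticOnNhd hXB hfB k v hv).differentiableAt.hasFDerivAt) rfl).fderiv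
  -- summable bound on the derivatives
  let u : ℕ → ℝ := fun k => (SS (σ / 2) (cf 𝕜 (fderiv 𝕜 (T f k)) p)).toReal
  have hdS : ∀ k, SS (σ / 2) (cf 𝕜 (fderiv 𝕜 (T f k)) p) * ENNReal.ofReal (σ - σ / 2) ≤
      SS σ (cf 𝕜 (T f k) p) := by
    intro k
    have := SS_deriv (ρ := σ) (ρ' := σ / 2) (by linarith) (by linarith)
      (cf_nonneg (𝕜 := 𝕜) (T f k) p)
    have e : cf 𝕜 (fderiv 𝕜 (T f k)) p = fun n : ℕ => ((n : ℝ) + 1) * cf 𝕜 (T f k) p (n + 1) :=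
      funext fun n => cf_fderiv (T f k) p n
    rw [e]
    exact this
  have hσ2 : ENNReal.ofReal (σ - σ / 2) ≠ 0 := by
    rw [Ne, ENNReal.ofReal_eq_zero, not_le]; linarith
  have hdS' : ∑' k, SS (σ / 2) (cf 𝕜 (fderiv 𝕜 (T f k)) p) ≠ (⊤ : ℝ≥0∞) := by
    have h6 : (∑' k, SS (σ / 2) (cf 𝕜 (fderiv 𝕜 (T f k)) p)) * ENNReal.ofReal (σ - σ / 2) ≤
        ∑' k, SS σ (cf 𝕜 (T f k) p) := by
      rw [← ENNReal.tsum_mul_right]
      exact ENNReal.tsum_le_tsum hdS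
    intro h7
    rw [h7, ENNReal.top_mul hσ2] at h6
    exact hN (top_le_iff.mp h6)
  have hu : Summable u := ENNReal.summable_toReal hdS'
  have hball2 : Metric.ball p (σ / 2) ⊆ B₀ :=
    (Metric.ball_subset_ball (by linarith)).trans hBσ
  have hub : ∀ k, ∀ v ∈ Metric.ball p (σ / 2), ‖fderiv 𝕜 (T f k) v‖ ≤ u k := by
    intro k v hv
    refine norm_le_SS (by linarith) (((hTa f hfB k).fderiv).mono hball2)
      (ENNReal.ne_top_of_tsum_ne_top hdS' k) hv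
  have hTsum : ∀ v ∈ Metric.ball p σ, Summable fun k => T f k v := by
    intro v hv
    refine Summable.of_norm_bounded (ENNReal.summable_toReal hN) fun k => ?_
    exact norm_le_SS hσ ((hTa f hfB k).mono hBσ) (ENNReal.ne_top_of_tsum_ne_top hN k) hv
  have hTsum' : ∀ v ∈ Metric.ball p σ, Summable fun k => T (XX X f) k v := by
    intro v hv
    refine Summable.of_norm_bounded (ENNReal.summable_toReal hN') fun k => ?_
    exact norm_le_SS hσ ((hTa _ hXfB k).mono hBσ) (ENNReal.ne_top_of_tsum_ne_top hN' k) hv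
  have hsd : ∀ v ∈ Metric.ball p (σ / 2), Summable fun k => fderiv 𝕜 (T f k) v := fun v hv =>
    Summable.of_norm_bounded hu fun k => hub k v hv
  have hWd : ∀ v ∈ Metric.ball p (σ / 2),
      HasFDerivAt (fun v => ∑' k, T f k v) (∑' k, fderiv 𝕜 (T f k) v) v := by
    intro v hv
    refine hasFDerivAt_tsum_of_isPreconnected hu Metric.isOpen_ball
      (convex_ball p (σ / 2)).isPreconnected
      (fun k w hw => ((hTa f hfB k) w (hball2 hw)).differentiableAt.hasFDerivAt) hub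
      (Metric.mem_ball_self (by linarith)) (hTsum p (Metric.mem_ball_self hσ)) hv
  have hnear : ∀ᶠ v in 𝓝 p, v ∈ Metric.ball p (σ / 2) :=
    Metric.isOpen_ball.mem_nhds (Metric.mem_ball_self (by linarith))
  refine ⟨fun v => ∑' k, T f k v, analyticAt_tsum hσ (fun k => (hTa f hfB k).mono hBσ) hN,
    ?_, ?_, ?_⟩
  · filter_upwards [hnear] with v hv
    have hvB : v ∈ B₀ := hball2 hv
    rw [(hWd v hv).fderiv]
    have h6 : HasSum (fun k => fderiv 𝕜 (T f k) v (X v)) ((∑' k, fderiv 𝕜 (T f k) v) (X v)) :=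
      (ContinuousLinearMap.apply 𝕜 𝕜 (X v)).hasSum (hsd v hv).hasSum
    let b' : ℕ → 𝕜 := fun n => Nat.rec 0 (fun k _ => T (XX X f) k v) n
    have hb' : ∀ k, fderiv 𝕜 (T f k) v (X v) = b' (k + 1) - b' k := by
      intro k
      rw [hD k v hvB]
      simp only [smul_apply, add_apply, neg_apply, smul_eq_mul, htB v hvB, smul_neg]
      have h7 : fderiv 𝕜 ((XX X)^[k] f) v (X v) = (XX X)^[k + 1] f v := by
        rw [Function.iterate_succ_apply']; rfl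
      rw [h7]
      rcases k with _ | k
      · simp [b', T]
      · have h8 : ((k + 1)! : 𝕜) = (k + 1) * (k ! : 𝕜) := by
          rw [Nat.factorial_succ]; push_cast; ring
        have h9 : (k ! : 𝕜) ≠ 0 := by exact_mod_cast Nat.factorial_ne_zero k
        have h10 : (k + 1 : 𝕜) ≠ 0 := by exact_mod_cast Nat.succ_ne_zero k
        have e1 : (XX X)^[k + 1] (XX X f) = (XX X)^[k + 1 + 1] f :=
          (Function.iterate_succ_apply (XX X) (k + 1) f).symm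
        have e2 : (XX X)^[k] (XX X f) = (XX X)^[k + 1] f :=
          (Function.iterate_succ_apply (XX X) k f).symm
        simp only [b', T, e1, e2, h8, Nat.add_sub_cancel, Nat.cast_add, Nat.cast_one]
        field_simp
        ring
    have h11 : Tendsto b' atTop (𝓝 0) := by
      rw [← tendsto_add_atTop_iff_nat 1]
      exact (hTsum' v (Metric.ball_subset_ball (by linarith) hv)).tendsto_atTop_zero
    have h12 := h6.tendsto_sum_nat
    have h13 : (fun n => ∑ k ∈ Finset.range n, fderiv 𝕜 (T f k) v (X v)) = b' := by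
      funext n
      rw [Finset.sum_congr rfl fun k _ => hb' k, Finset.sum_range_sub]
      simp [b']
    rw [h13] at h12
    exact tendsto_nhds_unique h12 h11
  · rw [(hWd p (Metric.mem_ball_self (by linarith))).fderiv]
    rw [tsum_eq_sum (s := Finset.range 2)]
    · rw [Finset.sum_range_succ, Finset.sum_range_one, hD 0 p hpB₀, hD 1 p hpB₀]
      ext w
      simp [hτp, XX, sub_eq_add_neg]
    · intro k hk
      rw [Finset.mem_range, not_lt] at hk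
      rw [hD k p hpB₀, hτp, zero_pow (by omega), zero_pow (by omega)]
      ext w
      simp
  · intro Y hY htY hbr hfY
    obtain ⟨ε, hε, hε'⟩ : ∃ ε > 0, ∀ v ∈ Metric.ball p ε, AnalyticAt 𝕜 Y v ∧ t (Y v) = 0 ∧
        VectorField.lieBracket 𝕜 Y X v = 0 ∧ fderiv 𝕜 f v (Y v) = 0 ∧ v ∈ B₀ := by
      have h1 := hY.eventually_analyticAt.and (htY.and (hbr.and (hfY.and (hB₀o.mem_nhds hpB₀))))
      exact Metric.eventually_nhds_iff_ball.mp h1
    have hit : ∀ k, ∀ v ∈ Metric.ball p ε, XX Y ((XX X)^[k] f) v = 0 := fun k =>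
      XX_iter_comm Metric.isOpen_ball (fun v hv => hXB v (hε' v hv).2.2.2.2)
        (fun v hv => (hε' v hv).1) (fun v hv => hfB v (hε' v hv).2.2.2.2)
        (fun v hv => (hε' v hv).2.2.1) (fun v hv => (hε' v hv).2.2.2.1) k
    filter_upwards [hnear, Metric.isOpen_ball.mem_nhds (Metric.mem_ball_self hε)] with v hv hv2
    rw [(hWd v hv).fderiv]
    have h6 : HasSum (fun k => fderiv 𝕜 (T f k) v (Y v)) ((∑' k, fderiv 𝕜 (T f k) v) (Y v)) :=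
      (ContinuousLinearMap.apply 𝕜 𝕜 (Y v)).hasSum (hsd v hv).hasSum
    have h7 : ∀ k, fderiv 𝕜 (T f k) v (Y v) = 0 := by
      intro k
      have h8 := hit k v hv2
      rw [XX] at h8
      rw [hD k v (hball2 hv)]
      simp [h8, (hε' v hv2).2.1]
    rw [← h6.tsum_eq]
    simp [h7]

/-- Common first integral of finitely many commuting fields, dual to linear functions. -/
theorem frobenius [CompleteSpace E] {κ : Type*} [DecidableEq κ] (s : Finset κ) (X : κ → E → E)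
    (t : κ → E →L[𝕜] 𝕜) {p : E} (hX : ∀ e ∈ s, AnalyticAt 𝕜 (X e) p)
    (ht : ∀ e ∈ s, ∀ e' ∈ s, ∀ᶠ v in 𝓝 p, t e (X e' v) = if e = e' then 1 else 0)
    (hb : ∀ e ∈ s, ∀ e' ∈ s, ∀ᶠ v in 𝓝 p, VectorField.lieBracket 𝕜 (X e) (X e') v = 0)
    {f : E → 𝕜} (hf : AnalyticAt 𝕜 f p) :
    ∃ W : E → 𝕜, AnalyticAt 𝕜 W p ∧ (∀ e ∈ s, ∀ᶠ v in 𝓝 p, fderiv 𝕜 W v (X e v) = 0) ∧
      fderiv 𝕜 W p = fderiv 𝕜 f p - ∑ e ∈ s, (fderiv 𝕜 f p (X e p)) • t e := by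
  induction s using Finset.induction_on with
  | empty => exact ⟨f, hf, by simp, by simp⟩
  | insert a s has ih =>
    obtain ⟨W, hWa, hW0, hWp⟩ := ih (fun e he => hX e (Finset.mem_insert_of_mem he))
      (fun e he e' he' => ht e (Finset.mem_insert_of_mem he) e' (Finset.mem_insert_of_mem he'))
      (fun e he e' he' => hb e (Finset.mem_insert_of_mem he) e' (Finset.mem_insert_of_mem he'))
    have haa : a ∈ insert a s := Finset.mem_insert_self a s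
    have h1 := ht a haa a haa
    simp only [if_true] at h1
    obtain ⟨W', hWa', hW0', hWp', hY⟩ := lieProj (hX a haa) hWa h1
    refine ⟨W', hWa', ?_, ?_⟩
    · intro e he
      rcases Finset.mem_insert.mp he with rfl | he'
      · exact hW0'
      · have hne : a ≠ e := fun h => has (h ▸ he')
        have h2 := ht a haa e he
        simp only [hne, if_false] at h2
        exact hY (X e) (hX e he) h2 (hb e he a haa) (hW0 e he')
    · rw [hWp', hWp, Finset.sum_insert has]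
      have h3 : ∀ e ∈ s, t e (X a p) = 0 := by
        intro e he
        have hne : e ≠ a := fun h => has (h ▸ he)
        have h2 := (ht e (Finset.mem_insert_of_mem he) a haa).self_of_nhds
        simpa [hne] using h2
      have h4 : (∑ e ∈ s, (fderiv 𝕜 f p (X e p)) • t e) (X a p) = 0 := by
        rw [sum_apply]
        refine Finset.sum_eq_zero fun e he => ?_
        rw [smul_apply, h3 e he, smul_zero]
      rw [sub_apply, h4, sub_zero]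
      abel

end

end Pool.Agent.Lib.MP_a322a8_mp
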