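import Mathlib

/-!
Convergent Lie series: the analytic input (a form of the analytic Frobenius theorem).
-/

set_option autoImplicit false

open Filter Topology
open scoped ENNReal NNReal Nat ContDiff

namespace Pool.Agent.Lib.MP_a322a8_mp

section Seq

/-- Weighted sum of a nonnegative sequence. -/
noncomputable def SS (ρ : ℝ) (a : ℕ → ℝ) : ℝ≥0∞ := ∑' n, ENNReal.ofReal (a n * ρ ^ n)

lemma SS_mono {ρ : ℝ} (hρ : 0 ≤ ρ) {a b : ℕ → ℝ} (h : ∀ n, a n ≤ b n) : SS ρ a ≤ SS ρ b :=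
  ENNReal.tsum_le_tsum fun n => ENNReal.ofReal_le_ofReal
    (mul_le_mul_of_nonneg_right (h n) (pow_nonneg hρ n))

lemma SS_mono_rho {ρ ρ' : ℝ} (hρ : 0 ≤ ρ') (h : ρ' ≤ ρ) {a : ℕ → ℝ} (ha : ∀ n, 0 ≤ a n) :
    SS ρ' a ≤ SS ρ a :=
  ENNReal.tsum_le_tsum fun n => ENNReal.ofReal_le_ofReal
    (mul_le_mul_of_nonneg_left (pow_le_pow_left₀ hρ h n) (ha n))

/-- Cauchy product estimate. -/
lemma SS_mul {ρ : ℝ} (hρ : 0 ≤ ρ) {a b c : ℕ → ℝ} (ha : ∀ n, 0 ≤ a n) (hb : ∀ n, 0 ≤ b n)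
    (hc : ∀ n, c n ≤ ∑ i ∈ Finset.range (n + 1), a i * b (n - i)) :
    SS ρ c ≤ SS ρ a * SS ρ b := by
  have h1 : SS ρ a * SS ρ b =
      ∑' n, ∑ x ∈ Finset.HasAntidiagonal.antidiagonal n,
        ENNReal.ofReal (a x.1 * ρ ^ x.1) * ENNReal.ofReal (b x.2 * ρ ^ x.2) := by
    rw [SS, SS, ← ENNReal.tsum_mul_right]
    simp_rw [← ENNReal.tsum_mul_left]
    rw [← ENNReal.tsum_prod (f := fun i j => ENNReal.ofReal (a i * ρ ^ i) *
      ENNReal.ofReal (b j * ρ ^ j))]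
    rw [← (Finset.HasAntidiagonal.sigmaAntidiagonalEquivProd (A := ℕ)).tsum_eq]
    rw [ENNReal.tsum_sigma']
    refine tsum_congr fun n => ?_
    rw [tsum_fintype]
    rw [← Finset.sum_coe_sort (Finset.HasAntidiagonal.antidiagonal n)]
    rfl
  rw [h1, SS]
  refine ENNReal.tsum_le_tsum fun n => ?_
  have h2 : ∀ x ∈ Finset.HasAntidiagonal.antidiagonal n,
      ENNReal.ofReal (a x.1 * ρ ^ x.1) * ENNReal.ofReal (b x.2 * ρ ^ x.2) =
        ENNReal.ofReal (a x.1 * b x.2 * ρ ^ n) := by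
    intro x hx
    rw [Finset.HasAntidiagonal.mem_antidiagonal] at hx
    rw [← ENNReal.ofReal_mul (mul_nonneg (ha _) (pow_nonneg hρ _)), ← hx, pow_add]
    congr 1
    ring
  rw [Finset.sum_congr rfl h2, ← ENNReal.ofReal_sum_of_nonneg
    (fun x _ => mul_nonneg (mul_nonneg (ha _) (hb _)) (pow_nonneg hρ _))]
  refine ENNReal.ofReal_le_ofReal ?_
  rw [← Finset.sum_mul, Finset.Nat.sum_antidiagonal_eq_sum_range_succ (fun i j => a i * b j)]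
  exact mul_le_mul_of_nonneg_right (hc n) (pow_nonneg hρ n)

lemma pow_aux {ρ ρ' : ℝ} (h0 : 0 ≤ ρ') (h : ρ' ≤ ρ) (n : ℕ) :
    ((n : ℝ) + 1) * ρ' ^ n * (ρ - ρ') ≤ ρ ^ (n + 1) := by
  have key : ∀ n : ℕ, ((n : ℝ) + 1) * ρ' ^ n * (ρ - ρ') ≤ ρ ^ (n + 1) - ρ' ^ (n + 1) := by
    intro n
    induction n with
    | zero => simp
    | succ n ih =>
      have h1 : ρ' ^ (n + 1) ≤ ρ ^ (n + 1) := pow_le_pow_left₀ h0 h _
      have h2 : 0 ≤ (ρ - ρ') * (ρ ^ (n + 1) - ρ' ^ (n + 1)) :=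
        mul_nonneg (sub_nonneg.mpr h) (sub_nonneg.mpr h1)
      have h3 := mul_le_mul_of_nonneg_left ih h0
      push_cast
      have e1 : ρ ^ (n + 1 + 1) = ρ * ρ ^ (n + 1) := by ring
      have e2 : ρ' ^ (n + 1 + 1) = ρ' * ρ' ^ (n + 1) := by ring
      have e3 : ((n : ℝ) + 1 + 1) * ρ' ^ (n + 1) * (ρ - ρ') =
          ρ' * (((n : ℝ) + 1) * ρ' ^ n * (ρ - ρ')) + ρ' ^ (n + 1) * (ρ - ρ') := by ring
      rw [e3, e1, e2]
      nlinarith
  have h1 : 0 ≤ ρ' ^ (n + 1) := pow_nonneg h0 _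
  linarith [key n]

/-- Derivative estimate. -/
lemma SS_deriv {ρ ρ' : ℝ} (h0 : 0 ≤ ρ') (h : ρ' ≤ ρ) {a : ℕ → ℝ} (ha : ∀ n, 0 ≤ a n) :
    SS ρ' (fun n => ((n : ℝ) + 1) * a (n + 1)) * ENNReal.ofReal (ρ - ρ') ≤ SS ρ a := by
  rw [SS, ← ENNReal.tsum_mul_right]
  have h1 : ∑' n, ENNReal.ofReal (a (n + 1) * ρ ^ (n + 1)) ≤ SS ρ a := by
    rw [SS]
    exact ENNReal.tsum_comp_le_tsum_of_injective (f := fun n : ℕ => n + 1)
      (fun a b h => Nat.succ_injective h) (fun n => ENNReal.ofReal (a n * ρ ^ n))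
  refine le_trans (ENNReal.tsum_le_tsum fun n => ?_) h1
  rw [← ENNReal.ofReal_mul (by have := ha (n + 1); positivity)]
  refine ENNReal.ofReal_le_ofReal ?_
  have := mul_le_mul_of_nonneg_left (pow_aux h0 h n) (ha (n + 1))
  calc ((n : ℝ) + 1) * a (n + 1) * ρ' ^ n * (ρ - ρ')
      = a (n + 1) * (((n : ℝ) + 1) * ρ' ^ n * (ρ - ρ')) := by ring
    _ ≤ _ := this

end Seq

section Taylor

variable {𝕜 : Type*} [RCLike 𝕜] {E : Type*} [NormedAddCommGroup E] [NormedSpace 𝕜 E]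
  {F : Type*} [NormedAddCommGroup F] [NormedSpace 𝕜 F]
  {G : Type*} [NormedAddCommGroup G] [NormedSpace 𝕜 G]

variable (𝕜) in
/-- Norms of the Taylor coefficients. -/
noncomputable def cf (f : E → G) (p : E) (n : ℕ) : ℝ := ‖iteratedFDeriv 𝕜 n f p‖ / n !

variable (𝕜) in
/-- The Taylor series. -/
noncomputable def tay (f : E → G) (p : E) : FormalMultilinearSeries 𝕜 E G :=
  fun n => ((n ! : 𝕜)⁻¹) • iteratedFDeriv 𝕜 n f p

lemma cf_nonneg (f : E → G) (p : E) (n : ℕ) : 0 ≤ cf 𝕜 f p n := by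
  unfold cf; positivity

lemma norm_tay (f : E → G) (p : E) (n : ℕ) : ‖tay 𝕜 f p n‖ = cf 𝕜 f p n := by
  rw [tay, cf, norm_smul, norm_inv, RCLike.norm_natCast, div_eq_inv_mul]

lemma summable_of_SS {ρ : ℝ} (hρ : 0 ≤ ρ) {a : ℕ → ℝ} (ha : ∀ n, 0 ≤ a n) (h : SS ρ a ≠ (⊤ : ℝ≥0∞)) :
    Summable fun n => a n * ρ ^ n := by
  have := ENNReal.summable_toReal h
  refine this.congr fun n => ?_
  rw [ENNReal.toReal_ofReal (mul_nonneg (ha n) (pow_nonneg hρ n))]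

lemma tsum_eq_SS {ρ : ℝ} (hρ : 0 ≤ ρ) {a : ℕ → ℝ} (ha : ∀ n, 0 ≤ a n) (h : SS ρ a ≠ (⊤ : ℝ≥0∞)) :
    ∑' n, a n * ρ ^ n = (SS ρ a).toReal := by
  rw [SS, ENNReal.tsum_toReal_eq (fun n => ENNReal.ofReal_ne_top)]
  refine tsum_congr fun n => ?_
  rw [ENNReal.toReal_ofReal (mul_nonneg (ha n) (pow_nonneg hρ n))]

lemma tay_radius {f : E → G} {p : E} {σ : ℝ} (hσ : 0 ≤ σ) (hN : SS σ (cf 𝕜 f p) ≠ (⊤ : ℝ≥0∞)) :
    ENNReal.ofReal σ ≤ (tay 𝕜 f p).radius := by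
  have h := summable_of_SS hσ (cf_nonneg (𝕜 := 𝕜) f p) hN
  have h2 : (tay 𝕜 f p).radius ≥ (σ.toNNReal : ℝ≥0∞) := by
    refine (tay 𝕜 f p).le_radius_of_summable_norm ?_
    refine h.congr fun n => ?_
    rw [norm_tay, Real.coe_toNNReal σ hσ]
  exact h2

/-- Taylor expansion on a ball. -/
lemma hasFPowerSeriesOnBall_tay [CompleteSpace G] {f : E → G} {p : E} {σ : ℝ} (hσ : 0 < σ)
    (hf : AnalyticOnNhd 𝕜 f (Metric.ball p σ)) (hN : SS σ (cf 𝕜 f p) ≠ (⊤ : ℝ≥0∞)) :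
    HasFPowerSeriesOnBall f (tay 𝕜 f p) p (ENNReal.ofReal σ) := by
  have hr := tay_radius (𝕜 := 𝕜) hσ.le hN
  have hσ' : 0 < ENNReal.ofReal σ := ENNReal.ofReal_pos.mpr hσ
  have h1 : HasFPowerSeriesOnBall (fun z => (tay 𝕜 f p).sum (z - p)) (tay 𝕜 f p) (0 + p)
      (tay 𝕜 f p).radius :=
    ((tay 𝕜 f p).hasFPowerSeriesOnBall (lt_of_lt_of_le hσ' hr)).comp_sub p
  rw [zero_add] at h1
  have h2 := h1.mono hσ' hr
  refine h2.congr ?_
  have hball : Metric.eball p (ENNReal.ofReal σ) = Metric.ball p σ := Metric.eball_ofReal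
  have hconn : IsPreconnected (Metric.ball p σ) := by
    let _ : NormedSpace ℝ E := NormedSpace.restrictScalars ℝ 𝕜 E
    exact (convex_ball p σ).isPreconnected
  have h3 : AnalyticOnNhd 𝕜 (fun z => (tay 𝕜 f p).sum (z - p)) (Metric.ball p σ) := by
    rw [← hball]; exact h2.analyticOnNhd
  rw [hball]
  refine h3.eqOn_of_preconnected_of_eventuallyEq hf hconn (Metric.mem_ball_self hσ) ?_
  obtain ⟨q, r, hq⟩ := hf p (Metric.mem_ball_self hσ)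
  have h4 : ∀ᶠ z in 𝓝 p, z ∈ Metric.eball p r := Metric.isOpen_eball.mem_nhds
    (Metric.mem_eball_self hq.r_pos)
  have h5 : ∀ᶠ z in 𝓝 p, z ∈ Metric.eball p (ENNReal.ofReal σ) := by
    rw [hball]
    exact Metric.isOpen_ball.mem_nhds (Metric.mem_ball_self hσ)
  filter_upwards [h4, h5] with z hz hz'
  have h6 := hq.hasSum_iteratedFDeriv (y := z - p) (by
    rw [Metric.mem_eball, edist_zero_right, ← edist_eq_enorm_sub]; exact hz)
  have h7 := h2.hasSum_sub hz'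
  rw [add_sub_cancel] at h6
  exact h7.unique h6

lemma norm_le_SS [CompleteSpace G] {f : E → G} {p : E} {σ : ℝ} (hσ : 0 < σ)
    (hf : AnalyticOnNhd 𝕜 f (Metric.ball p σ)) (hN : SS σ (cf 𝕜 f p) ≠ (⊤ : ℝ≥0∞))
    {v : E} (hv : v ∈ Metric.ball p σ) : ‖f v‖ ≤ (SS σ (cf 𝕜 f p)).toReal := by
  have h := hasFPowerSeriesOnBall_tay hσ hf hN
  have hball : Metric.eball p (ENNReal.ofReal σ) = Metric.ball p σ := Metric.eball_ofReal
  have h1 := h.hasSum_sub (by rw [hball]; exact hv)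
  have hs := summable_of_SS hσ.le (cf_nonneg (𝕜 := 𝕜) f p) hN
  rw [← tsum_eq_SS hσ.le (cf_nonneg (𝕜 := 𝕜) f p) hN]
  rw [← h1.tsum_eq]
  have hle : ∀ n, ‖(tay 𝕜 f p n) fun _ => v - p‖ ≤ cf 𝕜 f p n * σ ^ n := by
    intro n
    rw [← norm_tay]
    refine ((tay 𝕜 f p n).le_opNorm _).trans ?_
    rw [Finset.prod_const, Finset.card_univ, Fintype.card_fin]
    refine mul_le_mul_of_nonneg_left (pow_le_pow_left₀ (norm_nonneg _) ?_ n) (norm_nonneg _)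
    rw [Metric.mem_ball, dist_eq_norm] at hv
    exact hv.le
  exact (norm_tsum_le_tsum_norm (Summable.of_nonneg_of_le (fun _ => norm_nonneg _) hle hs)).trans
    ((Summable.of_nonneg_of_le (fun _ => norm_nonneg _) hle hs).tsum_le_tsum hle hs)

lemma SS_finite [CompleteSpace G] {f : E → G} {p : E} (hf : AnalyticAt 𝕜 f p) :
    ∃ ρ₀ > 0, ∀ ρ, 0 ≤ ρ → ρ < ρ₀ → SS ρ (cf 𝕜 f p) ≠ (⊤ : ℝ≥0∞) := by
  obtain ⟨q, r, hq⟩ := hf
  obtain ⟨ρ₀, hρ₀, hρ₀r⟩ : ∃ ρ₀ : ℝ≥0, 0 < ρ₀ ∧ (ρ₀ : ℝ≥0∞) < r := by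
    obtain ⟨x, hx1, hx2⟩ := ENNReal.lt_iff_exists_nnreal_btwn.mp hq.r_pos
    exact ⟨x, by exact_mod_cast hx1, hx2⟩
  refine ⟨ρ₀, by exact_mod_cast hρ₀, fun ρ h0 hρ => ?_⟩
  have h1 : Summable fun n => ‖q n‖ * (ρ₀ : ℝ) ^ n :=
    q.summable_norm_mul_pow (lt_of_lt_of_le hρ₀r hq.r_le)
  have h2 : ∀ n, cf 𝕜 f p n ≤ ‖q n‖ := by
    intro n
    rw [cf, div_le_iff₀ (by positivity)]
    refine ContinuousMultilinearMap.opNorm_le_bound (by positivity) fun v => ?_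
    rw [hq.iteratedFDeriv_eq_sum_of_completeSpace]
    refine (norm_sum_le _ _).trans ?_
    calc ∑ σ : Equiv.Perm (Fin n), ‖q n fun i => v (σ i)‖
        ≤ ∑ _σ : Equiv.Perm (Fin n), ‖q n‖ * ∏ i, ‖v i‖ := by
          refine Finset.sum_le_sum fun σ _ => ?_
          refine ((q n).le_opNorm _).trans (le_of_eq ?_)
          rw [Equiv.prod_comp σ (fun i => ‖v i‖)]
      _ = ‖q n‖ * n ! * ∏ i, ‖v i‖ := by
          rw [Finset.sum_const, Finset.card_univ, Fintype.card_perm, Fintype.card_fin,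
            nsmul_eq_mul]
          ring
  have h3 : SS ρ (cf 𝕜 f p) ≤ ∑' n, ENNReal.ofReal (‖q n‖ * (ρ₀ : ℝ) ^ n) := by
    refine ENNReal.tsum_le_tsum fun n => ENNReal.ofReal_le_ofReal ?_
    exact mul_le_mul (h2 n) (pow_le_pow_left₀ h0 hρ.le n) (pow_nonneg h0 n) (norm_nonneg _)
  refine ne_top_of_le_ne_top ?_ h3
  exact h1.tsum_ofReal_ne_top

lemma cf_fderiv (f : E → G) (p : E) (n : ℕ) :
    cf 𝕜 (fderiv 𝕜 f) p n = ((n : ℝ) + 1) * cf 𝕜 f p (n + 1) := by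
  rw [cf, cf, norm_iteratedFDeriv_fderiv, Nat.factorial_succ]
  push_cast
  field_simp

lemma leibniz_clm {B : Set E} (hB : IsOpen B) {p : E} (hp : p ∈ B) {f : E → F →L[𝕜] G}
    {g : E → F} (hF : ContDiffOn 𝕜 ω f B) (hG : ContDiffOn 𝕜 ω g B) (n : ℕ) :
    cf 𝕜 (fun y => (f y) (g y)) p n ≤
      ∑ i ∈ Finset.range (n + 1), cf 𝕜 f p i * cf 𝕜 g p (n - i) := by
  have h := norm_iteratedFDerivWithin_clm_apply (N := (n : WithTop ℕ∞)) (n := n)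
    (hF.of_le le_top) (hG.of_le le_top) hB.uniqueDiffOn hp le_rfl
  rw [iteratedFDerivWithin_of_isOpen n hB hp] at h
  rw [cf, div_le_iff₀ (by positivity)]
  refine h.trans (le_of_eq ?_)
  rw [Finset.sum_mul]
  refine Finset.sum_congr rfl fun i hi => ?_
  have hi' : i ≤ n := Nat.lt_succ_iff.mp (Finset.mem_range.mp hi)
  rw [iteratedFDerivWithin_of_isOpen i hB hp, iteratedFDerivWithin_of_isOpen (n - i) hB hp, cf, cf]
  have h1 : (n.choose i : ℝ) * (i ! : ℝ) * ((n - i)! : ℝ) = (n ! : ℝ) := by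
    exact_mod_cast Nat.choose_mul_factorial_mul_factorial hi'
  rw [← h1]
  field_simp

lemma leibniz_mul {B : Set E} (hB : IsOpen B) {p : E} (hp : p ∈ B) {f g : E → 𝕜}
    (hF : ContDiffOn 𝕜 ω f B) (hG : ContDiffOn 𝕜 ω g B) (n : ℕ) :
    cf 𝕜 (fun y => f y * g y) p n ≤
      ∑ i ∈ Finset.range (n + 1), cf 𝕜 f p i * cf 𝕜 g p (n - i) := by
  have h := norm_iteratedFDerivWithin_mul_le (N := (n : WithTop ℕ∞)) (n := n)
    (hF.of_le le_top) (hG.of_le le_top) hB.uniqueDiffOn hp le_rfl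
  rw [iteratedFDerivWithin_of_isOpen n hB hp] at h
  rw [cf, div_le_iff₀ (by positivity)]
  refine h.trans (le_of_eq ?_)
  rw [Finset.sum_mul]
  refine Finset.sum_congr rfl fun i hi => ?_
  have hi' : i ≤ n := Nat.lt_succ_iff.mp (Finset.mem_range.mp hi)
  rw [iteratedFDerivWithin_of_isOpen i hB hp, iteratedFDerivWithin_of_isOpen (n - i) hB hp, cf, cf]
  have h1 : (n.choose i : ℝ) * (i ! : ℝ) * ((n - i)! : ℝ) = (n ! : ℝ) := by
    exact_mod_cast Nat.choose_mul_factorial_mul_factorial hi'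
  rw [← h1]
  field_simp

/-- A normally convergent series of analytic functions is analytic. -/
lemma analyticAt_tsum [CompleteSpace G] {f : ℕ → E → G} {p : E} {σ : ℝ} (hσ : 0 < σ)
    (hf : ∀ k, AnalyticOnNhd 𝕜 (f k) (Metric.ball p σ))
    (hN : ∑' k, SS σ (cf 𝕜 (f k) p) ≠ (⊤ : ℝ≥0∞)) :
    AnalyticAt 𝕜 (fun v => ∑' k, f k v) p := by
  have hNk : ∀ k, SS σ (cf 𝕜 (f k) p) ≠ (⊤ : ℝ≥0∞) := fun k => ENNReal.ne_top_of_tsum_ne_top hN k
  have hball : Metric.eball p (ENNReal.ofReal σ) = Metric.ball p σ := Metric.eball_ofReal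
  have hb0 : ∀ x : ℕ × ℕ, 0 ≤ cf 𝕜 (f x.1) p x.2 * σ ^ x.2 := fun x =>
    mul_nonneg (cf_nonneg _ _ _) (pow_nonneg hσ.le _)
  have hb : Summable (fun x : ℕ × ℕ => cf 𝕜 (f x.1) p x.2 * σ ^ x.2) := by
    have h1 : ∑' x : ℕ × ℕ, ENNReal.ofReal (cf 𝕜 (f x.1) p x.2 * σ ^ x.2) ≠ (⊤ : ℝ≥0∞) := by
      rw [ENNReal.tsum_prod (f := fun k n => ENNReal.ofReal (cf 𝕜 (f k) p n * σ ^ n))]
      exact hN
    refine (ENNReal.summable_toReal h1).congr fun x => ?_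
    rw [ENNReal.toReal_ofReal (hb0 x)]
  have hb' : Summable (fun x : ℕ × ℕ => cf 𝕜 (f x.2) p x.1 * σ ^ x.1) :=
    (Equiv.prodComm ℕ ℕ).summable_iff.mpr hb
  let Q : FormalMultilinearSeries 𝕜 E G := fun n => ∑' k, tay 𝕜 (f k) p n
  have hsn : ∀ n, Summable fun k => ‖tay 𝕜 (f k) p n‖ := by
    intro n
    have h1 : Summable fun k => cf 𝕜 (f k) p n * σ ^ n := hb'.prod_factor n
    have h2 := h1.mul_right ((σ ^ n)⁻¹)
    refine h2.congr fun k => ?_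
    rw [norm_tay, mul_assoc, mul_inv_cancel₀ (pow_ne_zero n hσ.ne'), mul_one]
  have hQn : ∀ n, ‖Q n‖ * σ ^ n ≤ ∑' k, cf 𝕜 (f k) p n * σ ^ n := by
    intro n
    rw [tsum_mul_right]
    refine mul_le_mul_of_nonneg_right ?_ (pow_nonneg hσ.le n)
    refine (norm_tsum_le_tsum_norm (hsn n)).trans (le_of_eq ?_)
    exact tsum_congr fun k => norm_tay _ _ _
  refine ⟨Q, ENNReal.ofReal σ, ?_, ENNReal.ofReal_pos.mpr hσ, ?_⟩
  · have h2 : Q.radius ≥ (σ.toNNReal : ℝ≥0∞) := by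
      refine Q.le_radius_of_summable_norm ?_
      refine Summable.of_nonneg_of_le (fun n => by positivity) (fun n => ?_) hb'.prod
      rw [Real.coe_toNNReal σ hσ.le]
      exact hQn n
    exact h2
  · intro y hy
    have hy' : ‖y‖ < σ := by
      rw [Metric.mem_eball, edist_zero_right] at hy
      rw [← ofReal_norm] at hy
      exact (ENNReal.ofReal_lt_ofReal_iff hσ).mp hy
    have hmem : p + y ∈ Metric.ball p σ := by
      rw [Metric.mem_ball, dist_eq_norm, add_sub_cancel_left]; exact hy'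
    have ha1 : ∀ k, HasSum (fun n => (tay 𝕜 (f k) p n) fun _ => y) (f k (p + y)) := fun k =>
      (hasFPowerSeriesOnBall_tay hσ (hf k) (hNk k)).hasSum hy
    have hle : ∀ x : ℕ × ℕ, ‖(tay 𝕜 (f x.2) p x.1) fun _ => y‖ ≤ cf 𝕜 (f x.2) p x.1 * σ ^ x.1 := by
      intro x
      rw [← norm_tay]
      refine ((tay 𝕜 (f x.2) p x.1).le_opNorm _).trans ?_
      rw [Finset.prod_const, Finset.card_univ, Fintype.card_fin]
      exact mul_le_mul_of_nonneg_left (pow_le_pow_left₀ (norm_nonneg _) hy'.le _) (norm_nonneg _)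
    have ha : Summable (fun x : ℕ × ℕ => (tay 𝕜 (f x.2) p x.1) fun _ => y) :=
      Summable.of_norm_bounded hb' hle
    have hsQ : ∀ n, HasSum (fun k => (tay 𝕜 (f k) p n) fun _ => y) (Q n fun _ => y) := by
      intro n
      have h1 : HasSum (fun k => tay 𝕜 (f k) p n) (Q n) := (hsn n).of_norm.hasSum
      exact (ContinuousMultilinearMap.apply 𝕜 (fun _ : Fin n => E) G (fun _ => y)).hasSum h1
    have h3 : HasSum (fun n => Q n fun _ => y)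
        (∑' x : ℕ × ℕ, (tay 𝕜 (f x.2) p x.1) fun _ => y) :=
      ha.hasSum.prod_fiberwise hsQ
    have h4 : ∑' x : ℕ × ℕ, ((tay 𝕜 (f x.2) p x.1) fun _ => y) = ∑' k, f k (p + y) := by
      rw [← (Equiv.prodComm ℕ ℕ).tsum_eq]
      have ha' : Summable (fun x : ℕ × ℕ => (tay 𝕜 (f x.1) p x.2) fun _ => y) :=
        (Equiv.prodComm ℕ ℕ).summable_iff.mpr ha
      have := ha'.hasSum.prod_fiberwise ha1
      rw [this.tsum_eq]
      rfl
    rw [h4] at h3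
    exact h3

end Taylor

end Pool.Agent.Lib.MP_a322a8_mp
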