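import Pool.Agent.Lib.MP_a322a8_mp.ChainB
import Pool.Agent.Lib.MP_a322a8_mp.Lie

/-!
From commuting fields over the differential field to integrals.
-/

set_option autoImplicit false

open Filter Topology
open scoped ContDiff

namespace Pool.Agent.Lib.MP_a322a8_mp

section Shrink

variable {𝕜 : Type*} [RCLike 𝕜] {ι : Type*} [DecidableEq ι]

lemma las_shrink {s T : Finset ι} {f : (ι → 𝕜) → 𝕜} {w : ι → 𝕜} (h : LAs s f w)
    (hz : ∀ c ∈ s, c ∉ T → ∀ᶠ w' in 𝓝 w, pd c f w' = 0) : LAs T f w := by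
  obtain ⟨g, hg, hfg⟩ := h
  have h1 : ∀ᶠ v in 𝓝 (res 𝕜 s w), ∀ c ∈ s, c ∉ T →
      fderiv 𝕜 g v (res 𝕜 s (Pi.single c 1)) = 0 := by
    rw [Filter.eventually_all_finset]
    intro c hc
    by_cases hcT : c ∈ T
    · exact Eventually.of_forall fun v h => absurd hcT h
    · have h2 : ∀ᶠ v in 𝓝 (res 𝕜 s w), fderiv 𝕜 g v (res 𝕜 s (Pi.single c 1)) = 0 := by
        refine eventually_res (P := fun v => fderiv 𝕜 g v (res 𝕜 s (Pi.single c 1)) = 0) ?_
        filter_upwards [hz c hc hcT, eventually_lineDeriv hg hfg] with w' h1 h2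
        rw [← h2]
        exact h1
      exact h2.mono fun v hv _ => hv
  obtain ⟨ε, hε, hB⟩ : ∃ ε > 0, ∀ v ∈ Metric.ball (res 𝕜 s w) ε, AnalyticAt 𝕜 g v ∧
      ∀ c ∈ s, c ∉ T → fderiv 𝕜 g v (res 𝕜 s (Pi.single c 1)) = 0 :=
    Metric.eventually_nhds_iff_ball.mp (hg.eventually_analyticAt.and h1)
  refine ⟨fun v => g (res 𝕜 s (extd w T v)), ?_, ?_⟩
  · have h2 : AnalyticAt 𝕜 (fun v : T → 𝕜 => res 𝕜 s (extd w T v)) (res 𝕜 T w) := by
      rw [analyticAt_pi_iff]
      intro i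
      by_cases hi : (i : ι) ∈ T
      · have h3 : (fun v : T → 𝕜 => res 𝕜 s (extd w T v) i) = fun v => v ⟨i, hi⟩ := by
          funext v
          rw [res_apply, extd, dif_pos hi]
        rw [h3]
        exact (ContinuousLinearMap.proj (R := 𝕜) (φ := fun _ : T => 𝕜) (⟨i, hi⟩ : T)).analyticAt _
      · have h3 : (fun v : T → 𝕜 => res 𝕜 s (extd w T v) i) = fun v => w i := by
          funext v
          rw [res_apply, extd, dif_neg hi]
        rw [h3]
        exact analyticAt_const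
    refine AnalyticAt.comp (g := g) (f := fun v : T → 𝕜 => res 𝕜 s (extd w T v)) ?_ h2
    rw [extd_res]
    exact hg
  · have h2 : ∀ᶠ w' in 𝓝 w, res 𝕜 s w' ∈ Metric.ball (res 𝕜 s w) ε :=
      (res 𝕜 s).continuous.continuousAt.eventually (Metric.ball_mem_nhds _ hε)
    filter_upwards [hfg, h2] with w' h3 h4
    rw [h3]
    set a := res 𝕜 s w' with ha
    set b := res 𝕜 s (extd w T (res 𝕜 T w')) with hb
    have hbB : b ∈ Metric.ball (res 𝕜 s w) ε := by
      rw [Metric.mem_ball] at h4 ⊢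
      refine lt_of_le_of_lt ?_ h4
      rw [dist_pi_le_iff dist_nonneg]
      intro i
      by_cases hi : (i : ι) ∈ T
      · have h5 : b i = a i := by
          rw [hb, ha, res_apply, res_apply, extd, dif_pos hi]
          rfl
        rw [h5]
        exact dist_le_pi_dist a (res 𝕜 s w) i
      · have h5 : b i = res 𝕜 s w i := by
          rw [hb, res_apply, res_apply, extd, dif_neg hi]
        rw [h5, dist_self]
        exact dist_nonneg
    have hu : ∀ v ∈ Metric.ball (res 𝕜 s w) ε, fderiv 𝕜 g v (a - b) = 0 := by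
      intro v hv
      have h5 : a - b = res 𝕜 s (w' - extd w T (res 𝕜 T w')) := by
        rw [map_sub]
      rw [h5, res_eq_sum, map_sum]
      refine Finset.sum_eq_zero fun c hc => ?_
      rw [map_smul]
      by_cases hcT : c ∈ T
      · rw [Pi.sub_apply, extd, dif_pos hcT, res_apply, sub_self, zero_smul]
      · rw [(hB v hv).2 c hc hcT, smul_zero]
    have hconv : Convex ℝ (Metric.ball (res 𝕜 s w) ε) := convex_ball _ _
    have hpath : ∀ t ∈ Set.Icc (0 : ℝ) 1, b + t • (a - b) ∈ Metric.ball (res 𝕜 s w) ε := by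
      intro t ht
      exact hconv.add_smul_sub_mem hbB h4 ht
    have hder : ∀ t ∈ Set.Icc (0 : ℝ) 1,
        HasDerivAt (fun t : ℝ => g (b + t • (a - b))) 0 t := by
      intro t ht
      have h5 : HasDerivAt (fun t : ℝ => b + t • (a - b)) (a - b) t := by
        have := ((hasDerivAt_id t).smul_const (a - b)).const_add b
        simpa using this
      have h6 : HasFDerivAt g ((fderiv 𝕜 g (b + t • (a - b))).restrictScalars ℝ)
          (b + t • (a - b)) :=
        ((hB _ (hpath t ht)).1.differentiableAt.hasFDerivAt).restrictScalars ℝ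
      have h7 := h6.comp_hasDerivAt t h5
      have h8 : ((fderiv 𝕜 g (b + t • (a - b))).restrictScalars ℝ) (a - b) = 0 :=
        hu _ (hpath t ht)
      rw [h8] at h7
      exact h7
    have hconst := constant_of_has_deriv_right_zero (f := fun t : ℝ => g (b + t • (a - b)))
      (a := 0) (b := 1) (fun t ht => (hder t ht).continuousAt.continuousWithinAt)
      (fun t ht => (hder t ⟨ht.1, ht.2.le⟩).hasDerivWithinAt) 1 ⟨zero_le_one, le_rfl⟩
    simpa using hconst

end Shrink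

section Fields

/-- The coordinates on which the integrals depend. -/
def Mset (N : ℕ) (ε : Bool) (r : ℕ) : Finset (Coord N) :=
  Finset.univ.image (fun e : Bool => Coord.var e) ∪
    (Finset.univ.image (fun i : Fin N => Coord.u i) ∪
      (Finset.range (r + 1) ×ˢ (Finset.univ : Finset (Fin N))).image
        fun p => Coord.d (!ε) p.1 p.2)

lemma mem_Mset {N : ℕ} {ε : Bool} {r : ℕ} {c : Coord N} : c ∈ Mset N ε r ↔
    (∃ e, c = .var e) ∨ (∃ i, c = .u i) ∨ ∃ n i, n ≤ r ∧ c = .d (!ε) n i := by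
  simp only [Mset, Finset.mem_union, Finset.mem_image, Finset.mem_univ, true_and,
    Finset.mem_product, Finset.mem_range, Prod.exists, and_true, Nat.lt_succ_iff]
  constructor
  · rintro (⟨e, h⟩ | ⟨i, h⟩ | ⟨m, i, hm, h⟩)
    · exact Or.inl ⟨e, h.symm⟩
    · exact Or.inr (Or.inl ⟨i, h.symm⟩)
    · exact Or.inr (Or.inr ⟨m, i, hm, h.symm⟩)
  · rintro (⟨e, h⟩ | ⟨i, h⟩ | ⟨m, i, hm, h⟩)
    · exact Or.inl ⟨e, h.symm⟩
    · exact Or.inr (Or.inl ⟨i, h.symm⟩)
    · exact Or.inr (Or.inr ⟨m, i, hm, h.symm⟩)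

lemma not_mem_Mset {N : ℕ} {ε : Bool} {r : ℕ} {c : Coord N} (h : c ∉ Mset N ε r) :
    (∃ n l, c = .d ε n l) ∨ ∃ n l, r + 1 ≤ n ∧ c = .d (!ε) n l := by
  rw [mem_Mset] at h
  push Not at h
  obtain ⟨h1, h2, h3⟩ := h
  cases c with
  | var e => exact absurd rfl (h1 e)
  | u i => exact absurd rfl (h2 i)
  | d e n i =>
    by_cases he : e = ε
    · exact Or.inl ⟨n, i, by rw [he]⟩
    · have h' : e = !ε := by cases e <;> cases ε <;> simp at he ⊢
      subst h'
      refine Or.inr ⟨n, i, ?_, rfl⟩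
      by_contra hn
      exact h3 n i (by omega) rfl

variable {K : Type*} [Field K] {N : ℕ} {ε : Bool} {J : JetDiff K N ε}

theorem exists_fields' (C : J.Chain) {r : ℕ} (hr : C.Z (r + 1) = 0) :
    ∃ E : Finset (Coord N), ∃ W : Coord N → Derivation ℤ K K,
      (∀ e ∈ E, e = .var ε ∨ e ∈ J.Is r) ∧
      (∀ e ∈ E, J.Geo (W e)) ∧
      (∀ e ∈ E, ∀ e' ∈ E, W e (J.z e') = if e = e' then 1 else 0) ∧
      (∀ e ∈ E, ∀ e' ∈ E, ⁅W e, W e'⁆ = 0) ∧
      (J.D = ∑ e ∈ E, J.D (J.z e) • W e) ∧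
      (∀ e ∈ E, ∀ c ∈ Mset N ε r, ∀ c' ∉ Mset N ε r, J.pd c' (W e (J.z c)) = 0) := by
  classical
  obtain ⟨E, hE, W, W0, h1, h2, h3, h4, h5, h6, h7, h8, h9, h10, h11⟩ := C.exists_fields hr
  have hvar : ∀ t, Coord.var t ∉ E := by
    intro t ht
    have := hE ht
    rw [JetDiff.mem_Is] at this
    rcases this with ⟨i, h⟩ | ⟨n, i, _, h⟩ <;> cases h
  have hne : ∀ e ∈ E, e ≠ .var ε := fun e he h => hvar ε (h ▸ he)
  let W' : Coord N → Derivation ℤ K K := fun e => if e = .var ε then W0 else W e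
  have hW'0 : W' (.var ε) = W0 := if_pos rfl
  have hW'e : ∀ e ∈ E, W' e = W e := fun e he => if_neg (hne e he)
  refine ⟨insert (.var ε) E, W', ?_, ?_, ?_, ?_, ?_, ?_⟩
  · intro e he
    rcases Finset.mem_insert.mp he with rfl | he'
    · exact Or.inl rfl
    · exact Or.inr (hE he')
  · intro e he
    rcases Finset.mem_insert.mp he with rfl | he'
    · rw [hW'0]; exact h2
    · rw [hW'e e he']; exact h1 e he'
  · intro e he e' he'
    rcases Finset.mem_insert.mp he with rfl | he1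
    · rw [hW'0]
      rcases Finset.mem_insert.mp he' with rfl | he1'
      · rw [h6, if_pos rfl, if_pos rfl]
      · rw [h4 e' he1', if_neg (hne e' he1').symm]
    · rw [hW'e e he1]
      rcases Finset.mem_insert.mp he' with rfl | he1'
      · rw [h5 e he1, if_neg (hne e he1)]
      · exact h3 e he1 e' he1'
  · intro e he e' he'
    rcases Finset.mem_insert.mp he with rfl | he1
    · rw [hW'0]
      rcases Finset.mem_insert.mp he' with rfl | he1'
      · rw [hW'0]; exact lie_self _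
      · rw [hW'e e' he1']; exact h8 e' he1'
    · rw [hW'e e he1]
      rcases Finset.mem_insert.mp he' with rfl | he1'
      · rw [hW'0, ← lie_skew, h8 e he1, neg_zero]
      · rw [hW'e e' he1']; exact h7 e he1 e' he1'
  · rw [Finset.sum_insert (hvar ε), hW'0, J.D_var, if_pos rfl, one_smul,
      Finset.sum_congr rfl fun e he => by rw [hW'e e he]]
    exact h9
  · intro e he c hc c' hc'
    have hIs : (∃ t, c = .var t) ∨ c ∈ J.Is (r + 1) := by
      rw [mem_Mset] at hc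
      rcases hc with h | h | ⟨n, i, hn, h⟩
      · exact Or.inl h
      · exact Or.inr (JetDiff.mem_Is J |>.mpr (Or.inl h))
      · exact Or.inr (JetDiff.mem_Is J |>.mpr (Or.inr ⟨n, i, by omega, h⟩))
    rcases hIs with ⟨t, rfl⟩ | hcI
    · rcases Finset.mem_insert.mp he with rfl | he1
      · rw [hW'0, h6]
        split_ifs
        · exact (J.pd c').map_one_eq_zero
        · exact map_zero _
      · rw [hW'e e he1, h5 e he1]
        exact map_zero _
    · rcases not_mem_Mset hc' with ⟨n, l, rfl⟩ | ⟨n, l, hn, rfl⟩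
      · rcases Finset.mem_insert.mp he with rfl | he1
        · rw [hW'0]; exact (h10 c hcI n l).2
        · rw [hW'e e he1]; exact (h10 c hcI n l).1 e he1
      · rcases Finset.mem_insert.mp he with rfl | he1
        · rw [hW'0]; exact (h11 c hcI n hn l).2
        · rw [hW'e e he1]; exact (h11 c hcI n hn l).1 e he1

end Fields

section Transfer

variable {𝕜 : Type*} [RCLike 𝕜] {N : ℕ} {F : Base 𝕜 N → Fin N → 𝕜}

lemma mer_pd {ι : Type*} [DecidableEq ι] {w0 : ι → 𝕜} {f : (ι → 𝕜) → 𝕜} (hf : Mer w0 f) (c : ι) :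
    Mer w0 (pd c f) := hf.lineDeriv (fun _ => LA.const _ _)

/-- Function level commuting fields in solved form, near some point `w1` of `Ω`. -/
structure FieldData (F : Base 𝕜 N → Fin N → 𝕜) (ε : Bool) (r : ℕ) (w1 : Jet 𝕜 N) where
  E : Finset (Coord N)
  h : Coord N → Coord N → Jet 𝕜 N → 𝕜
  E_sub : ∀ e ∈ E, e = .var ε ∨ (∃ i, e = .u i) ∨ ∃ n i, n < r ∧ e = .d (!ε) n i
  an : ∀ e ∈ E, ∀ c ∈ Mset N ε r, LAs (Mset N ε r) (h e c) w1
  delta : ∀ e ∈ E, ∀ e' ∈ E, ∀ᶠ w in 𝓝 w1, h e e' w = if e = e' then 1 else 0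
  comm : ∀ e ∈ E, ∀ e' ∈ E, ∀ c ∈ Mset N ε r, ∀ᶠ w in 𝓝 w1,
    ∑ c' ∈ Mset N ε r, h e c' w * pd c' (h e' c) w =
      ∑ c' ∈ Mset N ε r, h e' c' w * pd c' (h e c) w
  V_eq : ∀ c ∈ Mset N ε r, ∀ᶠ w in 𝓝 w1, V F ε w c = ∑ e ∈ E, V F ε w e * h e c w

theorem exists_fieldData_aux {K : Type*} [Field K] {w0 : Jet 𝕜 N} (M : GF w0 K)
    {Ω : Set (Jet 𝕜 N)} {ε : Bool} (C : FChain F Ω ε) (hΩ : IsOpen Ω)
    (hFΩ : ∀ w ∈ Ω, AnalyticAt 𝕜 F (base w)) (hw0 : w0 ∈ Ω) (r : ℕ)
    (hr : ∀ w ∈ Ω, C.Z (r + 1) w = 0) : ∃ w1 ∈ Ω, Nonempty (FieldData F ε r w1) := by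
  classical
  have hF := hFΩ w0 hw0
  have hZ : (C.toChain M hΩ hFΩ hw0).Z (r + 1) = 0 := by
    change M.mel (C.Z (r + 1)) = 0
    ext i j
    refine (M.elT_congr (f' := fun _ => 0) (Gen_of_nhds ?_)).trans M.elT_zero
    filter_upwards [hΩ.mem_nhds hw0] with w hw
    rw [hr w hw]
    rfl
  obtain ⟨E, W, h1, h2, h3, h4, h5, h6⟩ := exists_fields' (C.toChain M hΩ hFΩ hw0) hZ
  have hh : ∀ φ : K, M.elT (M.rep φ) = φ := fun φ => by
    rw [M.elT_eq (M.rep_mer φ), M.el_rep]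
  set h : Coord N → Coord N → Jet 𝕜 N → 𝕜 := fun e c => M.rep (W e (zK M c)) with hdef
  have hmer : ∀ e c, Mer w0 (h e c) := fun e c => M.rep_mer _
  have hel : ∀ e c, M.elT (h e c) = W e (zK M c) := fun e c => hh _
  -- analyticity
  have gA : ∀ᶠ w in Gen w0, ∀ e ∈ E, ∀ c ∈ Mset N ε r, LAs (Mset N ε r) (h e c) w := by
    rw [Filter.eventually_all_finset]
    intro e he
    rw [Filter.eventually_all_finset]
    intro c hc
    obtain ⟨s, hs⟩ := (hmer e c).las
    have hz : ∀ᶠ w in Gen w0, ∀ c' ∈ s, c' ∉ Mset N ε r → ∀ᶠ w' in 𝓝 w, pd c' (h e c) w' = 0 := by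
      rw [Filter.eventually_all_finset]
      intro c' _
      by_cases hc' : c' ∈ Mset N ε r
      · exact Eventually.of_forall fun w h => absurd hc' h
      · have h7 : pdK M c' (W e (zK M c)) = 0 := h6 e he c hc c' hc'
        rw [← hel, M.pdK_elT c' (hmer e c), ← M.elT_zero, M.elT_eq_iff
          (mer_pd (hmer e c) c') (LA.const 0 w0).mer] at h7
        exact (Gen_open h7).mono fun w hw _ => hw
    filter_upwards [hs, hz] with w hw1 hw2
    exact las_shrink hw1 hw2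
  have gD : ∀ᶠ w in Gen w0, ∀ e ∈ E, ∀ e' ∈ E, ∀ᶠ w' in 𝓝 w,
      h e e' w' = if e = e' then 1 else 0 := by
    rw [Filter.eventually_all_finset]
    intro e he
    rw [Filter.eventually_all_finset]
    intro e' he'
    have h7 : W e (zK M e') = if e = e' then 1 else 0 := h3 e he e' he'
    have h8 : M.elT (h e e') = M.elT (fun _ => if e = e' then 1 else 0) := by
      rw [hel, h7]
      split_ifs
      · exact M.elT_one.symm
      · exact M.elT_zero.symm
    rw [M.elT_eq_iff (hmer e e') (LA.const _ w0).mer] at h8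
    exact Gen_open h8
  have hGeo : ∀ e ∈ E, ∀ e' ∈ E, ∀ c ∈ Mset N ε r, W e (W e' (zK M c)) =
      ∑ c' ∈ Mset N ε r, W e (zK M c') * pdK M c' (W e' (zK M c)) := by
    intro e he e' he' c hc
    exact h2 e he _ _ fun c' hc' => h6 e' he' c hc c' hc'
  have hGeo' : ∀ e ∈ E, ∀ e' ∈ E, ∀ c ∈ Mset N ε r, M.elT (fun w => ∑ c' ∈ Mset N ε r,
      h e c' w * pd c' (h e' c) w) = W e (W e' (zK M c)) := by
    intro e he e' he' c hc
    have hm : ∀ c', Mer w0 (pd c' (h e' c)) := fun c' => mer_pd (hmer e' c) c'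
    rw [hGeo e he e' he' c hc, M.elT_sum _ fun c' => (hmer e c').mul (hm c')]
    refine Finset.sum_congr rfl fun c' _ => ?_
    rw [M.elT_mul (hmer e c') (hm c'), hel, ← hel e' c, M.pdK_elT c' (hmer e' c)]
  have gC : ∀ᶠ w in Gen w0, ∀ e ∈ E, ∀ e' ∈ E, ∀ c ∈ Mset N ε r, ∀ᶠ w' in 𝓝 w,
      ∑ c' ∈ Mset N ε r, h e c' w' * pd c' (h e' c) w' =
      ∑ c' ∈ Mset N ε r, h e' c' w' * pd c' (h e c) w' := by
    rw [Filter.eventually_all_finset]
    intro e he
    rw [Filter.eventually_all_finset]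
    intro e' he'
    rw [Filter.eventually_all_finset]
    intro c hc
    have hm : ∀ e c c', Mer w0 (pd c' (h e c)) := fun e c c' => mer_pd (hmer e c) c'
    have h7 : W e (W e' (zK M c)) = W e' (W e (zK M c)) := by
      have := congrArg (fun Y : Derivation ℤ K K => Y (zK M c)) (h4 e he e' he')
      simp only [Derivation.commutator_apply, Derivation.zero_apply] at this
      exact sub_eq_zero.mp this
    rw [← hGeo' e he e' he' c hc, ← hGeo' e' he' e he c hc,
      M.elT_eq_iff (Mer.sum _ fun c' _ => (hmer e c').mul (hm e' c c'))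
        (Mer.sum _ fun c' _ => (hmer e' c').mul (hm e c c'))] at h7
    exact Gen_open h7
  have gV : ∀ᶠ w in Gen w0, ∀ c ∈ Mset N ε r, ∀ᶠ w' in 𝓝 w,
      V F ε w' c = ∑ e ∈ E, V F ε w' e * h e c w' := by
    rw [Filter.eventually_all_finset]
    intro c _
    have hVc : ∀ c, DV M (V F ε) (V_LA hF) (zK M c) = M.elT (fun w => V F ε w c) := by
      intro c
      rw [DV_z, M.elT_eq]
    have h7 : DV M (V F ε) (V_LA hF) (zK M c) =
        ∑ e ∈ E, DV M (V F ε) (V_LA hF) (zK M e) * W e (zK M c) := by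
      have := congrArg (fun Y : Derivation ℤ K K => Y (zK M c)) h5
      have h8 : (∑ e ∈ E, (JD M hF ε).D ((JD M hF ε).z e) • W e) (zK M c) =
          ∑ e ∈ E, (JD M hF ε).D ((JD M hF ε).z e) * W e (zK M c) := by
        rw [JetDiff.sum_apply']
        exact Finset.sum_congr rfl fun e _ => by rw [Derivation.smul_apply, smul_eq_mul]
      exact this.trans h8
    have h9 : ∀ e, DV M (V F ε) (V_LA hF) (zK M e) * W e (zK M c) =
        M.elT (fun w => V F ε w e * h e c w) := by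
      intro e
      rw [hVc, ← hel, M.elT_mul (V_LA hF e).mer (hmer e c)]
    rw [hVc, Finset.sum_congr rfl fun e _ => h9 e,
      ← M.elT_sum _ fun e => (V_LA hF e).mer.mul (hmer e c),
      M.elT_eq_iff (V_LA hF c).mer (Mer.sum _ fun e _ => (V_LA hF e).mer.mul (hmer e c))] at h7
    exact Gen_open h7
  obtain ⟨w1, hw1, hA, hD, hC, hV⟩ :=
    ((Gen_of_nhds (hΩ.mem_nhds hw0)).and (gA.and (gD.and (gC.and gV)))).exists
  refine ⟨w1, hw1, ⟨⟨E, h, ?_, hA, hD, hC, hV⟩⟩⟩
  intro e he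
  rcases h1 e he with h | h
  · exact Or.inl h
  · exact Or.inr ((JetDiff.mem_Is _).mp h)

theorem exists_fieldData {Ω : Set (Jet 𝕜 N)} {ε : Bool} (C : FChain F Ω ε) (hΩ : IsOpen Ω)
    (hFΩ : ∀ w ∈ Ω, AnalyticAt 𝕜 F (base w)) (hne : Ω.Nonempty) (r : ℕ)
    (hr : ∀ w ∈ Ω, C.Z (r + 1) w = 0) : ∃ w1 ∈ Ω, Nonempty (FieldData F ε r w1) := by
  obtain ⟨w0, hw0⟩ := hne
  exact @exists_fieldData_aux 𝕜 _ N F (KK w0) isField_KK.toField w0 (GFstd w0) Ω ε C hΩ hFΩ hw0 r hr

end Transfer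

end Pool.Agent.Lib.MP_a322a8_mp
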