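import Pool.Agent.Lib.MP_a322a8_mp.Jets

/-!
The jet differential field of the system.
-/

set_option autoImplicit false

open Filter Topology
open scoped ContDiff

namespace Pool.Agent.Lib.MP_a322a8_mp

section Sys

variable {𝕜 : Type*} [RCLike 𝕜] {N : ℕ} {F : Base 𝕜 N → Fin N → 𝕜}

lemma LAs.pi {ι κ : Type*} [Fintype κ] {s : Finset ι} {f : (ι → 𝕜) → κ → 𝕜} {w : ι → 𝕜}
    (h : ∀ j, LAs s (fun w' => f w' j) w) : LAs s f w := by
  choose g hg hfg using h
  refine ⟨fun v j => g j v, ?_, ?_⟩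
  · rw [analyticAt_pi_iff]
    exact hg
  · filter_upwards [Filter.eventually_all.mpr hfg] with w' h3
    funext j
    exact h3 j

/-- The coordinates on which `FF F ε n` depends. -/
def suppF (N : ℕ) (ε : Bool) (n : ℕ) : Finset (Coord N) :=
  Finset.univ.image (fun e : Bool => Coord.var e) ∪
    (Finset.univ.image (fun i : Fin N => Coord.u i) ∪
      (Finset.univ.image (fun i : Fin N => Coord.d (!ε) 0 i) ∪
        (Finset.range (n + 1) ×ˢ (Finset.univ : Finset (Fin N))).image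
          fun p => Coord.d ε p.1 p.2))

lemma mem_suppF {ε : Bool} {n : ℕ} {c : Coord N} : c ∈ suppF N ε n ↔
    (∃ e, c = .var e) ∨ (∃ i, c = .u i) ∨ (∃ i, c = .d (!ε) 0 i) ∨
      ∃ m i, m ≤ n ∧ c = .d ε m i := by
  simp only [suppF, Finset.mem_union, Finset.mem_image, Finset.mem_univ, true_and,
    Finset.mem_product, Finset.mem_range, Prod.exists, and_true, Nat.lt_succ_iff]
  constructor
  · rintro (⟨e, h⟩ | ⟨i, h⟩ | ⟨i, h⟩ | ⟨m, i, hm, h⟩)
    · exact Or.inl ⟨e, h.symm⟩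
    · exact Or.inr (Or.inl ⟨i, h.symm⟩)
    · exact Or.inr (Or.inr (Or.inl ⟨i, h.symm⟩))
    · exact Or.inr (Or.inr (Or.inr ⟨m, i, hm, h.symm⟩))
  · rintro (⟨e, h⟩ | ⟨i, h⟩ | ⟨i, h⟩ | ⟨m, i, hm, h⟩)
    · exact Or.inl ⟨e, h.symm⟩
    · exact Or.inr (Or.inl ⟨i, h.symm⟩)
    · exact Or.inr (Or.inr (Or.inl ⟨i, h.symm⟩))
    · exact Or.inr (Or.inr (Or.inr ⟨m, i, hm, h.symm⟩))

lemma suppF_mono {ε : Bool} {n m : ℕ} (h : n ≤ m) : suppF N ε n ⊆ suppF N ε m := by
  intro c hc
  rw [mem_suppF] at hc ⊢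
  rcases hc with h1 | h1 | h1 | ⟨k, i, hk, h1⟩
  · exact Or.inl h1
  · exact Or.inr (Or.inl h1)
  · exact Or.inr (Or.inr (Or.inl h1))
  · exact Or.inr (Or.inr (Or.inr ⟨k, i, hk.trans h, h1⟩))

lemma base_LAs {ε : Bool} {s : Finset (Coord N)} (hs : suppF N ε 0 ⊆ s) (w : Jet 𝕜 N) :
    LAs s (base : Jet 𝕜 N → Base 𝕜 N) w := by
  have hd : ∀ (e : Bool) i, Coord.d e 0 i ∈ s := by
    intro e i
    apply hs
    rw [mem_suppF]
    by_cases h : e = ε
    · exact Or.inr (Or.inr (Or.inr ⟨0, i, le_rfl, by rw [h]⟩))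
    · refine Or.inr (Or.inr (Or.inl ⟨i, ?_⟩))
      cases e <;> cases ε <;> simp at h ⊢
  refine LAs.prodMk (LAs.coord (hs (mem_suppF.mpr (Or.inl ⟨true, rfl⟩))) w) ?_
  refine LAs.prodMk (LAs.coord (hs (mem_suppF.mpr (Or.inl ⟨false, rfl⟩))) w) ?_
  refine LAs.prodMk (LAs.pi fun i => LAs.coord (hs (mem_suppF.mpr (Or.inr (Or.inl ⟨i, rfl⟩)))) w) ?_
  exact LAs.prodMk (LAs.pi fun i => LAs.coord (hd true i) w)
    (LAs.pi fun i => LAs.coord (hd false i) w)

lemma F_LAs {ε : Bool} {s : Finset (Coord N)} (hs : suppF N ε 0 ⊆ s) {w : Jet 𝕜 N}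
    (hF : AnalyticAt 𝕜 F (base w)) (i : Fin N) : LAs s (fun w' => F (base w') i) w :=
  (base_LAs hs w).comp (Φ := fun b => F b i) ((analyticAt_pi_iff.mp hF) i)

lemma continuous_base : Continuous (base : Jet 𝕜 N → Base 𝕜 N) := by
  unfold base
  fun_prop

lemma eventually_F {w : Jet 𝕜 N} (hF : AnalyticAt 𝕜 F (base w)) :
    ∀ᶠ w' in 𝓝 w, AnalyticAt 𝕜 F (base w') :=
  continuous_base.continuousAt.eventually hF.eventually_analyticAt

lemma FF_LAs {ε : Bool} (n : ℕ) {w : Jet 𝕜 N} (hF : AnalyticAt 𝕜 F (base w)) (i : Fin N) :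
    LAs (suppF N ε n) (FF F ε n i) w := by
  induction n generalizing w i with
  | zero => exact F_LAs le_rfl hF i
  | succ n ih =>
    have h1 : LAs (suppF N ε (n + 1))
        (fun w' => ∑ c ∈ suppF N ε n, Vr F ε w' c * pd c (FF F ε n i) w') w := by
      refine LAs.sum _ fun c hc => ?_
      refine LAs.mul ?_ (LAs.mono (suppF_mono (Nat.le_succ n)) ((ih hF i).pd c))
      rw [mem_suppF] at hc
      rcases hc with ⟨e, rfl⟩ | ⟨j, rfl⟩ | ⟨j, rfl⟩ | ⟨m, j, hm, rfl⟩
      · exact LAs.const _ _ _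
      · exact LAs.coord (mem_suppF.mpr (Or.inr (Or.inr (Or.inr ⟨0, j, Nat.zero_le _, rfl⟩)))) w
      · have h2 : ∀ w' : Jet 𝕜 N, Vr F ε w' (.d (!ε) 0 j) = F (base w') j := by
          intro w'
          cases ε <;> simp [Vr]
        simp_rw [h2]
        exact F_LAs (suppF_mono (Nat.zero_le _)) hF j
      · have h2 : ∀ w' : Jet 𝕜 N, Vr F ε w' (.d ε m j) = w' (.d ε (m + 1) j) := by
          intro w'
          simp [Vr]
        simp_rw [h2]
        exact LAs.coord (mem_suppF.mpr (Or.inr (Or.inr (Or.inr ⟨m + 1, j, by omega, rfl⟩)))) w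
    refine h1.congr ?_
    filter_upwards [(ih hF i).eventually] with w' hw'
    exact hw'.lineDeriv_eq _

lemma V_d_self (ε : Bool) (w : Jet 𝕜 N) (n : ℕ) (i : Fin N) :
    V F ε w (.d ε n i) = w (.d ε (n + 1) i) := by simp [V]

lemma V_d_not (ε : Bool) (w : Jet 𝕜 N) (n : ℕ) (i : Fin N) :
    V F ε w (.d (!ε) n i) = FF F (!ε) n i w := by cases ε <;> simp [V]

lemma V_not_d (ε : Bool) (w : Jet 𝕜 N) (n : ℕ) (i : Fin N) :
    V F (!ε) w (.d ε n i) = FF F ε n i w := by cases ε <;> simp [V]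

lemma V_not_d_not (ε : Bool) (w : Jet 𝕜 N) (n : ℕ) (i : Fin N) :
    V F (!ε) w (.d (!ε) n i) = w (.d (!ε) (n + 1) i) := by simp [V]

lemma V_LA {ε : Bool} {w : Jet 𝕜 N} (hF : AnalyticAt 𝕜 F (base w)) (c : Coord N) :
    LA (fun w' => V F ε w' c) w := by
  cases c with
  | var e => exact LA.const _ _
  | u i => exact LA.coord _ _
  | d e n i =>
    by_cases h : e = ε
    · subst h
      simp_rw [V_d_self]
      exact LA.coord _ _
    · have h' : e = !ε := by cases e <;> cases ε <;> simp at h ⊢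
      subst h'
      simp_rw [V_d_not]
      exact (FF_LAs n hF i).la

/-- On functions of the coordinates in `suppF`, the full and the restricted fields agree. -/
lemma lineDeriv_FF {ε : Bool} (n : ℕ) {w : Jet 𝕜 N} (hF : AnalyticAt 𝕜 F (base w)) (i : Fin N) :
    lineDeriv 𝕜 (FF F ε n i) w (V F ε w) = FF F ε (n + 1) i w := by
  change _ = lineDeriv 𝕜 (FF F ε n i) w (Vr F ε w)
  rw [(FF_LAs n hF i).lineDeriv_eq, (FF_LAs n hF i).lineDeriv_eq]
  refine Finset.sum_congr rfl fun c hc => ?_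
  congr 1
  rw [mem_suppF] at hc
  rcases hc with ⟨e, rfl⟩ | ⟨j, rfl⟩ | ⟨j, rfl⟩ | ⟨m, j, hm, rfl⟩
  · rfl
  · rfl
  · cases ε <;> simp [V, Vr, FF]
  · simp [V, Vr]

variable {K : Type*} [Field K] {w0 : Jet 𝕜 N} (M : GF w0 K)

lemma GF.el_congr {f f' : Jet 𝕜 N → 𝕜} (hf : Mer w0 f) (h : ∀ w, f w = f' w) :
    M.el f hf = M.el f' (hf.congr (Eventually.of_forall fun w => (h w).symm)) :=
  M.el_eq.mpr (Eventually.of_forall h)

/-- The differential field of the system. -/
noncomputable def JD (hF : AnalyticAt 𝕜 F (base w0)) (ε : Bool) : JetDiff K N ε where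
  pd := pdK M
  z := zK M
  D := DV M (V F ε) (V_LA hF)
  D' := DV M (V F (!ε)) (V_LA hF)
  pd_z := pdK_z M
  pd_comm := pdK_comm M
  fin := KF_fin M
  D_eq := DV_eq M _ _
  D'_eq := DV_eq M _ _
  DD' := by
    intro φ
    refine DV_comm M (fun c => ?_) φ
    rw [DV_z, DV_z, DV_el, DV_el, M.el_eq]
    refine Gen_of_nhds ?_
    filter_upwards [eventually_F hF] with w hw
    cases c with
    | var e =>
      have h1 : ∀ δ : Bool, (fun w : Jet 𝕜 N => V F δ w (.var e)) =
          fun _ => if e = δ then (1 : 𝕜) else 0 := fun δ => rfl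
      rw [h1, h1, lineDeriv_fun_const, lineDeriv_fun_const]
    | u i =>
      have h1 : ∀ δ : Bool, (fun w : Jet 𝕜 N => V F δ w (.u i)) =
          fun w => w (.d δ 0 i) := fun δ => rfl
      rw [h1, h1, lineDeriv_coord, lineDeriv_coord, V_d_not, V_not_d]
      rfl
    | d e n i =>
      by_cases h : e = ε
      · subst h
        have h1 : (fun w : Jet 𝕜 N => V F e w (.d e n i)) = fun w => w (.d e (n + 1) i) :=
          funext fun w => V_d_self e w n i
        have h2 : (fun w : Jet 𝕜 N => V F (!e) w (.d e n i)) = FF F e n i :=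
          funext fun w => V_not_d e w n i
        rw [h1, h2, lineDeriv_coord, lineDeriv_FF n hw, V_not_d]
      · have h' : e = !ε := by cases e <;> cases ε <;> simp at h ⊢
        subst h'
        have h1 : (fun w : Jet 𝕜 N => V F (!ε) w (.d (!ε) n i)) = fun w => w (.d (!ε) (n + 1) i) :=
          funext fun w => V_not_d_not ε w n i
        have h2 : (fun w : Jet 𝕜 N => V F ε w (.d (!ε) n i)) = FF F (!ε) n i :=
          funext fun w => V_d_not ε w n i
        rw [h1, h2, lineDeriv_coord, lineDeriv_FF n hw, V_d_not]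
  D_var := by
    intro e
    rw [DV_z]
    split_ifs with h
    · rw [← M.el_one, M.el_eq]
      exact Eventually.of_forall fun w => by simp [V, h]
    · rw [← M.el_zero, M.el_eq]
      exact Eventually.of_forall fun w => by simp [V, h]
  D'_var := by
    intro e
    rw [DV_z]
    split_ifs with h
    · rw [← M.el_zero, M.el_eq]
      exact Eventually.of_forall fun w => by subst h; cases e <;> simp [V]
    · rw [← M.el_one, M.el_eq]
      exact Eventually.of_forall fun w => by cases e <;> cases ε <;> simp [V] at h ⊢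
  D_u := by
    intro i
    rw [DV_z, zK, M.el_eq]
    exact Eventually.of_forall fun w => rfl
  D'_u := by
    intro i
    rw [DV_z, zK, M.el_eq]
    exact Eventually.of_forall fun w => rfl
  D_d := by
    intro n i
    rw [DV_z, zK, M.el_eq]
    exact Eventually.of_forall fun w => V_d_self ε w n i
  D'_d := by
    intro n i
    rw [DV_z, zK, M.el_eq]
    exact Eventually.of_forall fun w => V_not_d_not ε w n i
  G_p := by
    intro n i m j
    rw [DV_z, pdK_el, ← M.el_zero, M.el_eq]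
    refine Gen_of_nhds ?_
    filter_upwards [eventually_F hF] with w hw
    simp_rw [V_d_not]
    refine (FF_LAs n hw i).pd_eq_zero ?_
    rw [mem_suppF]
    rintro (⟨e, h⟩ | ⟨i, h⟩ | ⟨i, h⟩ | ⟨m, i, hm, h⟩)
    · simp at h
    · simp at h
    · simp at h
    · simp at h
  G_q := by
    intro n i m j hnm
    rw [DV_z, pdK_el, ← M.el_zero, M.el_eq]
    refine Gen_of_nhds ?_
    filter_upwards [eventually_F hF] with w hw
    simp_rw [V_d_not]
    refine (FF_LAs n hw i).pd_eq_zero ?_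
    rw [mem_suppF]
    rintro (⟨e, h⟩ | ⟨i, h⟩ | ⟨i, h⟩ | ⟨m, i, hm, h⟩)
    · simp at h
    · simp at h
    · simp at h
    · simp at h
      omega

end Sys

end Pool.Agent.Lib.MP_a322a8_mp
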